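import Pool.Agent.AEN.Targets
import Pool.Agent.PSat.Basic

/-!
# AEN: CCP, the connected components of the hyperbolic locus
-/

set_option autoImplicit false

open Complex Filter Topology Set MeasureTheory
open Pool.Agent.Multibrot (MM)
open Pool.Agent.Limb (F)
open Pool.Agent.PLim (Rho LocFix)
open Pool.Agent.MEX (Exa)
open Pool.Agent.MEY (Pt DD Omg Glob)
open Pool.Agent.PSat (Comp Sat)

namespace Pool.Agent.AEN

namespace CCP_

lemma ball_sub_DD (κ : ℝ) : Metric.ball (0 : ℂ) 1 ⊆ DD 2 1 κ := by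
  intro v hv
  rw [mem_ball_zero_iff] at hv
  by_cases h0 : v = 0
  · exact Or.inl h0
  · refine Or.inr (Or.inl ?_)
    have h1 : (((2 - 1 : ℕ) : ℂ) * log v).re = Real.log ‖v‖ := by
      simp [log_re]
    rw [h1]
    exact Real.log_neg (norm_pos_iff.mpr h0) hv

/-- a component is a subset of the hyperbolic locus -/
lemma sub_hyp {K : ℕ} {P : ℂ → ℂ} (h : Comp K P) : P '' Metric.ball 0 1 ⊆ Hyp := by
  rintro c ⟨v, hv, rfl⟩
  obtain ⟨z, hz⟩ := h.pt v hv
  refine ⟨K, z, h.hK, hz.fix, ?_⟩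
  rw [hz.mul]
  exact mem_ball_zero_iff.mp hv

lemma isOpen_img (h₁ : T_INP) {K : ℕ} {P : ℂ → ℂ} (h : Comp K P) :
    IsOpen (P '' Metric.ball 0 1) := by
  have han : AnalyticOnNhd ℂ P (Metric.ball 0 1) := h.dP.analyticOnNhd Metric.isOpen_ball
  rcases han.is_constant_or_isOpen (convex_ball _ _).isPreconnected with ⟨w, hw⟩ | ho
  · exfalso
    have h0 : (0 : ℂ) ∈ Metric.ball (0 : ℂ) 1 := by simp
    have h2 : (1 / 2 : ℂ) ∈ Metric.ball (0 : ℂ) 1 := by
      rw [mem_ball_zero_iff]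
      norm_num
    have := h₁ K P h h0 h2 ((hw 0 h0).trans (hw _ h2).symm)
    norm_num at this
  · exact ho _ subset_rfl Metric.isOpen_ball

/-- every parameter of the hyperbolic locus is in a component -/
lemma cover (h₃ : Pool.Agent.PSat.T_CST) (h₄ : Pool.Agent.PSat.T_GEX) {c : ℂ} (hc : c ∈ Hyp) :
    ∃ (K : ℕ) (P : ℂ → ℂ), Comp K P ∧ c ∈ P '' Metric.ball 0 1 := by
  obtain ⟨k, z, hk, hfix, hR⟩ := hc
  obtain ⟨C, hC, hCst⟩ := h₃
  have hper : Function.IsPeriodicPt (F 2 c) k z := hfix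
  set d := Function.minimalPeriod (F 2 c) z with hd
  have hdpos : 0 < d := hper.minimalPeriod_pos hk
  have hdfix : (F 2 c)^[d] z = z := Function.iterate_minimalPeriod
  have hdvd : d ∣ k := hper.minimalPeriod_dvd
  have hexa : Exa 2 d c z := by
    intro j hj hjd hh
    exact Function.not_isPeriodicPt_of_pos_of_lt_minimalPeriod hj.ne' hjd hh
  have hRd : ‖Rho 2 d c z‖ < 1 := by
    obtain ⟨m, hm⟩ := hdvd
    by_contra hn
    rw [not_lt] at hn
    rw [hm, Pool.Agent.PSat.rho_mul hdfix, norm_pow] at hR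
    exact absurd hR (not_lt.mpr (one_le_pow₀ hn))
  have hne : Rho 2 d c z ≠ 1 := by
    intro hh
    rw [hh] at hRd
    simp at hRd
  obtain ⟨c0, Ψ, Z, hG, -, hΨ, -⟩ := h₄ C d c z hC hdpos hCst.nc hdfix hexa hRd.le hne
  refine ⟨d, Ψ, ⟨hdpos, hG.dΨ.mono (ball_sub_DD _), ?_⟩, Rho 2 d c z, ?_, hΨ⟩
  · intro v hv
    refine ⟨Z v, ?_⟩
    have := hG.pt v (ball_sub_DD _ hv)
    simpa using this
  · rw [mem_ball_zero_iff]
    exact hRd

end CCP_

open CCP_ in
/-- CCP: the connected components of the hyperbolic locus. -/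
theorem p_CCP (h₁ : T_INP) (h₂ : T_DSJ) (h₃ : Pool.Agent.PSat.T_CST)
    (h₄ : Pool.Agent.PSat.T_GEX) : T_CCP := by
  refine ⟨?_, fun c hc => cover h₃ h₄ hc⟩
  intro K P hP c hc
  have hU : IsOpen (P '' Metric.ball 0 1) := isOpen_img h₁ hP
  apply Subset.antisymm
  · let S : Set (Set ℂ) := {U | (∃ (K' : ℕ) (P' : ℂ → ℂ), Comp K' P' ∧
      U = P' '' Metric.ball 0 1) ∧ Disjoint (P '' Metric.ball 0 1) U}
    have hV : IsOpen (⋃₀ S) := by
      apply isOpen_sUnion
      rintro U ⟨⟨K', P', hP', rfl⟩, -⟩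
      exact isOpen_img h₁ hP'
    have hdis : Disjoint (P '' Metric.ball 0 1) (⋃₀ S) := by
      rw [disjoint_sUnion_right]
      rintro U ⟨-, hU⟩
      exact hU
    have hcov : connectedComponentIn Hyp c ⊆ P '' Metric.ball 0 1 ∪ ⋃₀ S := by
      intro x hx
      obtain ⟨K', P', hP', hx'⟩ := cover h₃ h₄ (connectedComponentIn_subset _ _ hx)
      rcases h₂ K K' P P' hP hP' with he | hd
      · left
        rw [he.image_eq]
        exact hx'
      · right
        exact ⟨_, ⟨⟨K', P', hP', rfl⟩, hd⟩, hx'⟩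
    exact isPreconnected_connectedComponentIn.subset_left_of_subset_union hU hV hdis hcov
      ⟨c, mem_connectedComponentIn (sub_hyp hP hc), hc⟩
  · exact ((convex_ball _ _).isPreconnected.image P
      hP.dP.continuousOn).subset_connectedComponentIn hc (sub_hyp hP)

end Pool.Agent.AEN
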