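import Pool.Agent.AEN.Targets2

/-!
# AEN: CHN2, integration along a horizontal line
-/

set_option autoImplicit false

open Complex Filter Topology Set MeasureTheory
open Pool.Agent.Multibrot (MM)
open Pool.Agent.Limb (F)
open Pool.Agent.PLim (Rho LocFix)
open Pool.Agent.MEX (Exa)
open Pool.Agent.MEY (Pt)
open Pool.Agent.PSat (Comp Sat)
open Pool.Agent.MEZ (T_AEL T_NCZ T_SECZ NCZk SECZk Fz)

namespace Pool.Agent.AEN

theorem CHN2_.hk_open (κ : ℝ) : IsOpen (Hk κ) :=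
  isOpen_lt continuous_const Complex.continuous_re

theorem CHN2_.re_eq (x Y : ℝ) : ((x : ℂ) + Y * I).re = x := by simp

theorem CHN2_.diff {κ b : ℝ} {Q : ℂ → ℂ} (h : Uv κ b Q) (x Y : ℝ) (hx : 0 < x) :
    HasDerivAt Q (deriv Q ((x : ℂ) + Y * I)) ((x : ℂ) + Y * I) := by
  have hm : ((x : ℂ) + Y * I) ∈ Hk κ := by
    change -κ < ((x : ℂ) + Y * I).re
    rw [CHN2_.re_eq]
    linarith [h.hκ]
  exact (h.dQ.differentiableAt ((CHN2_.hk_open κ).mem_nhds hm)).hasDerivAt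

/-- Logarithmic estimate. -/
theorem CHN2_.logest {κ b : ℝ} {Q : ℂ → ℂ} (h : Uv κ b Q)
    (hb : ∀ m : ℂ, 0 < m.re → ‖deriv Q m‖ ≤ b ^ 2 / m.re) (Y s M : ℝ) (hs : 0 < s)
    (hsM : s ≤ M) :
    ‖Q (s + Y * I) - Q (M + Y * I)‖ ≤ b ^ 2 * (Real.log M - Real.log s) := by
  have hM : 0 < M := lt_of_lt_of_le hs hsM
  have hlog : Real.log s ≤ Real.log M := Real.log_le_log hs hsM
  have key := norm_image_sub_le_of_norm_deriv_le_segment'
    (f := fun u : ℝ => Q (((Real.exp u : ℝ) : ℂ) + Y * I))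
    (f' := fun u : ℝ => ((Real.exp u : ℝ) : ℂ) • deriv Q (((Real.exp u : ℝ) : ℂ) + Y * I))
    (C := b ^ 2) (a := Real.log s) (b := Real.log M) ?_ ?_ (Real.log M)
    (right_mem_Icc.2 hlog)
  · simp only [Real.exp_log hM, Real.exp_log hs] at key
    rw [norm_sub_rev]
    exact key
  · intro u _
    have h1 : HasDerivAt (fun u : ℝ => ((Real.exp u : ℝ) : ℂ) + Y * I)
        (((Real.exp u : ℝ) : ℂ)) u :=
      ((Real.hasDerivAt_exp u).ofReal_comp).add_const _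
    have h2 := CHN2_.diff h (Real.exp u) Y (Real.exp_pos u)
    exact (HasDerivAt.scomp u h2 h1).hasDerivWithinAt
  · intro u _
    have hp := Real.exp_pos u
    have h3 := hb (((Real.exp u : ℝ) : ℂ) + Y * I) (by rw [CHN2_.re_eq]; exact hp)
    rw [CHN2_.re_eq] at h3
    rw [norm_smul, Complex.norm_real, Real.norm_of_nonneg hp.le]
    calc Real.exp u * ‖deriv Q (((Real.exp u : ℝ) : ℂ) + Y * I)‖
        ≤ Real.exp u * (b ^ 2 / Real.exp u) := mul_le_mul_of_nonneg_left h3 hp.le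
      _ = b ^ 2 := by field_simp

/-- Estimate near the boundary. -/
theorem CHN2_.linest {κ b : ℝ} {Q : ℂ → ℂ} (h : Uv κ b Q) (B : ℝ) (hB : 0 ≤ B)
    (hb : ∀ m : ℂ, 0 ≤ m.re → ‖deriv Q m‖ ≤ B) (Y s : ℝ) (hs : 0 < s) (hs1 : s ≤ 1) :
    ‖Q (s + Y * I) - Q (((1 : ℝ) : ℂ) + Y * I)‖ ≤ B := by
  have key := norm_image_sub_le_of_norm_deriv_le_segment'
    (f := fun u : ℝ => Q ((u : ℂ) + Y * I))
    (f' := fun u : ℝ => (1 : ℂ) • deriv Q ((u : ℂ) + Y * I))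
    (C := B) (a := s) (b := 1) ?_ ?_ 1 (right_mem_Icc.2 hs1)
  · rw [norm_sub_rev]
    refine key.trans ?_
    nlinarith
  · intro u hu
    have hu0 : 0 < u := lt_of_lt_of_le hs hu.1
    have h1 : HasDerivAt (fun u : ℝ => (u : ℂ) + Y * I) (1 : ℂ) u := by
      simpa using ((hasDerivAt_id u).ofReal_comp).add_const ((Y : ℂ) * I)
    have h2 := CHN2_.diff h u Y hu0
    exact (HasDerivAt.scomp u h2 h1).hasDerivWithinAt
  · intro u hu
    have hu0 : 0 < u := lt_of_lt_of_le hs hu.1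
    rw [one_smul]
    refine hb _ ?_
    rw [CHN2_.re_eq]
    exact hu0.le

/-- CHN2. -/
theorem p_CHN2 (h₁ : T_NBD2) : T_CHN2 := by
  intro κ b Q hU hb1 Y s M hs hsM hM1
  have hκ := hU.hκ
  have hb0 := hU.hb
  obtain ⟨hA, hB⟩ := h₁ κ b Q hU
  have hB' := hB hb1
  have hM : 0 < M := lt_of_lt_of_le hs hsM
  have hl : 0 ≤ Real.log (1 / b) := Real.log_nonneg (by rw [le_div_iff₀ hb0]; linarith)
  have hBn : 0 ≤ 11 * b ^ 2 * (1 + Real.log (1 / b)) / κ := by positivity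
  rcases le_total 1 s with h | h
  · have h1 := CHN2_.logest hU hA Y s M hs hsM
    have h2 : 0 ≤ Real.log s := Real.log_nonneg h
    have h3 : b ^ 2 * (Real.log M - Real.log s) ≤ b ^ 2 * Real.log M :=
      mul_le_mul_of_nonneg_left (by linarith) (by positivity)
    linarith
  · have h1 := CHN2_.linest hU _ hBn hB' Y s hs h
    have h2 := CHN2_.logest hU hA Y 1 M one_pos hM1
    rw [Real.log_one, sub_zero] at h2
    have h3 : ‖Q (s + Y * I) - Q (M + Y * I)‖ ≤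
        ‖Q (s + Y * I) - Q (((1 : ℝ) : ℂ) + Y * I)‖ +
        ‖Q (((1 : ℝ) : ℂ) + Y * I) - Q (M + Y * I)‖ := norm_sub_le_norm_sub_add_norm_sub _ _ _
    linarith

end Pool.Agent.AEN
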