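import Pool.Agent.AEN.Targets
import Mathlib.MeasureTheory.Measure.Lebesgue.VolumeOfBalls

/-!
# AEN: CNT, the total area of the components
-/

set_option autoImplicit false

open Complex Filter Topology Set MeasureTheory
open Pool.Agent.Limb (F)
open Pool.Agent.PLim (Rho)
open Pool.Agent.MEY (Pt)
open Pool.Agent.PSat (Comp)

namespace Pool.Agent.AEN

theorem CNT_.sub (h3 : Pool.Agent.PLim.T_BIG) (K : ℕ) (P : ℂ → ℂ) (hC : Comp K P) :
    P '' Metric.ball 0 1 ⊆ Metric.ball (0 : ℂ) 16 := by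
  rintro _ ⟨v, hv, rfl⟩
  obtain ⟨z, hz⟩ := hC.pt v hv
  rw [mem_ball_zero_iff]
  by_contra hcon
  rw [not_lt] at hcon
  have h4 := h3 2 K (P v) z le_rfl hC.hK hcon hz.fix
  rw [hz.mul] at h4
  have hv1 : ‖v‖ < 1 := mem_ball_zero_iff.1 hv
  have h5 := Real.add_one_le_exp (1 : ℝ)
  linarith

theorem CNT_.vol : (volume (Metric.ball (0 : ℂ) 16)).toReal ≤ 1000 := by
  rw [Complex.volume_ball, ENNReal.toReal_mul, ENNReal.toReal_pow,
    ENNReal.toReal_ofReal (by norm_num : (0 : ℝ) ≤ 16), ENNReal.coe_toReal, NNReal.coe_real_pi]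
  have h := Real.pi_lt_d2
  linarith

theorem p_CNT (h₁ : T_INP) (h₂ : T_DSJ) (h₃ : Pool.Agent.PLim.T_BIG) : T_CNT := by
  intro s hs
  have hsub : ∀ U ∈ s, U ⊆ Metric.ball (0 : ℂ) 16 := by
    intro U hU
    obtain ⟨K, P, hC, rfl⟩ := hs U hU
    exact CNT_.sub h₃ K P hC
  have hmeas : ∀ U ∈ s, MeasurableSet U := by
    intro U hU
    obtain ⟨K, P, hC, rfl⟩ := hs U hU
    exact Metric.isOpen_ball.measurableSet.image_of_continuousOn_injOn hC.dP.continuousOn
      (h₁ K P hC)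
  have hdisj : (s : Set (Set ℂ)).PairwiseDisjoint id := by
    intro U hU V hV hne
    obtain ⟨K, P, hC, rfl⟩ := hs U hU
    obtain ⟨K', P', hC', rfl⟩ := hs V hV
    rcases h₂ K K' P P' hC hC' with h | h
    · exact absurd h.image_eq hne
    · exact h
  have hvol : volume (⋃ U ∈ s, U) = ∑ U ∈ s, volume U := measure_biUnion_finset hdisj hmeas
  have hle : volume (⋃ U ∈ s, U) ≤ volume (Metric.ball (0 : ℂ) 16) :=
    measure_mono (Set.iUnion₂_subset hsub)
  have hfin : ∀ U ∈ s, volume U ≠ ⊤ := fun U hU =>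
    ((measure_mono (hsub U hU)).trans_lt measure_ball_lt_top).ne
  rw [← ENNReal.toReal_sum hfin, ← hvol]
  exact (ENNReal.toReal_mono measure_ball_lt_top.ne hle).trans CNT_.vol

end Pool.Agent.AEN
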