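import Pool.Agent.AEN.Targets
import Pool.Agent.PSat.Basic
import Pool.Agent.PSat.Targets2
import Pool.Agent.MEY.All2

/-!
# AEN, DSJ: components are equal or disjoint
-/

set_option autoImplicit false

open Complex Filter Topology Set MeasureTheory
open Pool.Agent.Multibrot (MM)
open Pool.Agent.Limb (F)
open Pool.Agent.PLim (Rho LocFix)
open Pool.Agent.MEX (Exa)
open Pool.Agent.MEY (Pt DD Glob)
open Pool.Agent.PSat (Comp Sat)
open Pool.Agent.MEZ (T_AEL T_NCZ T_SECZ NCZk SECZk Fz)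

namespace Pool.Agent.AEN

namespace DSJ_

/-- the exact period is unique -/
lemma per_le {K K' : ℕ} {c y : ℂ} (h : Exa 2 K c y) (h' : (F 2 c)^[K'] y = y) (hK' : 1 ≤ K') :
    K ≤ K' := by
  by_contra hlt
  exact h K' hK' (not_le.mp hlt) h'

end DSJ_

theorem p_DSJ (h₁ : Pool.Agent.PSat.T_CST) (h₂ : Pool.Agent.PSat.T_CMG)
    (h₃ : Pool.Agent.PSat.T_GD1) (h₄ : Pool.Agent.PSat.T_SM2) (h₅ : Pool.Agent.PLim.T_ATU) :
    T_DSJ := by
  intro K K' P P' hP hP'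
  by_cases hdis : Disjoint (P '' Metric.ball 0 1) (P' '' Metric.ball 0 1)
  · exact Or.inr hdis
  left
  rw [Set.not_disjoint_iff] at hdis
  obtain ⟨c, ⟨v, hv, hvc⟩, ⟨v', hv', hvc'⟩⟩ := hdis
  obtain ⟨C, hC, hCst⟩ := h₁
  have hK := hP.hK
  have hK' := hP'.hK
  have hKr : (1 : ℝ) ≤ K := by exact_mod_cast hK
  have hKr' : (1 : ℝ) ≤ K' := by exact_mod_cast hK'
  have hκ : (0 : ℝ) < 1 / (C * K) := by positivity
  have hκ' : (0 : ℝ) < 1 / (C * K') := by positivity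
  obtain ⟨Ψ, Z, hG, hPΨ⟩ := h₂ C K P hC hCst.nc hP
  obtain ⟨Ψ', Z', hG', hPΨ'⟩ := h₂ C K' P' hC hCst.nc hP'
  obtain ⟨-, -, hsub, -, -, -⟩ := Pool.Agent.MEY.a_DDO 2 1 _ le_rfl hκ
  obtain ⟨-, -, hsub', -, -, -⟩ := Pool.Agent.MEY.a_DDO 2 1 _ le_rfl hκ'
  have hp : Pt 2 K c (Z v) v := by
    have h := hG.pt v (hsub hv)
    rw [← hPΨ v hv, hvc] at h
    simpa using h
  have hp' : Pt 2 K' c (Z' v') v' := by
    have h := hG'.pt v' (hsub' hv')
    rw [← hPΨ' v' hv', hvc'] at h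
    simpa using h
  have hn : ‖v‖ < 1 := by simpa using hv
  have hn' : ‖v'‖ < 1 := by simpa using hv'
  obtain ⟨j, hj⟩ := h₅ 2 K K' c (Z v) (Z' v') le_rfl hK hK' hp.fix hp'.fix
    (by rw [hp.mul]; exact hn) (by rw [hp'.mul]; exact hn')
  -- the periods agree
  have hex := Pool.Agent.PSat.exa_iter hp.fix hK hp.exa j
  have hfx := Pool.Agent.PSat.fix_iter hp.fix j
  rw [hj] at hex hfx
  have hKK : K = K' :=
    le_antisymm (DSJ_.per_le hex hp'.fix hK') (DSJ_.per_le hp'.exa hfx hK)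
  subst hKK
  -- the multipliers agree
  have hvv : v = v' := by
    have h := Pool.Agent.PSat.rho_iter hp.fix j
    rw [hj, hp.mul, hp'.mul] at h
    exact h.symm
  subst hvv
  have hΨ : Ψ v = Ψ' v := by
    rw [← hPΨ v hv, ← hPΨ' v hv, hvc, hvc']
  have hjj : (F 2 (Ψ v))^[j] (Z v) = Z' v := by
    rw [← hPΨ v hv, hvc]
    exact hj
  have hall := h₄ K _ _ _ Ψ Z Ψ' Z' v j hK hκ (h₃ C K hC hK hCst.nc) hG hG' (hsub hv) hΨ hjj
  intro w hw
  rw [hPΨ w hw, hPΨ' w hw, (hall w (hsub hw)).1]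

end Pool.Agent.AEN
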