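import Pool.Agent.AEN.Targets

/-!
# AEN, EXS: the extension of the parametrization of a component
-/

set_option autoImplicit false

open Complex Filter Topology Set MeasureTheory
open Pool.Agent.Multibrot (MM)
open Pool.Agent.Limb (F)
open Pool.Agent.PLim (Rho LocFix)
open Pool.Agent.MEX (Exa)
open Pool.Agent.MEY (Pt)
open Pool.Agent.PSat (Comp Sat)
open Pool.Agent.MEZ (T_AEL T_NCZ T_SECZ NCZk SECZk Fz)

namespace Pool.Agent.AEN

namespace EXS_

theorem ball_DD (κ : ℝ) : Metric.ball (0 : ℂ) 1 ⊆ Pool.Agent.MEY.DD 2 1 κ := by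
  intro w hw
  rcases eq_or_ne w 0 with h0 | h0
  · exact Or.inl h0
  · refine Or.inr (Or.inl ?_)
    have h1 : ‖w‖ < 1 := by simpa using hw
    have h2 : Real.log ‖w‖ < 0 := Real.log_neg (norm_pos_iff.2 h0) h1
    have h3 : (((2 - 1 : ℕ) : ℂ) * log w).re = Real.log ‖w‖ := by
      simp [log_re]
    rw [h3]
    exact h2

theorem isOpen_strip (a b : ℝ) : IsOpen {m : ℂ | a < m.re ∧ m.re < b} :=
  (isOpen_lt continuous_const continuous_re).inter (isOpen_lt continuous_re continuous_const)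

theorem convex_strip (a b : ℝ) : Convex ℝ {m : ℂ | a < m.re ∧ m.re < b} := by
  have h1 : {m : ℂ | a < m.re ∧ m.re < b} = reLm ⁻¹' Ioo a b := by
    ext m
    simp
  rw [h1]
  exact (convex_Ioo a b).linear_preimage reLm

theorem isOpen_Hp : IsOpen Hp := isOpen_lt continuous_const continuous_re

theorem Rg.mono {k : ℕ} {W W' : Set ℂ} {w : ℂ → ℂ} (h : Rg k W w) (hs : W' ⊆ W) :
    Rg k W' w :=
  ⟨fun m hm => h.ne m (hs hm), fun c z m hm hp => h.pt c z m (hs hm) hp⟩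

end EXS_

open EXS_ in
theorem p_EXS (h₁ : T_MOB) (h₂ : T_RGS) (h₃ : T_SCW) (h₄ : T_SUW)
    (h₅ : Pool.Agent.PSat.T_CST) (h₆ : Pool.Agent.PSat.T_CMG) (h₇ : Pool.Agent.PLim.T_BIG) :
    T_EXS := by
  intro κ hκ hκ1 hNC K P hC
  obtain ⟨C, hC1, hCst⟩ := h₅
  obtain ⟨Ψ, Z', hG, hPΨ⟩ := h₆ C K P hC1 hCst.nc hC
  have hsub := ball_DD (1 / (C * K))
  have hpt : ∀ v ∈ Metric.ball (0 : ℂ) 1, Pt 2 K (P v) (Z' v) v := by
    intro v hv
    have h := hG.pt v (hsub hv)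
    rw [← hPΨ v hv] at h
    simpa using h
  have hMb : ∀ m : ℂ, 0 < m.re → vm m ∈ Metric.ball (0 : ℂ) 1 := by
    intro m hm
    have h := ((h₁.1 m (by linarith)).2.2.2.1).2 hm
    simpa using h
  have hvd : ∀ m : ℂ, -(1 / 2) < m.re → DifferentiableAt ℂ vm m := fun m hm =>
    (h₁.1 m hm).2.2.1
  have hRg := h₂ κ hκ hκ1 hNC K hC.hK
  have hStr : ∀ m ∈ St (κ / 5000), -(1 / 2) < m.re := by
    intro m hm
    have h := hm.1
    linarith
  have hm0 : ((1 / 8 : ℝ) : ℂ).re = 1 / 8 := ofReal_re _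
  have hm0S : ((1 / 8 : ℝ) : ℂ) ∈ St (κ / 5000) := by
    constructor
    · rw [hm0]; linarith
    · rw [hm0]; norm_num
  have hm0p : 0 < ((1 / 8 : ℝ) : ℂ).re := by rw [hm0]; norm_num
  obtain ⟨Q0, Z0, hSn, hQ0, hZ0⟩ := h₃ K (St (κ / 5000)) vm hC.hK (isOpen_strip _ _)
    (convex_strip _ _) (fun m hm => (hvd m (hStr m hm)).differentiableWithinAt) hRg
    (P (vm ((1 / 8 : ℝ) : ℂ))) (Z' (vm ((1 / 8 : ℝ) : ℂ))) ((1 / 8 : ℝ) : ℂ) hm0S
    (hpt _ (hMb _ hm0p))
  -- the common part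
  have hW : ∀ m ∈ {m : ℂ | 0 < m.re ∧ m.re < 1 / 4}, m ∈ St (κ / 5000) := by
    intro m hm
    exact ⟨by linarith [hm.1], hm.2⟩
  have hPd : ∀ v ∈ Metric.ball (0 : ℂ) 1, DifferentiableAt ℂ P v := fun v hv =>
    hC.dP.differentiableAt (Metric.isOpen_ball.mem_nhds hv)
  have hcv : ContinuousOn vm {m : ℂ | 0 < m.re ∧ m.re < 1 / 4} := fun m hm =>
    (hvd m (hStr m (hW m hm))).continuousAt.continuousWithinAt
  have hmaps : MapsTo vm {m : ℂ | 0 < m.re ∧ m.re < 1 / 4} (Metric.ball 0 1) := fun m hm =>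
    hMb m hm.1
  obtain ⟨hEq, -⟩ := h₄ K {m : ℂ | 0 < m.re ∧ m.re < 1 / 4} vm Q0 Z0 (fun m => P (vm m))
    (fun m => Z' (vm m)) ((1 / 8 : ℝ) : ℂ) hC.hK (convex_strip _ _).isPreconnected
    (Rg.mono hRg hW) (hSn.dQ.continuousOn.mono hW) (hSn.dZ.continuousOn.mono hW)
    (hC.dP.continuousOn.comp hcv hmaps) ((hG.dX.continuousOn.mono hsub).comp hcv hmaps)
    (fun m hm => hSn.pt m (hW m hm)) (fun m hm => hpt _ (hMb m hm.1))
    ⟨hm0p, by rw [hm0]; norm_num⟩ hQ0 hZ0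
  refine ⟨fun m => if 0 < m.re then P (vm m) else Q0 m, ?_, ?_, ?_⟩
  · intro m hm
    have hmk : -(κ / 5000) < m.re := hm
    refine DifferentiableAt.differentiableWithinAt ?_
    by_cases h0 : 0 < m.re
    · have h1 : DifferentiableAt ℂ (fun m => P (vm m)) m :=
        (hPd _ (hMb m h0)).comp m (hvd m (by linarith))
      refine h1.congr_of_eventuallyEq ?_
      filter_upwards [isOpen_Hp.mem_nhds (show m ∈ Hp from h0)] with m' hm'
      have h2 : 0 < m'.re := hm'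
      simp only [if_pos h2]
    · have hmS : m ∈ St (κ / 5000) := ⟨hmk, by linarith [not_lt.1 h0]⟩
      have h1 : DifferentiableAt ℂ Q0 m :=
        hSn.dQ.differentiableAt ((isOpen_strip _ _).mem_nhds hmS)
      refine h1.congr_of_eventuallyEq ?_
      filter_upwards [(isOpen_strip _ _).mem_nhds hmS] with m' hm'
      by_cases h2 : 0 < m'.re
      · simp only [if_pos h2]
        exact (hEq ⟨h2, hm'.2⟩).symm
      · simp only [if_neg h2]
  · intro m hm
    have hmk : -(κ / 5000) < m.re := hm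
    by_cases h0 : 0 < m.re
    · simp only [if_pos h0]
      have hv := hMb m h0
      obtain ⟨z, hz⟩ := hC.pt _ hv
      by_contra hcon
      have h1 := h₇ 2 K (P (vm m)) z le_rfl hC.hK (not_le.1 hcon).le hz.fix
      rw [hz.mul] at h1
      have h2 : ‖vm m‖ < 1 := by simpa using hv
      have h3 : (1 : ℝ) ≤ Real.exp 1 := Real.one_le_exp zero_le_one
      linarith
    · simp only [if_neg h0]
      exact hSn.bd m ⟨hmk, by linarith [not_lt.1 h0]⟩
  · intro m hm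
    have h2 : 0 < m.re := hm
    simp only [if_pos h2]

end Pool.Agent.AEN
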