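import Pool.Agent.AEN.Targets2
import Pool.Agent.AEN.P_CNT
import Pool.Agent.PLim.BIG

/-!
# AEN: FIN2, the final statement
-/

set_option autoImplicit false

open Complex Filter Topology Set MeasureTheory
open Pool.Agent.PSat (Comp Sat)
open Pool.Agent.MEZ (T_NCZ T_SECZ)

namespace Pool.Agent.AEN

namespace FIN2_

lemma fin_vol {K : ℕ} {P : ℂ → ℂ} (hC : Comp K P) : volume (P '' Metric.ball 0 1) ≠ ⊤ :=
  ((measure_mono (CNT_.sub Pool.Agent.PLim.p_BIG K P hC)).trans_lt measure_ball_lt_top).ne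

lemma mul_log {b : ℝ} (h0 : 0 < b) (h1 : b ≤ 1) : b * |Real.log b| ≤ 1 := by
  have h2 : Real.log b ≤ 0 := Real.log_nonpos h0.le h1
  rw [abs_of_nonpos h2]
  have h3 := Real.log_le_sub_one_of_pos (inv_pos.2 h0)
  rw [Real.log_inv] at h3
  have h4 : b * (-Real.log b) ≤ b * (b⁻¹ - 1) := mul_le_mul_of_nonneg_left h3 h0.le
  rw [mul_sub, mul_inv_cancel₀ h0.ne'] at h4
  linarith

lemma diam_bd {U S : Set ℂ} {C L : ℝ} (hC : 0 < C) (hL : 0 ≤ L) (hU : volume U ≠ ⊤)
    (h : ∀ b : ℝ, 0 < b → volume U ≤ ENNReal.ofReal (b ^ 4) → ∀ x ∈ S, ∀ y ∈ S,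
      ‖x - y‖ ≤ C * b ^ 2 * (1 + |Real.log b| + L)) :
    Metric.diam S ≤ C * √(volume U).toReal * (1 + |Real.log (volume U).toReal| + L) := by
  have ha : 0 ≤ (volume U).toReal := ENNReal.toReal_nonneg
  have hnn : 0 ≤ C * √(volume U).toReal * (1 + |Real.log (volume U).toReal| + L) := by
    have := abs_nonneg (Real.log (volume U).toReal)
    positivity
  refine Metric.diam_le_of_forall_dist_le hnn fun x hx y hy => ?_
  rw [dist_eq_norm]
  rcases ha.eq_or_lt with h0 | h0
  · refine le_trans ?_ hnn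
    have hv : volume U = 0 := by
      rcases (ENNReal.toReal_eq_zero_iff _).1 h0.symm with h1 | h1
      · exact h1
      · exact absurd h1 hU
    by_contra hcon
    rw [not_le] at hcon
    have hK : 0 < C * (2 + L) := by positivity
    have hb0 : 0 < min 1 (‖x - y‖ / (2 * (C * (2 + L)))) := lt_min one_pos (by positivity)
    have hb1 : min 1 (‖x - y‖ / (2 * (C * (2 + L)))) ≤ 1 := min_le_left _ _
    have hb2 : min 1 (‖x - y‖ / (2 * (C * (2 + L)))) ≤ ‖x - y‖ / (2 * (C * (2 + L))) :=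
      min_le_right _ _
    set b := min 1 (‖x - y‖ / (2 * (C * (2 + L)))) with hb
    have h1 := h b hb0 (by rw [hv]; exact bot_le) x hx y hy
    have h2 := mul_log hb0 hb1
    have h3 : b ^ 2 * (1 + |Real.log b| + L) ≤ b * (2 + L) := by
      have h4 : b ^ 2 * (1 + |Real.log b| + L) = b * (b + b * |Real.log b| + b * L) := by ring
      rw [h4]
      refine mul_le_mul_of_nonneg_left ?_ hb0.le
      nlinarith
    have h5 : ‖x - y‖ ≤ C * (2 + L) * b := by
      calc ‖x - y‖ ≤ C * b ^ 2 * (1 + |Real.log b| + L) := h1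
        _ = C * (b ^ 2 * (1 + |Real.log b| + L)) := by ring
        _ ≤ C * (b * (2 + L)) := mul_le_mul_of_nonneg_left h3 hC.le
        _ = _ := by ring
    have h6 : C * (2 + L) * b ≤ C * (2 + L) * (‖x - y‖ / (2 * (C * (2 + L)))) :=
      mul_le_mul_of_nonneg_left hb2 hK.le
    have h7 : C * (2 + L) * (‖x - y‖ / (2 * (C * (2 + L)))) = ‖x - y‖ / 2 := by
      field_simp
    linarith
  · set a := (volume U).toReal with haa
    have hs0 : 0 < √a := Real.sqrt_pos.2 h0
    have hb0 : 0 < √(√a) := Real.sqrt_pos.2 hs0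
    have hb2 : √(√a) ^ 2 = √a := Real.sq_sqrt hs0.le
    have hb4 : √(√a) ^ 4 = a := by
      have : √(√a) ^ 4 = (√(√a) ^ 2) ^ 2 := by ring
      rw [this, hb2, Real.sq_sqrt h0.le]
    have h1 := h √(√a) hb0 (by
      rw [hb4, haa, ENNReal.ofReal_toReal hU]) x hx y hy
    rw [hb2] at h1
    refine h1.trans (mul_le_mul_of_nonneg_left ?_ (by positivity))
    have h2 : Real.log √(√a) = Real.log a / 4 := by
      rw [Real.log_sqrt hs0.le, Real.log_sqrt h0.le]
      ring
    rw [h2, abs_div, abs_of_pos (by norm_num : (0 : ℝ) < 4)]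
    have := abs_nonneg (Real.log a)
    linarith

lemma count {Fa : Set (Set ℂ)} {η K : ℝ} (hη : 0 < η) (hK : 0 ≤ K)
    (h1 : ∀ s : Finset (Set ℂ), (∀ U ∈ s, U ∈ Fa) → ∑ U ∈ s, (volume U).toReal ≤ 1000)
    (h2 : ∀ U ∈ Fa, η ≤ K * (volume U).toReal) :
    Fa.Finite ∧ (Fa.ncard : ℝ) ≤ 1000 * K / η := by
  have h3 : ∀ s : Finset (Set ℂ), (∀ U ∈ s, U ∈ Fa) → (s.card : ℝ) * η ≤ 1000 * K := by
    intro s hs
    have h4 : ∑ U ∈ s, η ≤ ∑ U ∈ s, K * (volume U).toReal :=
      Finset.sum_le_sum fun U hU => h2 U (hs U hU)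
    rw [Finset.sum_const, nsmul_eq_mul, ← Finset.mul_sum] at h4
    have h5 := mul_le_mul_of_nonneg_left (h1 s hs) hK
    linarith
  have hfin : Fa.Finite := by
    by_contra hinf
    obtain ⟨N, hN⟩ := exists_nat_gt (1000 * K / η)
    obtain ⟨t, ht, hc⟩ := Set.Infinite.exists_subset_card_eq hinf N
    have h4 := h3 t fun U hU => ht hU
    rw [hc] at h4
    rw [div_lt_iff₀ hη] at hN
    linarith
  refine ⟨hfin, ?_⟩
  have h4 := h3 hfin.toFinset fun U hU => hfin.mem_toFinset.1 hU
  rw [← Set.ncard_eq_toFinset_card Fa hfin] at h4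
  rwa [le_div_iff₀ hη]

lemma pos_a {D C a X : ℝ} (hD : 0 < D) (h : D ≤ C * √a * X) : 0 < a := by
  by_contra hcon
  rw [Real.sqrt_eq_zero_of_nonpos (not_lt.1 hcon), mul_zero, zero_mul] at h
  linarith

end FIN2_

open FIN2_ in
theorem p_FIN2 (h₁ : T_FNS2) (h₂ : T_FNA2) (h₃ : T_CNT) (h₄ : T_LGI) : T_FIN2 := by
  intro hN hS
  obtain ⟨Cs, hCs, hs⟩ := h₁ hN hS
  obtain ⟨Ca, hCa, ha⟩ := h₂ hN
  have hC1 : 1 ≤ max (max Cs Ca) 1 := le_max_right _ _
  have hsC : Cs ≤ max (max Cs Ca) 1 := (le_max_left _ _).trans (le_max_left _ _)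
  have haC : Ca ≤ max (max Cs Ca) 1 := (le_max_right _ _).trans (le_max_left _ _)
  set C1 := max (max Cs Ca) 1 with hC1d
  obtain ⟨C', hC', hLG⟩ := h₄ C1 hC1
  have a1000 : ∀ (K : ℕ) (P : ℂ → ℂ), Comp K P →
      (volume (P '' Metric.ball 0 1)).toReal ≤ 1000 := by
    intro K P hc
    have := h₃ {P '' Metric.ball 0 1} (by
      intro U hU
      rw [Finset.mem_singleton] at hU
      exact ⟨K, P, hc, hU⟩)
    rwa [Finset.sum_singleton] at this
  have b1 : ∀ U : Set ℂ, IsSat U → Metric.diam U ≤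
      C1 * √(volume U).toReal * (1 + |Real.log (volume U).toReal|) := by
    rintro U ⟨K, P, hc, hsat, rfl⟩
    have h5 := diam_bd (U := P '' Metric.ball 0 1) (S := P '' Metric.ball 0 1) (C := Cs)
      (L := 0) hCs le_rfl (fin_vol hc) (by
        rintro b hb hv _ ⟨v, hv1, rfl⟩ _ ⟨v', hv2, rfl⟩
        rw [add_zero]
        exact hs K P b hc hsat hb hv v hv1 v' hv2)
    rw [add_zero] at h5
    refine h5.trans ?_
    have := abs_nonneg (Real.log (volume (P '' Metric.ball 0 1)).toReal)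
    gcongr
  have b4 : ∀ (K : ℕ) (P : ℂ → ℂ) (d : ℝ), Comp K P → 0 < d → d ≤ 1 →
      Metric.diam (P '' {v : ℂ | ‖v‖ < 1 ∧ d ≤ ‖v - 1‖}) ≤
      C1 * √(volume (P '' Metric.ball 0 1)).toReal *
        (1 + |Real.log (volume (P '' Metric.ball 0 1)).toReal| + Real.log (1 / d)) := by
    intro K P d hc hd hd1
    have hL : 0 ≤ Real.log (1 / d) := Real.log_nonneg (by rw [le_div_iff₀ hd]; linarith)
    have h5 := diam_bd (U := P '' Metric.ball 0 1)
      (S := P '' {v : ℂ | ‖v‖ < 1 ∧ d ≤ ‖v - 1‖}) (C := Ca) (L := Real.log (1 / d)) hCa hL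
      (fin_vol hc) (by
        rintro b hb hv _ ⟨v, hv1, rfl⟩ _ ⟨v', hv2, rfl⟩
        exact ha K P b d hc hb hv hd hd1 v v' hv1.1 hv1.2 hv2.1 hv2.2)
    refine h5.trans ?_
    have := abs_nonneg (Real.log (volume (P '' Metric.ball 0 1)).toReal)
    gcongr
  have hCC : C1 ≤ max C1 (1000 * C') := le_max_left _ _
  have hCC' : 1000 * C' ≤ max C1 (1000 * C') := le_max_right _ _
  have hC0 : 0 < max C1 (1000 * C') := lt_of_lt_of_le (by linarith) hCC
  refine ⟨max C1 (1000 * C'), hC0, ?_, ?_, ?_, ?_, ?_⟩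
  · intro U hU
    refine (b1 U hU).trans ?_
    have := abs_nonneg (Real.log (volume U).toReal)
    gcongr
  · intro s hsat
    have h5 : ∑ U ∈ s, (Metric.diam U / (1 + |Real.log (Metric.diam U)|)) ^ 2 ≤
        ∑ U ∈ s, C' * (volume U).toReal := by
      refine Finset.sum_le_sum fun U hU => ?_
      have h6 := b1 U (hsat U hU)
      have h9 : 0 ≤ (volume U).toReal := ENNReal.toReal_nonneg
      rcases (Metric.diam_nonneg (s := U)).eq_or_lt with h0 | h0
      · rw [← h0, zero_div]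
        have : 0 ≤ C' * (volume U).toReal := by positivity
        simpa using this
      · have h7 : (volume U).toReal ≤ 1000 := by
          obtain ⟨K, P, hc, -, rfl⟩ := hsat U hU
          exact a1000 K P hc
        have h8 := hLG (Metric.diam U) (volume U).toReal h0 (pos_a h0 h6) h7 h6
        have h10 : 0 < 1 + |Real.log (Metric.diam U)| := by
          have := abs_nonneg (Real.log (Metric.diam U))
          linarith
        rw [div_pow, div_le_iff₀ (pow_pos h10 2)]
        exact h8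
    refine h5.trans ?_
    rw [← Finset.mul_sum]
    have h6 := h₃ s fun U hU => by
      obtain ⟨K, P, hc, -, hU'⟩ := hsat U hU
      exact ⟨K, P, hc, hU'⟩
    have h7 := mul_le_mul_of_nonneg_left h6 (by linarith : 0 ≤ C')
    linarith
  · intro ε hε
    have hX : 0 ≤ 1 + |Real.log ε| := by
      have := abs_nonneg (Real.log ε)
      linarith
    obtain ⟨h5, h6⟩ := count (Fa := {U : Set ℂ | IsSat U ∧ ε ≤ Metric.diam U}) (η := ε ^ 2)
      (K := C' * (1 + |Real.log ε|) ^ 2) (by positivity) (by positivity) (by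
        intro s hs'
        refine h₃ s fun U hU => ?_
        obtain ⟨K, P, hc, -, hU'⟩ := (hs' U hU).1
        exact ⟨K, P, hc, hU'⟩) (by
        rintro U ⟨hU, hεU⟩
        have h7 := hεU.trans (b1 U hU)
        have h8 : (volume U).toReal ≤ 1000 := by
          obtain ⟨K, P, hc, -, rfl⟩ := hU
          exact a1000 K P hc
        have h9 := hLG ε (volume U).toReal hε (pos_a hε h7) h8 h7
        linarith)
    refine ⟨h5, h6.trans ?_⟩
    have h7 : 1000 * (C' * (1 + |Real.log ε|) ^ 2) / ε ^ 2 =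
        (1000 * C') * (1 + |Real.log ε|) ^ 2 / ε ^ 2 := by ring
    rw [h7]
    gcongr
  · intro K P d hc hd hd1
    refine (b4 K P d hc hd hd1).trans ?_
    have hL : 0 ≤ Real.log (1 / d) := Real.log_nonneg (by rw [le_div_iff₀ hd]; linarith)
    have := abs_nonneg (Real.log (volume (P '' Metric.ball 0 1)).toReal)
    gcongr
  · intro d ε hd hd1 hε
    have hL : 0 ≤ Real.log (1 / d) := Real.log_nonneg (by rw [le_div_iff₀ hd]; linarith)
    set L := Real.log (1 / d) with hLd
    have hX0 := abs_nonneg (Real.log ε)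
    have hX : 0 ≤ 1 + |Real.log ε| + L := by linarith
    have hL1 : 0 < 1 + L := by linarith
    obtain ⟨h5, h6⟩ := count (Fa := {U : Set ℂ | ∃ (K : ℕ) (P : ℂ → ℂ), Comp K P ∧
      U = P '' Metric.ball 0 1 ∧ ε ≤ Metric.diam (P '' {v : ℂ | ‖v‖ < 1 ∧ d ≤ ‖v - 1‖})})
      (η := ε ^ 2) (K := C' * (1 + L) ^ 2 * (1 + |Real.log ε| + L) ^ 2) (by positivity)
      (by positivity) (by
        intro s hs'
        refine h₃ s fun U hU => ?_
        obtain ⟨K, P, hc, hU', -⟩ := hs' U hU
        exact ⟨K, P, hc, hU'⟩) (by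
        rintro U ⟨K, P, hc, rfl, hεU⟩
        have h7 := hεU.trans (b4 K P d hc hd hd1)
        have h8 := pos_a hε h7
        set a := (volume (P '' Metric.ball 0 1)).toReal with haa
        have hla := abs_nonneg (Real.log a)
        have h9 : ε / (1 + L) ≤ C1 * √a * (1 + |Real.log a|) := by
          rw [div_le_iff₀ hL1]
          refine h7.trans ?_
          have h10 : 0 ≤ C1 * √a := by positivity
          have h11 : 1 + |Real.log a| + L ≤ (1 + |Real.log a|) * (1 + L) := by nlinarith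
          calc C1 * √a * (1 + |Real.log a| + L) ≤ C1 * √a * ((1 + |Real.log a|) * (1 + L)) :=
                mul_le_mul_of_nonneg_left h11 h10
            _ = _ := by ring
        have h12 := hLG (ε / (1 + L)) a (by positivity) h8 (a1000 K P hc) h9
        have h13 : |Real.log (ε / (1 + L))| ≤ |Real.log ε| + L := by
          rw [Real.log_div hε.ne' hL1.ne']
          have h14 : 0 ≤ Real.log (1 + L) := Real.log_nonneg (by linarith)
          have h15 : Real.log (1 + L) ≤ L := by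
            have := Real.log_le_sub_one_of_pos hL1
            linarith
          have h16 := abs_sub (Real.log ε) (Real.log (1 + L))
          rw [abs_of_nonneg h14] at h16
          linarith
        have h17 : (1 + |Real.log (ε / (1 + L))|) ^ 2 ≤ (1 + |Real.log ε| + L) ^ 2 := by
          have := abs_nonneg (Real.log (ε / (1 + L)))
          exact pow_le_pow_left₀ (by linarith) (by linarith) 2
        have h18 : (ε / (1 + L)) ^ 2 ≤ C' * a * (1 + |Real.log ε| + L) ^ 2 :=
          h12.trans (mul_le_mul_of_nonneg_left h17 (by positivity))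
        rw [div_pow, div_le_iff₀ (by positivity)] at h18
        linarith)
    refine ⟨h5, h6.trans ?_⟩
    have h7 : 1000 * (C' * (1 + L) ^ 2 * (1 + |Real.log ε| + L) ^ 2) / ε ^ 2 =
        (1000 * C') * (1 + L) ^ 2 * (1 + |Real.log ε| + L) ^ 2 / ε ^ 2 := by ring
    rw [h7]
    gcongr

end Pool.Agent.AEN
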