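import Pool.Agent.AEN.Targets2

/-!
# AEN: all components, away from the root, second version (FNA2)
-/

set_option autoImplicit false

open Complex Filter Topology Set MeasureTheory
open Pool.Agent.Multibrot (MM)
open Pool.Agent.Limb (F)
open Pool.Agent.PLim (Rho LocFix)
open Pool.Agent.MEX (Exa)
open Pool.Agent.MEY (Pt)
open Pool.Agent.PSat (Comp Sat)
open Pool.Agent.MEZ (T_AEL T_NCZ T_SECZ NCZk SECZk Fz)

namespace Pool.Agent.AEN

namespace FNA2_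

lemma ncz_mono {κ κ' : ℝ} (h : κ' ≤ κ) (hN : NCZk κ) : NCZk κ' := by
  intro n k c0 z0 μ δ ε r zf hn hk hL hE hR hδ hF hμ
  have h1 : κ' * δ ^ 2 ≤ κ * δ ^ 2 := mul_le_mul_of_nonneg_right h (sq_nonneg δ)
  exact hN n k c0 z0 μ δ ε r zf hn hk hL hE hR hδ hF (lt_of_lt_of_le hμ h1)

lemma isOpen_Hk (κ : ℝ) : IsOpen (Hk κ) := isOpen_lt continuous_const Complex.continuous_re

/-- The coordinate of a point away from `1`. -/
lemma coord (h₁ : T_MOB) {v : ℂ} {d : ℝ} (hd : 0 < d) (hv : ‖v‖ < 1) (hvd : d ≤ ‖v - 1‖) :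
    ∃ m : ℂ, 0 < m.re ∧ vm m = v ∧ m.re ≤ 1 / d ∧ |m.im| ≤ 1 / d := by
  obtain ⟨m, hm, hvm, he⟩ := h₁.2.2.1 v hv
  have hn : ‖2 * m + 1‖ ≤ 2 / d := by
    rw [he, norm_div, norm_sub_rev, Complex.norm_ofNat]
    exact div_le_div_of_nonneg_left (by norm_num) hd hvd
  have h2d : 2 / d = 2 * (1 / d) := by ring
  refine ⟨m, hm, hvm, ?_, ?_⟩
  · have h1 : (2 * m + 1).re ≤ 2 / d := (Complex.re_le_norm _).trans hn
    have h2 : (2 * m + 1).re = 2 * m.re + 1 := by simp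
    rw [h2, h2d] at h1
    linarith
  · have h1 : |(2 * m + 1).im| ≤ 2 / d := (Complex.abs_im_le_norm _).trans hn
    have h2 : (2 * m + 1).im = 2 * m.im := by simp
    rw [h2, abs_mul, abs_two, h2d] at h1
    linarith

/-- The vertical segment. -/
lemma vert {κ b : ℝ} {Q : ℂ → ℂ} (hU : Uv κ b Q)
    (hD : ∀ m : ℂ, 0 < m.re → ‖deriv Q m‖ ≤ b ^ 2 / m.re) {M Y Y' : ℝ} (hM : 0 < M) :
    ‖Q (M + Y * I) - Q (M + Y' * I)‖ ≤ b ^ 2 / M * |Y - Y'| := by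
  have hre : ∀ t : ℝ, ((M : ℂ) + t * I).re = M := by
    intro t
    simp
  have hc : Convex ℝ {z : ℂ | z.re = M} := by
    intro x hx y hy a c _ _ hac
    have hx' : x.re = M := hx
    have hy' : y.re = M := hy
    change (a • x + c • y).re = M
    rw [Complex.add_re, Complex.real_smul, Complex.real_smul, Complex.re_ofReal_mul,
      Complex.re_ofReal_mul, hx', hy', ← add_mul, hac, one_mul]
  have h1 := Convex.norm_image_sub_le_of_norm_deriv_le (𝕜 := ℂ) (f := Q) (C := b ^ 2 / M)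
    (s := {z : ℂ | z.re = M}) (x := (M : ℂ) + Y' * I) (y := (M : ℂ) + Y * I) ?_ ?_ hc
    (hre Y') (hre Y)
  · have h2 : ‖((M : ℂ) + Y * I) - ((M : ℂ) + Y' * I)‖ = |Y - Y'| := by
      have h3 : ((M : ℂ) + Y * I) - ((M : ℂ) + Y' * I) = ((Y - Y' : ℝ) : ℂ) * I := by
        push_cast
        ring
      rw [h3, norm_mul, Complex.norm_I, mul_one, Complex.norm_real, Real.norm_eq_abs]
    rw [h2] at h1
    exact h1
  · intro x hx
    have hx' : x.re = M := hx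
    have hxk : x ∈ Hk κ := by
      change -κ < x.re
      rw [hx']
      linarith [hU.hκ]
    exact (hU.dQ x hxk).differentiableAt ((isOpen_Hk κ).mem_nhds hxk)
  · intro x hx
    have hx' : x.re = M := hx
    have h3 := hD x (by rw [hx']; exact hM)
    rwa [hx'] at h3

end FNA2_

/-- All components, away from the root. -/
theorem p_FNA2 (h₁ : T_MOB) (h₂ : T_EXS) (h₃ : T_UVP) (h₄ : T_NBD2) (h₅ : T_CHN2) :
    T_FNA2 := by
  rintro ⟨κ0, hκ0, hN0⟩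
  obtain ⟨κ, hκ, hκ1, hN⟩ : ∃ κ : ℝ, 0 < κ ∧ κ ≤ 1 ∧ NCZk κ :=
    ⟨min κ0 1, lt_min hκ0 one_pos, min_le_right _ _, FNA2_.ncz_mono (min_le_left _ _) hN0⟩
  obtain ⟨κ1, hκ1d⟩ : ∃ κ1 : ℝ, κ1 = κ / 5000 := ⟨_, rfl⟩
  have hκ1p : 0 < κ1 := by rw [hκ1d]; positivity
  have hκ1l : κ1 ≤ 1 := by rw [hκ1d]; linarith
  have hC0 : 0 < 22 / κ1 := by positivity
  refine ⟨22 / κ1 + 32, by linarith, ?_⟩
  intro K P b d hP hb hvol hd hd1 v v' hv hvd hv' hvd'
  obtain ⟨Q, hQ⟩ := h₂ κ hκ hκ1 hN K P hP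
  rw [← hκ1d] at hQ
  have hU : Uv κ1 b Q := h₃ κ1 b K P Q hκ1p hκ1l hb hP hQ hvol
  obtain ⟨m, hm, hmv, hmr, hmi⟩ := FNA2_.coord h₁ hd hv hvd
  obtain ⟨m', hm', hmv', hmr', hmi'⟩ := FNA2_.coord h₁ hd hv' hvd'
  have hPv : P v = Q m := by
    rw [← hmv]
    exact (hQ.eq m hm).symm
  have hPv' : P v' = Q m' := by
    rw [← hmv']
    exact (hQ.eq m' hm').symm
  rw [hPv, hPv']
  obtain ⟨ℓ, hℓ⟩ : ∃ ℓ : ℝ, ℓ = Real.log (1 / d) := ⟨_, rfl⟩
  have hd1' : 1 ≤ 1 / d := by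
    rw [le_div_iff₀ hd]
    linarith
  have hℓp : 0 ≤ ℓ := by
    rw [hℓ]
    exact Real.log_nonneg hd1'
  rw [← hℓ]
  by_cases hb1 : 1 ≤ b
  · have h6 : ‖Q m‖ ≤ 16 := hQ.bd m (by
      change -κ1 < m.re
      linarith)
    have h7 : ‖Q m'‖ ≤ 16 := hQ.bd m' (by
      change -κ1 < m'.re
      linarith)
    have h8 : ‖Q m - Q m'‖ ≤ 32 := (norm_sub_le _ _).trans (by linarith)
    have h9 : 1 ≤ b ^ 2 := one_le_pow₀ hb1
    have h10 : 1 ≤ 1 + |Real.log b| + ℓ := by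
      have := abs_nonneg (Real.log b)
      linarith
    have h11 : (22 / κ1 + 32) * 1 ≤ (22 / κ1 + 32) * b ^ 2 :=
      mul_le_mul_of_nonneg_left h9 (by linarith)
    have h12 : (22 / κ1 + 32) * b ^ 2 * 1 ≤ (22 / κ1 + 32) * b ^ 2 * (1 + |Real.log b| + ℓ) :=
      mul_le_mul_of_nonneg_left h10 (by linarith)
    linarith
  · have hb1' : b < 1 := lt_of_not_ge hb1
    obtain ⟨lam, hlam⟩ : ∃ lam : ℝ, lam = Real.log (1 / b) := ⟨_, rfl⟩
    have hlam' : |Real.log b| = lam := by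
      rw [hlam, one_div, Real.log_inv, abs_of_nonpos (Real.log_nonpos hb.le hb1'.le)]
    have hlamp : 0 ≤ lam := by
      rw [← hlam']
      exact abs_nonneg _
    rw [hlam']
    obtain ⟨M, hM⟩ : ∃ M : ℝ, M = 2 / d := ⟨_, rfl⟩
    have hMp : 0 < M := by rw [hM]; positivity
    have hM3 : M = 1 / d + 1 / d := by
      rw [hM]
      ring
    have hM1 : 1 / d ≤ M := by linarith
    have hM2 : 1 ≤ M := by linarith
    have hlog : Real.log M = Real.log 2 + ℓ := by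
      rw [hℓ, ← Real.log_mul (by norm_num) (by positivity), hM]
      congr 1
      ring
    have hlog2 : Real.log 2 ≤ 1 := by
      have := Real.log_two_lt_d9
      linarith
    have hA : ∀ x : ℂ, 0 < x.re → x.re ≤ 1 / d →
        ‖Q x - Q (M + x.im * I)‖ ≤ 11 * b ^ 2 * (1 + lam) / κ1 + b ^ 2 * (1 + ℓ) := by
      intro x hx hxd
      have h6 := h₅ κ1 b Q hU hb1'.le x.im x.re M hx (hxd.trans hM1) hM2
      rw [Complex.re_add_im, hlog, ← hlam] at h6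
      have h7 : b ^ 2 * (Real.log 2 + ℓ) ≤ b ^ 2 * (1 + ℓ) :=
        mul_le_mul_of_nonneg_left (by linarith) (sq_nonneg b)
      linarith
    have hB : ‖Q (M + m.im * I) - Q (M + m'.im * I)‖ ≤ b ^ 2 := by
      have h6 := FNA2_.vert hU (h₄ κ1 b Q hU).1 (Y := m.im) (Y' := m'.im) hMp
      have h7 : |m.im - m'.im| ≤ M := by
        have h8 : |m.im - m'.im| ≤ |m.im| + |m'.im| := abs_sub _ _
        linarith
      have h8 : b ^ 2 / M * |m.im - m'.im| ≤ b ^ 2 / M * M :=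
        mul_le_mul_of_nonneg_left h7 (by positivity)
      rw [div_mul_cancel₀ _ hMp.ne'] at h8
      linarith
    have h6 := hA m hm hmr
    have h7 := hA m' hm' hmr'
    rw [norm_sub_rev] at h7
    have h8 : ‖Q m - Q m'‖ ≤ ‖Q m - Q (M + m.im * I)‖ +
        ‖Q (M + m.im * I) - Q (M + m'.im * I)‖ + ‖Q (M + m'.im * I) - Q m'‖ := by
      have h9 : Q m - Q m' = (Q m - Q (M + m.im * I)) +
        (Q (M + m.im * I) - Q (M + m'.im * I)) + (Q (M + m'.im * I) - Q m') := by ring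
      rw [h9]
      exact norm_add₃_le
    have h9 : ‖Q m - Q m'‖ ≤ b ^ 2 * (22 / κ1 * (1 + lam) + (3 + 2 * ℓ)) := by
      have h10 : b ^ 2 * (22 / κ1 * (1 + lam) + (3 + 2 * ℓ)) =
        (11 * b ^ 2 * (1 + lam) / κ1 + b ^ 2 * (1 + ℓ)) + b ^ 2 +
        (11 * b ^ 2 * (1 + lam) / κ1 + b ^ 2 * (1 + ℓ)) := by ring
      linarith
    have h10 : 22 / κ1 * (1 + lam) ≤ 22 / κ1 * (1 + lam + ℓ) :=
      mul_le_mul_of_nonneg_left (by linarith) hC0.le
    have h11 : b ^ 2 * (22 / κ1 * (1 + lam) + (3 + 2 * ℓ)) ≤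
        b ^ 2 * (22 / κ1 * (1 + lam + ℓ) + 32 * (1 + lam + ℓ)) :=
      mul_le_mul_of_nonneg_left (by linarith) (sq_nonneg b)
    have h12 : b ^ 2 * (22 / κ1 * (1 + lam + ℓ) + 32 * (1 + lam + ℓ)) =
        (22 / κ1 + 32) * b ^ 2 * (1 + lam + ℓ) := by ring
    linarith

end Pool.Agent.AEN
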