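import Pool.Agent.AEN.Targets
import Pool.Agent.PSat.Basic

/-!
# AEN, job INP: the parametrization of a component is injective
-/

set_option autoImplicit false

open Complex Filter Topology Set MeasureTheory
open Pool.Agent.Multibrot (MM)
open Pool.Agent.Limb (F)
open Pool.Agent.PLim (Rho LocFix)
open Pool.Agent.MEX (Exa)
open Pool.Agent.MEY (Pt)
open Pool.Agent.PSat (Comp Sat)
open Pool.Agent.MEZ (T_AEL T_NCZ T_SECZ NCZk SECZk Fz)

namespace Pool.Agent.AEN

theorem p_INP (h : Pool.Agent.PLim.T_ATU) : T_INP := by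
  intro K P hP v hv v' hv' e
  obtain ⟨z, hz⟩ := hP.pt v hv
  obtain ⟨z', hz'⟩ := hP.pt v' hv'
  rw [← e] at hz'
  have hv1 : ‖v‖ < 1 := mem_ball_zero_iff.1 hv
  have hv1' : ‖v'‖ < 1 := mem_ball_zero_iff.1 hv'
  obtain ⟨j, hj⟩ := h 2 K K (P v) z z' le_rfl hP.hK hP.hK hz.fix hz'.fix
    (by rw [hz.mul]; exact hv1) (by rw [hz'.mul]; exact hv1')
  have h1 := Pool.Agent.PSat.rho_iter hz.fix j
  rw [hj, hz.mul, hz'.mul] at h1
  exact h1.symm

end Pool.Agent.AEN
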