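import Pool.Agent.AEN.Targets

/-!
# AEN, JUL: the Julia lemma for the right half plane
-/

set_option autoImplicit false

open Complex Filter Topology Set MeasureTheory
open Pool.Agent.Multibrot (MM)
open Pool.Agent.Limb (F)
open Pool.Agent.PLim (Rho LocFix)
open Pool.Agent.MEX (Exa)
open Pool.Agent.MEY (Pt)
open Pool.Agent.PSat (Comp Sat)
open Pool.Agent.MEZ (T_AEL T_NCZ T_SECZ NCZk SECZk Fz)

namespace Pool.Agent.AEN

namespace JUL_

/-- the basic identity -/
theorem idn (a b : ℂ) : ‖a - b‖ ^ 2 = ‖a + (starRingEnd ℂ) b‖ ^ 2 - 4 * (a.re * b.re) := by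
  rw [← Complex.normSq_eq_norm_sq, ← Complex.normSq_eq_norm_sq, Complex.normSq_apply,
    Complex.normSq_apply]
  simp only [Complex.sub_re, Complex.sub_im, Complex.add_re, Complex.add_im, Complex.conj_re,
    Complex.conj_im]
  ring

theorem add_ne {a b : ℂ} (ha : 0 < a.re) (hb : 0 < b.re) : a + (starRingEnd ℂ) b ≠ 0 := by
  intro h
  have := congrArg Complex.re h
  simp only [Complex.add_re, Complex.conj_re, Complex.zero_re] at this
  linarith

theorem quot_lt {a b : ℂ} (ha : 0 < a.re) (hb : 0 < b.re) :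
    ‖(a - b) / (a + (starRingEnd ℂ) b)‖ < 1 := by
  rw [norm_div, div_lt_one (norm_pos_iff.2 (add_ne ha hb))]
  have h := idn a b
  have h1 : 0 < a.re * b.re := mul_pos ha hb
  nlinarith [norm_nonneg (a - b), norm_nonneg (a + (starRingEnd ℂ) b)]

/-- the map of the disc to the half plane -/
noncomputable def phi (r : ℝ) (w : ℂ) : ℂ := r * ((1 + w) / (1 - w))

theorem one_sub_ne {w : ℂ} (hw : w ∈ Metric.ball (0 : ℂ) 1) : (1 : ℂ) - w ≠ 0 := by
  intro h
  have h1 : w = 1 := (sub_eq_zero.1 h).symm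
  rw [h1] at hw
  simp at hw

theorem phi_mem {r : ℝ} (hr : 0 < r) {w : ℂ} (hw : w ∈ Metric.ball (0 : ℂ) 1) :
    phi r w ∈ Hp := by
  have h0 := one_sub_ne hw
  change 0 < (phi r w).re
  have h1 : ‖w‖ < 1 := by simpa using hw
  have h2 : 0 < Complex.normSq (1 - w) := Complex.normSq_pos.2 h0
  have h3 : Complex.normSq w < 1 := by
    rw [Complex.normSq_eq_norm_sq]
    nlinarith [norm_nonneg w]
  have h4 : ((1 + w) / (1 - w)).re = (1 - Complex.normSq w) / Complex.normSq (1 - w) := by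
    rw [Complex.div_re, ← add_div]
    congr 1
    simp only [Complex.add_re, Complex.add_im, Complex.sub_re, Complex.sub_im, Complex.one_re,
      Complex.one_im, Complex.normSq_apply]
    ring
  unfold phi
  rw [Complex.re_ofReal_mul, h4]
  exact mul_pos hr (div_pos (by linarith) h2)

theorem phi_diff (r : ℝ) : DifferentiableOn ℂ (phi r) (Metric.ball (0 : ℂ) 1) := by
  intro w hw
  have h0 := one_sub_ne hw
  unfold phi
  apply DifferentiableAt.differentiableWithinAt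
  exact (((differentiableAt_const _).add differentiableAt_id).div
    ((differentiableAt_const _).sub differentiableAt_id) h0).const_mul _

theorem phi_zero (r : ℝ) : phi r 0 = r := by
  unfold phi
  simp

theorem phi_inv {r : ℝ} (hr : 0 < r) {m : ℂ} (hm : 0 < m.re) :
    phi r ((m - r) / (m + r)) = m := by
  have h1 : m + (r : ℂ) ≠ 0 := by
    intro h
    have := congrArg Complex.re h
    simp only [Complex.add_re, Complex.ofReal_re, Complex.zero_re] at this
    linarith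
  have hr' : (r : ℂ) ≠ 0 := by exact_mod_cast hr.ne'
  have h2 : (1 : ℂ) - (m - r) / (m + r) = 2 * r / (m + r) := by
    field_simp
    ring
  have h3 : (1 : ℂ) + (m - r) / (m + r) = 2 * m / (m + r) := by
    field_simp
    ring
  unfold phi
  rw [h2, h3]
  field_simp

theorem schwarz {X : ℂ → ℂ} (hX : DifferentiableOn ℂ X Hp) (hp : ∀ m ∈ Hp, 0 < (X m).re)
    {m : ℂ} (hm : m ∈ Hp) {r : ℝ} (hr : 0 < r) :
    m.re * r * ‖X m + (starRingEnd ℂ) (X r)‖ ^ 2 ≤ (X m).re * (X r).re * ‖m + r‖ ^ 2 := by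
  have hm' : 0 < m.re := hm
  have hrr : (r : ℂ) ∈ Hp := by
    change 0 < ((r : ℂ)).re
    simpa using hr
  have hb : 0 < (X (r : ℂ)).re := hp _ hrr
  have ha : 0 < (X m).re := hp _ hm
  let f : ℂ → ℂ := fun w => (X (phi r w) - X r) / (X (phi r w) + (starRingEnd ℂ) (X r))
  have hc : DifferentiableOn ℂ (fun w => X (phi r w)) (Metric.ball (0 : ℂ) 1) :=
    hX.comp (phi_diff r) fun w hw => phi_mem hr hw
  have hf : DifferentiableOn ℂ f (Metric.ball (0 : ℂ) 1) := by
    refine (hc.sub_const _).div (hc.add_const _) fun w hw => ?_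
    exact add_ne (hp _ (phi_mem hr hw)) hb
  have hmaps : MapsTo f (Metric.ball (0 : ℂ) 1) (Metric.closedBall (0 : ℂ) 1) := by
    intro w hw
    rw [mem_closedBall_zero_iff]
    exact (quot_lt (hp _ (phi_mem hr hw)) hb).le
  have hf0 : f 0 = 0 := by
    change (X (phi r 0) - X r) / (X (phi r 0) + (starRingEnd ℂ) (X r)) = 0
    rw [phi_zero, sub_self, zero_div]
  have hconj : (starRingEnd ℂ) (r : ℂ) = r := Complex.conj_ofReal r
  have hrre : 0 < ((r : ℂ)).re := by simpa using hr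
  have hw : ‖(m - r) / (m + r)‖ < 1 := by
    have := quot_lt hm' hrre
    rwa [hconj] at this
  have h1 := Complex.norm_le_norm_of_mapsTo_ball hf hmaps hf0 hw
  have h2 : f ((m - r) / (m + r)) = (X m - X r) / (X m + (starRingEnd ℂ) (X r)) := by
    change (X (phi r _) - X r) / (X (phi r _) + (starRingEnd ℂ) (X r)) = _
    rw [phi_inv hr hm']
  rw [h2, norm_div, norm_div] at h1
  have h3 : 0 < ‖X m + (starRingEnd ℂ) (X r)‖ := norm_pos_iff.2 (add_ne ha hb)
  have h4 : 0 < ‖m + (r : ℂ)‖ := by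
    have := add_ne hm' hrre
    rw [hconj] at this
    exact norm_pos_iff.2 this
  rw [div_le_div_iff₀ h3 h4] at h1
  have h5 := idn (X m) (X r)
  have h6 := idn m r
  rw [hconj] at h6
  have h7 : (‖X m - X r‖ * ‖m + r‖) ^ 2 ≤ (‖m - r‖ * ‖X m + (starRingEnd ℂ) (X r)‖) ^ 2 :=
    pow_le_pow_left₀ (by positivity) h1 2
  rw [mul_pow, mul_pow, h5, h6] at h7
  simp only [Complex.ofReal_re] at h7
  nlinarith [h7]

end JUL_

open JUL_

theorem p_JUL : T_JUL := by
  intro X hX hp hlim m hm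
  have hm' : 0 < m.re := hm
  have hinv : Tendsto (fun r : ℝ => ((r⁻¹ : ℝ) : ℂ)) atTop (𝓝 0) := by
    have := (Complex.continuous_ofReal.tendsto 0).comp tendsto_inv_atTop_zero
    simpa [Function.comp_def] using this
  have l1 : Tendsto (fun r : ℝ => (X (r : ℂ) / (r : ℂ)).re) atTop (𝓝 1) := by
    have := (Complex.continuous_re.tendsto (1 : ℂ)).comp hlim
    simpa [Function.comp_def] using this
  have l2 : Tendsto (fun r : ℝ => ‖m * ((r⁻¹ : ℝ) : ℂ) + 1‖ ^ 2) atTop (𝓝 1) := by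
    have := ((tendsto_const_nhds (x := m)).mul hinv).add_const (1 : ℂ)
    have h2 := this.norm.pow 2
    simpa using h2
  have l3 : Tendsto (fun r : ℝ => ‖X m * ((r⁻¹ : ℝ) : ℂ) +
      (starRingEnd ℂ) (X (r : ℂ) / (r : ℂ))‖ ^ 2) atTop (𝓝 1) := by
    have h1 := (Complex.continuous_conj.tendsto (1 : ℂ)).comp hlim
    have h2 := ((tendsto_const_nhds (x := X m)).mul hinv).add h1
    have h3 := h2.norm.pow 2
    simpa [Function.comp_def] using h3
  have l4 : Tendsto (fun r : ℝ => (X m).re * (X (r : ℂ) / (r : ℂ)).re *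
      ‖m * ((r⁻¹ : ℝ) : ℂ) + 1‖ ^ 2) atTop (𝓝 ((X m).re * 1 * 1)) :=
    (l1.const_mul _).mul l2
  have l5 : Tendsto (fun r : ℝ => m.re * ‖X m * ((r⁻¹ : ℝ) : ℂ) +
      (starRingEnd ℂ) (X (r : ℂ) / (r : ℂ))‖ ^ 2) atTop (𝓝 (m.re * 1)) := l3.const_mul _
  rw [mul_one, mul_one] at l4
  rw [mul_one] at l5
  refine le_of_tendsto_of_tendsto l5 l4 ?_
  filter_upwards [eventually_gt_atTop (0 : ℝ)] with r hr
  have h := schwarz hX hp hm hr
  have hr' : (r : ℂ) ≠ 0 := by exact_mod_cast hr.ne'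
  have e1 : ‖m + (r : ℂ)‖ = r * ‖m * ((r⁻¹ : ℝ) : ℂ) + 1‖ := by
    have : m + (r : ℂ) = r * (m * ((r⁻¹ : ℝ) : ℂ) + 1) := by
      push_cast
      field_simp
    rw [this, norm_mul, Complex.norm_real, Real.norm_of_nonneg hr.le]
  have e2 : ‖X m + (starRingEnd ℂ) (X (r : ℂ))‖ = r * ‖X m * ((r⁻¹ : ℝ) : ℂ) +
      (starRingEnd ℂ) (X (r : ℂ) / (r : ℂ))‖ := by
    have : X m + (starRingEnd ℂ) (X (r : ℂ)) = r * (X m * ((r⁻¹ : ℝ) : ℂ) +
        (starRingEnd ℂ) (X (r : ℂ) / (r : ℂ))) := by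
      rw [map_div₀, Complex.conj_ofReal]
      push_cast
      field_simp
    rw [this, norm_mul, Complex.norm_real, Real.norm_of_nonneg hr.le]
  have e3 : (X (r : ℂ)).re = r * (X (r : ℂ) / (r : ℂ)).re := by
    rw [Complex.div_ofReal_re]
    field_simp
  rw [e1, e2, e3, mul_pow, mul_pow] at h
  have h3 : 0 < r ^ 3 := by positivity
  have h4 : r ^ 3 * (m.re * ‖X m * ((r⁻¹ : ℝ) : ℂ) +
      (starRingEnd ℂ) (X (r : ℂ) / (r : ℂ))‖ ^ 2) ≤ r ^ 3 * ((X m).re *
      (X (r : ℂ) / (r : ℂ)).re * ‖m * ((r⁻¹ : ℝ) : ℂ) + 1‖ ^ 2) := by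
    linarith [h]
  exact le_of_mul_le_mul_left h4 h3

end Pool.Agent.AEN
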