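import Pool.Agent.AEN.Targets
import Pool.Agent.PLim.MP

/-!
# AEN, KCA: the parent cycle and its multiplier over the half plane
-/

set_option autoImplicit false

open Complex Filter Topology Set MeasureTheory
open Pool.Agent.Multibrot (MM)
open Pool.Agent.Limb (F)
open Pool.Agent.PLim (Rho LocFix)
open Pool.Agent.MEX (Exa)
open Pool.Agent.MEY (Pt)
open Pool.Agent.PSat (Comp Sat)
open Pool.Agent.MEZ (T_AEL T_NCZ T_SECZ NCZk SECZk Fz)

namespace Pool.Agent.AEN

namespace KCA_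

/-- the right half plane is open -/
lemma Hp_open : IsOpen Hp := isOpen_lt continuous_const Complex.continuous_re

/-- the right half plane is convex -/
lemma Hp_convex : Convex ℝ Hp := convex_halfSpace_re_gt 0

/-- the iterates depend holomorphically on the data -/
lemma iter_diff {W : Set ℂ} {Q Z : ℂ → ℂ} (hQ : DifferentiableOn ℂ Q W)
    (hZ : DifferentiableOn ℂ Z W) (j : ℕ) :
    DifferentiableOn ℂ (fun m => (F 2 (Q m))^[j] (Z m)) W := by
  induction j with
  | zero => simpa using hZ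
  | succ j ih =>
    have h : (fun m => (F 2 (Q m))^[j + 1] (Z m)) =
        fun m => ((F 2 (Q m))^[j] (Z m)) ^ 2 + Q m := by
      funext m
      rw [Function.iterate_succ_apply']
      rfl
    rw [h]
    exact (ih.pow 2).add hQ

/-- the multiplier depends holomorphically on the data -/
lemma rho_diff {W : Set ℂ} {Q Z : ℂ → ℂ} (hQ : DifferentiableOn ℂ Q W)
    (hZ : DifferentiableOn ℂ Z W) (k : ℕ) :
    DifferentiableOn ℂ (fun m => Rho 2 k (Q m) (Z m)) W := by
  have h : (fun m => Rho 2 k (Q m) (Z m)) = fun m => ∏ j ∈ Finset.range k,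
      (((2 : ℕ) : ℂ) * ((F 2 (Q m))^[j] (Z m)) ^ (2 - 1)) := by
    funext m
    exact Pool.Agent.PLim.MPx.Rho_prod 2 k (Q m) (Z m)
  rw [h]
  refine DifferentiableOn.fun_finsetProd fun j _ => ?_
  exact ((iter_diff hQ hZ j).pow _).const_mul _

end KCA_

theorem p_KCA (h₁ : T_MOB) (h₂ : T_RPK) (h₃ : T_KSC) (h₄ : T_LGH) : T_KCA := by
  intro κ K k q P Q m1 z1 l1 hP hκ hQ hKq hq hm1 hz1 hl1
  have hK := hP.hK
  have hk : 1 ≤ k := by
    rcases Nat.eq_zero_or_pos k with h0 | h0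
    · rw [h0, zero_mul] at hKq
      omega
    · exact h0
  have hkK : k < K := by
    rw [hKq]
    nlinarith
  have hsub : Hp ⊆ Hk κ := fun m hm => by
    have h : 0 < m.re := hm
    show -κ < m.re
    linarith
  have hQd : DifferentiableOn ℂ Q Hp := hQ.dQ.mono hsub
  have hrep : ∀ m ∈ Hp, ∀ z : ℂ, (F 2 (Q m))^[k] z = z → 1 < ‖Rho 2 k (Q m) z‖ := by
    intro m hm z hz
    have hmre : 0 < m.re := hm
    have hv : ‖vm m‖ < 1 := (h₁.1 m (by linarith)).2.2.2.1.2 hmre
    obtain ⟨w, hw⟩ := hP.pt (vm m) (mem_ball_zero_iff.2 hv)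
    rw [← hQ.eq m hm] at hw
    exact h₂ k K (Q m) w (vm m) z hk hkK hw hv hz
  obtain ⟨Z, hZd, hZ1, hZf⟩ := h₃ k Hp Q hk KCA_.Hp_open KCA_.Hp_convex hQd
    (fun m hm z hz h1 => by
      have h2 := hrep m hm z hz
      rw [h1, norm_one] at h2
      exact lt_irrefl _ h2) m1 hm1 z1 hz1
  have hg : ∀ m ∈ Hp, 1 < ‖Rho 2 k (Q m) (Z m)‖ := fun m hm => hrep m hm _ (hZf m hm)
  obtain ⟨L, hLd, hL1, hL⟩ := h₄ (fun m => Rho 2 k (Q m) (Z m)) m1 l1
    (KCA_.rho_diff hQd hZd k) (fun m hm h0 => by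
      have h2 := hg m hm
      rw [h0, norm_zero] at h2
      linarith) hm1 (by simp only [hZ1]; exact hl1.symm)
  refine ⟨Z, L, hZd, hLd, hZ1, hL1, fun m hm => ⟨hZf m hm, (hL m hm).symm, ?_⟩⟩
  have h2 := hg m hm
  rw [← hL m hm, norm_exp] at h2
  exact Real.one_lt_exp_iff.1 h2

end Pool.Agent.AEN
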