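import Pool.Agent.AEN.Targets

/-!
# AEN, KCB: the parent cycle over the half plane
-/

set_option autoImplicit false

open Complex Filter Topology Set MeasureTheory
open Pool.Agent.Multibrot (MM)
open Pool.Agent.Limb (F)
open Pool.Agent.PLim (Rho LocFix)
open Pool.Agent.MEX (Exa)
open Pool.Agent.MEY (Pt)
open Pool.Agent.PSat (Comp Sat)
open Pool.Agent.MEZ (T_AEL T_NCZ T_SECZ NCZk SECZk Fz)

namespace Pool.Agent.AEN

namespace KCB_

/-- the logarithm of the multiplier along the real axis -/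
noncomputable def nu (r : ℝ) : ℝ := Real.log ((2 * r - 1) / (2 * r + 1))

lemma quot_mem {r : ℝ} (hr : 1 / 2 < r) :
    0 < (2 * r - 1) / (2 * r + 1) ∧ (2 * r - 1) / (2 * r + 1) < 1 := by
  constructor
  · apply div_pos <;> linarith
  · rw [div_lt_one (by linarith)]
    linarith

lemma nu_neg {r : ℝ} (hr : 1 / 2 < r) : nu r < 0 :=
  Real.log_neg (quot_mem hr).1 (quot_mem hr).2

lemma exp_nu {r : ℝ} (hr : 1 / 2 < r) : exp (nu r : ℂ) = vm (r : ℂ) := by
  rw [← Complex.ofReal_exp, nu, Real.exp_log (quot_mem hr).1, vm]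
  push_cast
  rfl

lemma nu_eq {r : ℝ} (hr : 1 / 2 < r) : nu r = Real.log (1 + (-2) / (2 * r + 1)) := by
  rw [nu]
  congr 1
  field_simp
  ring

/-- `r ν(r) → -1` -/
lemma mul_nu : Tendsto (fun r : ℝ => r * nu r) atTop (𝓝 (-1)) := by
  have h1 := Real.tendsto_mul_log_one_add_div_atTop (-2)
  have h2 : Tendsto (fun r : ℝ => 2 * r + 1) atTop atTop :=
    tendsto_atTop_add_const_right _ _ (tendsto_id.const_mul_atTop (by norm_num))
  have h3 := h1.comp h2
  have h4 : Tendsto (fun r : ℝ => r / (2 * r + 1)) atTop (𝓝 (1 / 2)) := by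
    have h5 : Tendsto (fun r : ℝ => 1 / 2 - 1 / 2 * (2 * r + 1)⁻¹) atTop
        (𝓝 (1 / 2 - 1 / 2 * 0)) :=
      tendsto_const_nhds.sub ((tendsto_inv_atTop_zero.comp h2).const_mul _)
    rw [mul_zero, sub_zero] at h5
    refine h5.congr' ?_
    filter_upwards [eventually_gt_atTop (1 / 2 : ℝ)] with r hr
    have h6 : 2 * r + 1 ≠ 0 := by linarith
    field_simp
    ring
  have h7 := h4.mul h3
  have h8 : (1 / 2 : ℝ) * (-2) = -1 := by norm_num
  rw [h8] at h7
  refine h7.congr' ?_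
  filter_upwards [eventually_gt_atTop (1 / 2 : ℝ)] with r hr
  have h6 : 2 * r + 1 ≠ 0 := by linarith
  rw [nu_eq hr]
  simp only [Function.comp_apply]
  field_simp

/-- `ν(r) → 0` -/
lemma nu_lim : Tendsto nu atTop (𝓝 0) := by
  have h1 := tendsto_inv_atTop_zero.mul mul_nu
  rw [zero_mul] at h1
  refine h1.congr' ?_
  filter_upwards [eventually_gt_atTop (1 / 2 : ℝ)] with r hr
  have h6 : r ≠ 0 := by linarith
  field_simp

lemma nu_cont {r1 : ℝ} (hr1 : 1 / 2 < r1) : ContinuousOn nu (Ici r1) := by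
  intro r hr
  have h1 : 1 / 2 < r := lt_of_lt_of_le hr1 hr
  have h2 : (2 * r + 1) ≠ 0 := by linarith
  have h3 : ContinuousAt (fun r : ℝ => (2 * r - 1) / (2 * r + 1)) r :=
    ContinuousAt.div (by fun_prop) (by fun_prop) h2
  exact (h3.log (quot_mem h1).1.ne').continuousWithinAt

/-- two continuous logarithms which agree at a point agree -/
lemma log_uniq {s : Set ℝ} (hs : IsPreconnected s) {f g : ℝ → ℂ} (hf : ContinuousOn f s)
    (hg : ContinuousOn g s) (h : ∀ t ∈ s, exp (f t) = exp (g t)) {a : ℝ} (ha : a ∈ s)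
    (hfa : f a = g a) : ∀ t ∈ s, f t = g t := by
  have hT : MapsTo (fun t => f t - g t) s
      ((AddSubgroup.zmultiples (2 * Real.pi * I : ℂ) : AddSubgroup ℂ) : Set ℂ) := by
    intro t ht
    obtain ⟨k, hk⟩ := exp_eq_exp_iff_exists_int.1 (h t ht)
    rw [SetLike.mem_coe, AddSubgroup.mem_zmultiples_iff]
    refine ⟨k, ?_⟩
    simp only [hk, zsmul_eq_mul]
    ring
  have hdisc : IsDiscrete
      ((AddSubgroup.zmultiples (2 * Real.pi * I : ℂ) : AddSubgroup ℂ) : Set ℂ) :=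
    ⟨NormedSpace.discreteTopology_zmultiples _⟩
  intro t ht
  have h1 : f t - g t = f a - g a :=
    hs.constant_of_mapsTo hdisc (hf.sub hg) hT ht ha
  rw [hfa, sub_self, sub_eq_zero] at h1
  exact h1

end KCB_

theorem p_KCB (h₂ : T_NRR) (h₃ : T_KCA) (h₄ : T_KUQ) : T_KCB := by
  intro κ K k p q P Q r0 z0 hP hκ hQ hKq hp hpq hcop hlim hpt
  have hq0 : (q : ℂ) ≠ 0 := by
    have : q ≠ 0 := by omega
    exact_mod_cast this
  have hk : 1 ≤ k := by
    rcases Nat.eq_zero_or_pos k with h0 | h0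
    · have := hP.hK
      rw [h0, zero_mul] at hKq
      omega
    · exact h0
  obtain ⟨R, y, χ, hR, hyd, hχd, hy0, hχ0, hy', hnr⟩ := h₂ K k p q P r0 z0 hP hKq hp hpq hcop
    hlim hpt
  obtain ⟨E, hE⟩ : ∃ E : ℂ, E = 2 * Real.pi * I * p / q := ⟨_, rfl⟩
  have hEre : E.re = 0 := by
    have : E = ((2 * Real.pi * p / q : ℝ) : ℂ) * I := by
      rw [hE]
      push_cast
      ring
    rw [this, Complex.re_ofReal_mul, Complex.I_re, mul_zero]
  rw [← hE] at hnr
  -- the threshold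
  have hnulim : Tendsto (fun r : ℝ => (KCB_.nu r : ℂ)) atTop (𝓝 0) := by
    have h1 := (Complex.continuous_ofReal.tendsto 0).comp KCB_.nu_lim
    rw [Complex.ofReal_zero] at h1
    exact h1
  obtain ⟨r1, hr1, hr1R⟩ : ∃ r1 : ℝ, 1 / 2 < r1 ∧ ∀ r, r1 ≤ r →
      (KCB_.nu r : ℂ) ∈ Metric.ball (0 : ℂ) R := by
    have h1 := (hnulim.eventually (Metric.ball_mem_nhds (0 : ℂ) hR)).and
      (eventually_gt_atTop (1 / 2 : ℝ))
    obtain ⟨a, ha⟩ := eventually_atTop.1 h1
    exact ⟨a, (ha a le_rfl).2, fun r hr => (ha r hr).1⟩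
  have hhalf : ∀ r, r1 ≤ r → 1 / 2 < r := fun r hr => lt_of_lt_of_le hr1 hr
  have hHp : ∀ r, r1 ≤ r → (r : ℂ) ∈ Hp := fun r hr => by
    show 0 < ((r : ℂ)).re
    rw [Complex.ofReal_re]
    linarith [hhalf r hr]
  have hsub : Hp ⊆ Hk κ := fun m hm => by
    have h : 0 < m.re := hm
    show -κ < m.re
    linarith
  have hQP : ∀ r, r1 ≤ r → Q (r : ℂ) = P (exp (KCB_.nu r : ℂ)) := fun r hr => by
    rw [hQ.eq _ (hHp r hr), KCB_.exp_nu (hhalf r hr)]
  have hPt : ∀ r, r1 ≤ r → Pt 2 k (Q (r : ℂ)) (χ (KCB_.nu r : ℂ))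
      (exp (E + y (KCB_.nu r : ℂ))) := fun r hr => by
    rw [hQP r hr]
    refine hnr _ (hr1R r hr) ?_
    rw [Complex.ofReal_re]
    exact KCB_.nu_neg (hhalf r hr)
  obtain ⟨Z, L, hZd, hLd, hZ1, hL1, hZL⟩ := h₃ κ K k q P Q (r1 : ℂ) (χ (KCB_.nu r1 : ℂ))
    (E + y (KCB_.nu r1 : ℂ)) hP hκ hQ hKq (by omega) (hHp r1 le_rfl) (hPt r1 le_rfl).fix
    (hPt r1 le_rfl).mul
  -- continuity along the real axis
  have hcast : ContinuousOn (fun r : ℝ => (r : ℂ)) (Ici r1) :=
    Complex.continuous_ofReal.continuousOn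
  have hnuc : ContinuousOn (fun r : ℝ => (KCB_.nu r : ℂ)) (Ici r1) :=
    Complex.continuous_ofReal.comp_continuousOn (KCB_.nu_cont hr1)
  have hχc : ContinuousOn (fun r : ℝ => χ (KCB_.nu r : ℂ)) (Ici r1) :=
    hχd.continuousOn.comp hnuc fun r hr => hr1R r hr
  have hyc : ContinuousOn (fun r : ℝ => y (KCB_.nu r : ℂ)) (Ici r1) :=
    hyd.continuousOn.comp hnuc fun r hr => hr1R r hr
  have hLc : ContinuousOn (fun r : ℝ => L (r : ℂ)) (Ici r1) :=
    hLd.continuousOn.comp hcast fun r hr => hHp r hr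
  -- the point
  have hZχ : ∀ r, r1 ≤ r → Z (r : ℂ) = χ (KCB_.nu r : ℂ) := by
    have hS := h₄ k ((fun r : ℝ => (r : ℂ)) '' Ici r1) Q Z
      (fun m => χ (KCB_.nu m.re : ℂ)) (r1 : ℂ) hk
      (isPreconnected_Ici.image _ hcast) ?_ ?_ ?_ ?_
      ⟨r1, mem_Ici.2 le_rfl, rfl⟩ ?_
    · intro r hr
      have h1 := hS ⟨r, hr, rfl⟩
      simp only [Complex.ofReal_re] at h1
      exact h1
    · refine hQ.dQ.continuousOn.mono ?_
      rintro _ ⟨r, hr, rfl⟩
      exact hsub (hHp r hr)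
    · refine hZd.continuousOn.mono ?_
      rintro _ ⟨r, hr, rfl⟩
      exact hHp r hr
    · refine hχc.comp Complex.continuous_re.continuousOn ?_
      rintro _ ⟨r, hr, rfl⟩
      simp only [Complex.ofReal_re]
      exact hr
    · rintro _ ⟨r, hr, rfl⟩
      obtain ⟨h1, h2, h3⟩ := hZL _ (hHp r hr)
      refine ⟨h1, ?_, ?_⟩
      · simp only [Complex.ofReal_re]
        exact (hPt r hr).fix
      · intro h4
        have h5 : ‖exp (L (r : ℂ))‖ = 1 := by
          rw [← h2, h4, norm_one]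
        rw [norm_exp] at h5
        have h6 := Real.one_lt_exp_iff.2 h3
        linarith
    · simp only [Complex.ofReal_re]
      exact hZ1
  have hLy : ∀ r ∈ Ici r1, L (r : ℂ) = E + y (KCB_.nu r : ℂ) := by
    refine KCB_.log_uniq isPreconnected_Ici hLc (continuousOn_const.add hyc) (fun r hr => ?_)
      (a := r1) (mem_Ici.2 le_rfl) hL1
    rw [← (hZL _ (hHp r hr)).2.1, hZχ r hr]
    exact (hPt r hr).mul
  refine ⟨Z, fun m => L m - E, ?_⟩
  refine ⟨hLd.sub_const E, hZd.continuousOn, fun m hm => (hZL m hm).1, fun m hm => ?_,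
    fun m hm => ?_, ?_, ?_, ?_⟩
  · rw [← hE, (hZL m hm).2.1]
    congr 1
    ring
  · simp only [Complex.sub_re, hEre, sub_zero]
    exact (hZL m hm).2.2
  · -- the limit of `q ^ 2 r x(r)`
    have hyda : HasDerivAt y (-1 / (q : ℂ) ^ 2) 0 := by
      rw [← hy']
      exact (hyd.differentiableAt (Metric.ball_mem_nhds _ hR)).hasDerivAt
    have h1 := hasDerivAt_iff_tendsto_slope_zero.1 hyda
    have h2 : Tendsto (fun r : ℝ => (KCB_.nu r : ℂ)) atTop (𝓝[≠] 0) := by
      refine tendsto_nhdsWithin_iff.2 ⟨hnulim, ?_⟩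
      filter_upwards [eventually_gt_atTop (1 / 2 : ℝ)] with r hr
      have h3 := KCB_.nu_neg hr
      rw [mem_compl_iff, mem_singleton_iff, Complex.ofReal_eq_zero]
      exact h3.ne
    have h3 := h1.comp h2
    have h4 : Tendsto (fun r : ℝ => ((r * KCB_.nu r : ℝ) : ℂ)) atTop (𝓝 ((-1 : ℝ) : ℂ)) :=
      (Complex.continuous_ofReal.tendsto (-1)).comp KCB_.mul_nu
    have h5 := (h4.mul h3).const_mul ((q : ℂ) ^ 2)
    have h6 : (q : ℂ) ^ 2 * (((-1 : ℝ) : ℂ) * (-1 / (q : ℂ) ^ 2)) = 1 := by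
      push_cast
      field_simp
    rw [h6] at h5
    refine h5.congr' ?_
    filter_upwards [eventually_ge_atTop r1] with r hr
    have h7 : (KCB_.nu r : ℂ) ≠ 0 := by
      have := KCB_.nu_neg (hhalf r hr)
      rw [Ne, Complex.ofReal_eq_zero]
      exact this.ne
    simp only [Function.comp_apply, zero_add, hy0, sub_zero, smul_eq_mul]
    rw [hLy r hr]
    push_cast
    field_simp
    ring
  · -- the limit of the parameter
    have h1 : Tendsto (fun r : ℝ => exp (KCB_.nu r : ℂ)) atTop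
        (𝓝[Metric.ball 0 1] 1) := by
      refine tendsto_nhdsWithin_iff.2 ⟨?_, ?_⟩
      · have h2 := (Complex.continuous_exp.tendsto 0).comp hnulim
        rw [Complex.exp_zero] at h2
        exact h2
      · filter_upwards [eventually_gt_atTop (1 / 2 : ℝ)] with r hr
        rw [mem_ball_zero_iff, norm_exp, Complex.ofReal_re]
        exact Real.exp_lt_one_iff.2 (KCB_.nu_neg hr)
    refine (hlim.comp h1).congr' ?_
    filter_upwards [eventually_ge_atTop r1] with r hr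
    rw [hQP r hr]
    rfl
  · -- the limit of the point
    have h1 : Tendsto (fun r : ℝ => χ (KCB_.nu r : ℂ)) atTop (𝓝 z0) := by
      have h2 := (hχd.differentiableAt (Metric.ball_mem_nhds _ hR)).continuousAt.tendsto
      rw [hχ0] at h2
      exact h2.comp hnulim
    refine h1.congr' ?_
    filter_upwards [eventually_ge_atTop r1] with r hr
    rw [hZχ r hr]

end Pool.Agent.AEN
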