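import Pool.Agent.AEN.Targets
import Pool.Agent.PLim.MP
import Pool.Agent.PLim.CNT

/-!
# AEN, KSC: continuation of the fixed points of an iterate over a convex set
-/

set_option autoImplicit false

open Complex Filter Topology Set MeasureTheory
open Pool.Agent.Multibrot (MM)
open Pool.Agent.Limb (F)
open Pool.Agent.PLim (Rho LocFix)
open Pool.Agent.MEX (Exa)
open Pool.Agent.MEY (Pt)
open Pool.Agent.PSat (Comp Sat)
open Pool.Agent.MEZ (T_AEL T_NCZ T_SECZ NCZk SECZk Fz)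

namespace Pool.Agent.AEN

namespace KSC_

open Pool.Agent.PLim (FPol CNT_eval CNT_mem)
open Pool.Agent.PLim.MPx (fix_monic Rho_eq)

/-- If no fixed point of the iterate has multiplier one, the fixed points are simple roots. -/
lemma nodup (k : ℕ) (hk : 1 ≤ k) (c : ℂ)
    (h : ∀ z : ℂ, (F 2 c)^[k] z = z → Rho 2 k c z ≠ 1) :
    (FPol 2 c k - Polynomial.X).roots.Nodup := by
  rw [Multiset.nodup_iff_count_le_one]
  intro z
  rw [Polynomial.count_roots]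
  by_contra hlt
  rw [not_le] at hlt
  have hne := (fix_monic 2 k c le_rfl hk).1.ne_zero
  obtain ⟨h1, h2⟩ := (Polynomial.one_lt_rootMultiplicity_iff_isRoot hne).mp hlt
  rw [Polynomial.IsRoot.def, Polynomial.eval_sub, Polynomial.eval_X, CNT_eval,
    sub_eq_zero] at h1
  rw [Polynomial.IsRoot.def, Polynomial.derivative_sub, Polynomial.derivative_X,
    Polynomial.eval_sub, Polynomial.eval_one, ← Rho_eq, sub_eq_zero] at h2
  exact h z h1 h2

/-- There are `2 ^ k` fixed points. -/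
lemma card (k : ℕ) (hk : 1 ≤ k) (c : ℂ)
    (h : ∀ z : ℂ, (F 2 c)^[k] z = z → Rho 2 k c z ≠ 1) :
    (FPol 2 c k - Polynomial.X).roots.toFinset.card = 2 ^ k := by
  rw [Multiset.toFinset_card_of_nodup (nodup k hk c h), ← (fix_monic 2 k c le_rfl hk).2]
  exact Polynomial.splits_iff_card_roots.mp (IsAlgClosed.splits _)

end KSC_

open Pool.Agent.PLim (FPol CNT_mem) in
theorem p_KSC (h₁ : Pool.Agent.PSat.T_LIFC) (h₂ : Pool.Agent.PLim.T_LOCZ) : T_KSC := by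
  intro k W Q hk hWo hWc hQ hne m0 hm0 z0 hz0
  obtain ⟨T, hT⟩ : ∃ T : ℂ → Finset ℂ,
      ∀ m, T m = (FPol 2 (Q m) k - Polynomial.X).roots.toFinset := ⟨_, fun _ => rfl⟩
  have hmem : ∀ m z : ℂ, z ∈ T m ↔ (F 2 (Q m))^[k] z = z := fun m z => by
    rw [hT, Multiset.mem_toFinset, CNT_mem le_rfl hk]
  have hcard : ∀ m ∈ W, (T m).card = 2 ^ k := fun m hm => by
    rw [hT]
    exact KSC_.card k hk (Q m) (hne m hm)
  have hloc : ∀ m ∈ W, ∀ z : ℂ, (F 2 (Q m))^[k] z = z →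
      ∃ (ε r : ℝ) (zf : ℂ → ℂ), LocFix 2 k (Q m) z ε r zf := by
    intro m hm z hz
    obtain ⟨ε, r, zf, -, -, hL⟩ := h₂ 2 k (Q m) z 1 le_rfl one_pos hz (hne m hm z hz)
    exact ⟨ε, r, zf, hL⟩
  have hQc : ∀ m ∈ W, ContinuousAt Q m := fun m hm =>
    hQ.continuousOn.continuousAt (hWo.mem_nhds hm)
  obtain ⟨Z, hZc, hZ0, hZT⟩ := h₁ W T (2 ^ k) hWo hWc hcard (by
    intro m hm z hz
    obtain ⟨ε, r, zf, hL⟩ := hloc m hm z ((hmem m z).mp hz)
    have h1 : ∀ᶠ m' in 𝓝 m, Q m' ∈ Metric.ball (Q m) ε ∧ m' ∈ W :=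
      ((hQc m hm).eventually (Metric.ball_mem_nhds _ hL.hδ)).and (hWo.mem_nhds hm)
    obtain ⟨δ, hδ, hδ1⟩ := Metric.eventually_nhds_iff_ball.mp h1
    refine ⟨δ, fun m' => zf (Q m'), hδ, ?_, hL.zf0, ?_⟩
    · exact hL.diff.continuousOn.comp
        (hQ.continuousOn.mono fun m' hm' => (hδ1 m' hm').2) fun m' hm' => (hδ1 m' hm').1
    · intro m' hm'
      rw [hmem]
      exact hL.fix _ (hδ1 m' hm'.1).1) m0 hm0 z0 ((hmem _ _).mpr hz0)
  refine ⟨Z, ?_, hZ0, fun m hm => (hmem _ _).mp (hZT m hm)⟩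
  intro m hm
  obtain ⟨ε, r, zf, hL⟩ := hloc m hm (Z m) ((hmem _ _).mp (hZT m hm))
  have hWn : W ∈ 𝓝 m := hWo.mem_nhds hm
  have e1 : ∀ᶠ m' in 𝓝 m, Q m' ∈ Metric.ball (Q m) ε :=
    (hQc m hm).eventually (Metric.ball_mem_nhds _ hL.hδ)
  have e2 : ∀ᶠ m' in 𝓝 m, Z m' ∈ Metric.ball (Z m) r :=
    (hZc.continuousAt hWn).eventually (Metric.ball_mem_nhds _ hL.hr)
  have e3 : Z =ᶠ[𝓝 m] fun m' => zf (Q m') := by
    filter_upwards [hWn, e1, e2] with m' b0 b1 b2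
    exact hL.uniq (Q m') b1 (Z m') b2 ((hmem _ _).mp (hZT m' b0))
  refine (DifferentiableAt.congr_of_eventuallyEq ?_ e3).differentiableWithinAt
  exact (hL.diff.differentiableAt (Metric.ball_mem_nhds _ hL.hδ)).comp m
    (hQ.differentiableAt hWn)

end Pool.Agent.AEN
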