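import Pool.Agent.AEN.Targets

/-!
# AEN, KUQ: uniqueness of the continuation of fixed points over a preconnected set
-/

set_option autoImplicit false

open Complex Filter Topology Set MeasureTheory
open Pool.Agent.Multibrot (MM)
open Pool.Agent.Limb (F)
open Pool.Agent.PLim (Rho LocFix)
open Pool.Agent.MEX (Exa)
open Pool.Agent.MEY (Pt)
open Pool.Agent.PSat (Comp Sat)
open Pool.Agent.MEZ (T_AEL T_NCZ T_SECZ NCZk SECZk Fz)

namespace Pool.Agent.AEN

theorem p_KUQ (h : Pool.Agent.PLim.T_LOCZ) : T_KUQ := by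
  intro k S Q Z Z' m0 hk hS hQ hZ hZ' hfix hm0 h0
  have hpc : PreconnectedSpace S := isPreconnected_iff_preconnectedSpace.mp hS
  rw [continuousOn_iff_continuous_domRestrict] at hQ hZ hZ'
  set A : Set S := {x | S.domRestrict Z x = S.domRestrict Z' x} with hA
  have hcl : IsClosed A := isClosed_eq hZ hZ'
  have hop : IsOpen A := by
    rw [isOpen_iff_mem_nhds]
    intro x hx
    have hx' : Z x.1 = Z' x.1 := hx
    obtain ⟨f1, f2, f3⟩ := hfix x.1 x.2
    obtain ⟨ε, r, zf, -, -, hL⟩ := h 2 k (Q x.1) (Z x.1) 1 le_rfl one_pos f1 f3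
    have a1 : ∀ᶠ y : S in 𝓝 x, Q y.1 ∈ Metric.ball (Q x.1) ε :=
      hQ.continuousAt.eventually_mem (Metric.ball_mem_nhds _ hL.hδ)
    have a2 : ∀ᶠ y : S in 𝓝 x, Z y.1 ∈ Metric.ball (Z x.1) r :=
      hZ.continuousAt.eventually_mem (Metric.ball_mem_nhds _ hL.hr)
    have a3 : ∀ᶠ y : S in 𝓝 x, Z' y.1 ∈ Metric.ball (Z x.1) r := by
      have hb : Metric.ball (Z x.1) r ∈ 𝓝 (Z' x.1) := by
        rw [← hx']
        exact Metric.ball_mem_nhds _ hL.hr
      exact hZ'.continuousAt.eventually_mem hb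
    filter_upwards [a1, a2, a3] with y h1 h2 h3
    obtain ⟨g1, g2, -⟩ := hfix y.1 y.2
    exact (hL.uniq _ h1 _ h2 g1).trans (hL.uniq _ h1 _ h3 g2).symm
  have huniv : A = univ := IsClopen.eq_univ ⟨hcl, hop⟩ ⟨⟨m0, hm0⟩, h0⟩
  intro m hm
  have h1 : (⟨m, hm⟩ : S) ∈ A := by
    rw [huniv]
    trivial
  exact h1

end Pool.Agent.AEN
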