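import Pool.Agent.AEN.Targets

/-!
# AEN, LGH: logarithms on the right half plane
-/

set_option autoImplicit false

open Complex Filter Topology Set MeasureTheory
open Pool.Agent.Multibrot (MM)
open Pool.Agent.Limb (F)
open Pool.Agent.PLim (Rho LocFix)
open Pool.Agent.MEX (Exa)
open Pool.Agent.MEY (Pt)
open Pool.Agent.PSat (Comp Sat)

namespace Pool.Agent.AEN

namespace LGH_

theorem ball_log {h : ℂ → ℂ} {v0 l0 : ℂ} (hd : DifferentiableOn ℂ h (Metric.ball 0 1))
    (hn : ∀ v ∈ Metric.ball (0 : ℂ) 1, h v ≠ 0) (hv0 : v0 ∈ Metric.ball (0 : ℂ) 1)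
    (he : exp l0 = h v0) :
    ∃ L : ℂ → ℂ, DifferentiableOn ℂ L (Metric.ball 0 1) ∧ L v0 = l0 ∧
      ∀ v ∈ Metric.ball (0 : ℂ) 1, exp (L v) = h v := by
  have hdd : DifferentiableOn ℂ (deriv h) (Metric.ball 0 1) := hd.deriv Metric.isOpen_ball
  have hq : DifferentiableOn ℂ (fun v => deriv h v / h v) (Metric.ball 0 1) := hdd.div hd hn
  obtain ⟨L, hL0, hL⟩ := hq.isExactOn_ball.with_val_at v0 l0
  have hu : ∀ v ∈ Metric.ball (0 : ℂ) 1, HasDerivAt (fun v => h v * exp (-L v)) 0 v := by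
    intro v hv
    have h1 : HasDerivAt h (deriv h v) v :=
      (hd.differentiableAt (Metric.isOpen_ball.mem_nhds hv)).hasDerivAt
    have h2 := h1.mul ((hL v hv).neg.cexp)
    have h3 := hn v hv
    have h4 : deriv h v * exp (-L v) + h v * (exp (-L v) * -(deriv h v / h v)) = 0 := by
      field_simp
      ring
    rw [Pi.neg_apply, h4] at h2
    exact h2
  refine ⟨L, fun v hv => (hL v hv).differentiableAt.differentiableWithinAt, hL0, fun v hv => ?_⟩
  have h4 := Metric.isOpen_ball.is_const_of_deriv_eq_zero (convex_ball (0 : ℂ) 1).isPreconnected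
    (fun w hw => (hu w hw).differentiableAt.differentiableWithinAt)
    (fun w hw => (hu w hw).deriv) hv hv0
  simp only [hL0] at h4
  rw [← he, ← exp_add, add_neg_cancel, exp_zero, exp_neg] at h4
  have h5 := exp_ne_zero (L v)
  field_simp at h4
  exact h4.symm

theorem ne1 {m : ℂ} (hm : m ∈ Hp) : m + 1 ≠ 0 := by
  intro h
  have := congrArg re h
  simp only [add_re, one_re, zero_re] at this
  have h0 : 0 < m.re := hm
  linarith

theorem ne2 {v : ℂ} (hv : v ∈ Metric.ball (0 : ℂ) 1) : 1 - v ≠ 0 := by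
  intro h
  have h1 : v = 1 := by linear_combination -h
  rw [h1] at hv
  simp at hv

theorem maps1 {v : ℂ} (hv : v ∈ Metric.ball (0 : ℂ) 1) : (1 + v) / (1 - v) ∈ Hp := by
  have h1 := ne2 hv
  have h2 : 0 < normSq (1 - v) := normSq_pos.2 h1
  have h3 : ‖v‖ < 1 := by simpa using hv
  have h4 : normSq v < 1 := by
    rw [normSq_eq_norm_sq]
    nlinarith [norm_nonneg v]
  show 0 < ((1 + v) / (1 - v)).re
  rw [div_re]
  have h5 : 0 < (1 + v).re * (1 - v).re + (1 + v).im * (1 - v).im := by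
    simp only [add_re, sub_re, one_re, add_im, sub_im, one_im]
    rw [normSq_apply] at h4
    nlinarith
  rw [← add_div]
  exact div_pos h5 h2

theorem maps2 {m : ℂ} (hm : m ∈ Hp) : (m - 1) / (m + 1) ∈ Metric.ball (0 : ℂ) 1 := by
  have h0 : 0 < m.re := hm
  have h1 : 0 < ‖m + 1‖ := norm_pos_iff.2 (ne1 hm)
  rw [mem_ball_zero_iff, norm_div, div_lt_one h1]
  apply lt_of_pow_lt_pow_left₀ 2 h1.le
  rw [← normSq_eq_norm_sq, ← normSq_eq_norm_sq, normSq_apply, normSq_apply]
  simp only [add_re, sub_re, one_re, add_im, sub_im, one_im]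
  nlinarith

theorem inv1 {m : ℂ} (hm : m ∈ Hp) :
    (1 + (m - 1) / (m + 1)) / (1 - (m - 1) / (m + 1)) = m := by
  have h1 := ne1 hm
  have h2 := ne2 (maps2 hm)
  rw [div_eq_iff h2]
  field_simp
  ring

end LGH_

open LGH_ in
theorem p_LGH : T_LGH := by
  intro g m0 l0 hg hn hm0 he
  have hd : DifferentiableOn ℂ (fun v => g ((1 + v) / (1 - v))) (Metric.ball 0 1) := by
    refine hg.comp (f := fun v : ℂ => (1 + v) / (1 - v)) ?_ (fun v hv => maps1 hv)
    exact DifferentiableOn.div (by fun_prop) (by fun_prop) (fun v hv => ne2 hv)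
  obtain ⟨L, hL1, hL2, hL3⟩ := ball_log (l0 := l0) hd (fun v hv => hn _ (maps1 hv)) (maps2 hm0)
    (by simp only [inv1 hm0]; exact he)
  refine ⟨fun m => L ((m - 1) / (m + 1)), ?_, hL2, fun m hm => ?_⟩
  · refine hL1.comp (f := fun m : ℂ => (m - 1) / (m + 1)) ?_ (fun m hm => maps2 hm)
    exact DifferentiableOn.div (by fun_prop) (by fun_prop) (fun m hm => ne1 hm)
  · simp only [hL3 _ (maps2 hm), inv1 hm]

end Pool.Agent.AEN
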