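import Pool.Agent.AEN.Targets

/-!
# AEN: MOB, the coordinate on the disc
-/

set_option autoImplicit false

open Complex Filter Topology Set MeasureTheory
open Pool.Agent.Multibrot (MM)
open Pool.Agent.Limb (F)
open Pool.Agent.PLim (Rho LocFix)
open Pool.Agent.MEX (Exa)
open Pool.Agent.MEY (Pt)
open Pool.Agent.PSat (Comp Sat)
open Pool.Agent.MEZ (T_AEL T_NCZ T_SECZ NCZk SECZk Fz)

namespace Pool.Agent.AEN

namespace MOB_

lemma re_eq (m : ℂ) : (2 * m + 1).re = 2 * m.re + 1 := by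
  simp

lemma ne {m : ℂ} (hm : -(1 / 2) < m.re) : 2 * m + 1 ≠ 0 := by
  intro h
  have h1 := re_eq m
  rw [h, Complex.zero_re] at h1
  linarith

lemma sq (m : ℂ) : ‖2 * m - 1‖ ^ 2 = ‖2 * m + 1‖ ^ 2 - 8 * m.re := by
  rw [Complex.sq_norm, Complex.sq_norm, Complex.normSq_apply, Complex.normSq_apply]
  simp only [Complex.sub_re, Complex.sub_im, Complex.add_re, Complex.add_im, Complex.mul_re,
    Complex.mul_im, Complex.re_ofNat, Complex.im_ofNat, Complex.one_re, Complex.one_im]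
  ring

lemma vm_eq {m : ℂ} (hm : 2 * m + 1 ≠ 0) : vm m = 1 - 2 / (2 * m + 1) := by
  unfold vm
  field_simp
  ring

lemma nrm (m : ℂ) : ‖vm m‖ = ‖2 * m - 1‖ / ‖2 * m + 1‖ := by
  unfold vm
  rw [norm_div]

lemma lt_iff {m : ℂ} (hm : 2 * m + 1 ≠ 0) : ‖vm m‖ < 1 ↔ 0 < m.re := by
  have h1 : 0 < ‖2 * m + 1‖ := norm_pos_iff.2 hm
  rw [nrm, div_lt_one h1, ← abs_of_nonneg (norm_nonneg (2 * m - 1)), ← abs_of_pos h1, ← sq_lt_sq,
    sq]
  constructor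
  · intro h; linarith
  · intro h; linarith

lemma le_iff {m : ℂ} (hm : 2 * m + 1 ≠ 0) : ‖vm m‖ ≤ 1 ↔ 0 ≤ m.re := by
  have h1 : 0 < ‖2 * m + 1‖ := norm_pos_iff.2 hm
  rw [nrm, div_le_one h1, ← abs_of_nonneg (norm_nonneg (2 * m - 1)), ← abs_of_pos h1, ← sq_le_sq,
    sq]
  constructor
  · intro h; linarith
  · intro h; linarith

lemma sub_eq {m : ℂ} (hm : 2 * m + 1 ≠ 0) : 1 - vm m = 2 / (2 * m + 1) := by
  rw [vm_eq hm]
  ring

lemma part1 (m : ℂ) (hm : -(1 / 2) < m.re) : 2 * m + 1 ≠ 0 ∧ vm m ≠ 1 ∧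
    DifferentiableAt ℂ vm m ∧ (‖vm m‖ < 1 ↔ 0 < m.re) ∧ (‖vm m‖ ≤ 1 ↔ 0 ≤ m.re) ∧
    (vm m = 0 ↔ m = 1 / 2) := by
  have h0 := ne hm
  refine ⟨h0, ?_, ?_, lt_iff h0, le_iff h0, ?_⟩
  · intro h
    have h1 := sub_eq h0
    rw [h, sub_self] at h1
    exact (div_ne_zero two_ne_zero h0) h1.symm
  · have h1 : DifferentiableAt ℂ (fun m : ℂ => 2 * m - 1) m :=
      (differentiableAt_id.const_mul 2).sub_const 1
    have h2 : DifferentiableAt ℂ (fun m : ℂ => 2 * m + 1) m :=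
      (differentiableAt_id.const_mul 2).add_const 1
    exact h1.div h2 h0
  · unfold vm
    rw [div_eq_zero_iff]
    constructor
    · rintro (h | h)
      · linear_combination (1 / 2 : ℂ) * h
      · exact absurd h h0
    · intro h
      left
      rw [h]
      ring

lemma part2 (m m' : ℂ) (hm : -(1 / 2) < m.re) (hm' : -(1 / 2) < m'.re) (h : vm m = vm m') :
    m = m' := by
  have h0 := ne hm
  have h0' := ne hm'
  have h1 := sub_eq h0
  have h2 := sub_eq h0'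
  rw [h, h2, div_eq_div_iff h0' h0] at h1
  linear_combination (1 / 4 : ℂ) * h1

lemma part3 (v : ℂ) (hv : ‖v‖ < 1) : ∃ m : ℂ, 0 < m.re ∧ vm m = v ∧
    2 * m + 1 = 2 / (1 - v) := by
  have h0 : (1 : ℂ) - v ≠ 0 := by
    intro h
    have h1 : v = 1 := by linear_combination -h
    rw [h1, norm_one] at hv
    exact lt_irrefl _ hv
  have h1 : 2 * ((1 + v) / (2 * (1 - v))) + 1 = 2 / (1 - v) := by
    field_simp
    ring
  have h2 : 2 * ((1 + v) / (2 * (1 - v))) + 1 ≠ 0 := by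
    rw [h1]
    exact div_ne_zero two_ne_zero h0
  have h3 : vm ((1 + v) / (2 * (1 - v))) = v := by
    rw [vm_eq h2, h1, div_div_eq_mul_div, mul_div_cancel_left₀ _ (two_ne_zero)]
    ring
  refine ⟨(1 + v) / (2 * (1 - v)), ?_, h3, h1⟩
  rw [← lt_iff h2, h3]
  exact hv

lemma part4 (κ : ℝ) (m : ℂ) (hκ : 0 < κ) (hκ1 : κ ≤ 1) (h1 : -(κ / 5000) < m.re)
    (h2 : m.re < 0) :
    ∃ (μ : ℂ) (δ : ℝ), exp μ = vm m ∧ 0 < δ ∧ Fz δ μ.im ∧ μ.re < κ * δ ^ 2 ∧ μ.re ≤ 1 := by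
  have hm : -(1 / 2) < m.re := by linarith
  have h0 := ne hm
  have hn0 : 0 < ‖2 * m + 1‖ := norm_pos_iff.2 h0
  set c : ℝ := -m.re with hc
  have hc0 : 0 < c := by linarith
  have hc1 : c < κ / 5000 := by linarith
  set v := vm m with hv
  -- the distance to one
  have hd : ‖1 - v‖ = 2 / ‖2 * m + 1‖ := by
    rw [hv, sub_eq h0, norm_div]
    simp
  have hq : ‖v‖ ^ 2 = 1 + 2 * c * ‖1 - v‖ ^ 2 := by
    have h3 := sq m
    rw [hd, hv, nrm, div_pow, h3]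
    field_simp
    rw [hc]
    ring
  have hre : 1 - 2 / 5000 ≤ ‖2 * m + 1‖ := by
    have h3 := Complex.re_le_norm (2 * m + 1)
    rw [re_eq] at h3
    linarith
  have hd3 : ‖1 - v‖ ≤ 3 := by
    rw [hd, div_le_iff₀ hn0]
    linarith
  have hd0 : 0 < ‖1 - v‖ := by
    rw [hd]
    positivity
  have hv1 : 1 < ‖v‖ := by
    have h3 : 0 < 2 * c * ‖1 - v‖ ^ 2 := by positivity
    nlinarith [norm_nonneg v]
  have hv4 : ‖v‖ ≤ 4 := by
    have h3 : ‖v‖ ≤ ‖(1 : ℂ)‖ + ‖1 - v‖ := by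
      have h4 : v = 1 - (1 - v) := by ring
      calc ‖v‖ = ‖1 - (1 - v)‖ := by rw [← h4]
        _ ≤ ‖(1 : ℂ)‖ + ‖1 - v‖ := norm_sub_le _ _
    rw [norm_one] at h3
    linarith
  have hv0 : v ≠ 0 := by
    intro h
    rw [h, norm_zero] at hv1
    linarith
  -- the real part
  have hlog : Real.log ‖v‖ ≤ c * ‖1 - v‖ ^ 2 := by
    have h3 := Real.log_le_sub_one_of_pos (by linarith : (0 : ℝ) < ‖v‖)
    have h4 : 0 ≤ c * ‖1 - v‖ ^ 2 := by positivity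
    nlinarith
  have hvl : ‖v‖ - 1 ≤ c * ‖1 - v‖ ^ 2 := by
    have h4 : 0 ≤ c * ‖1 - v‖ ^ 2 := by positivity
    nlinarith
  have hhalf : c * ‖1 - v‖ ^ 2 ≤ ‖1 - v‖ / 2 := by
    have h3 : c ≤ 1 / 6 := by linarith
    have h4 : c * ‖1 - v‖ ≤ 1 / 2 := by nlinarith
    nlinarith
  -- the argument
  set θ : ℝ := arg v with hθ
  have harg : ‖v - (‖v‖ : ℂ)‖ ≤ 4 * |θ| := by
    have h3 : v - (‖v‖ : ℂ) = (‖v‖ : ℂ) * (exp (I * (θ : ℂ)) - 1) := by
      have h4 := Complex.norm_mul_exp_arg_mul_I v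
      rw [← hθ] at h4
      rw [mul_comm I, mul_sub, h4, mul_one]
    rw [h3, norm_mul, Complex.norm_real, Real.norm_eq_abs, abs_of_pos (by linarith : 0 < ‖v‖)]
    have h5 := @Real.norm_exp_I_mul_ofReal_sub_one_le θ
    rw [Real.norm_eq_abs] at h5
    exact mul_le_mul hv4 h5 (norm_nonneg _) (by norm_num)
  have hd8 : ‖1 - v‖ ≤ 8 * |θ| := by
    have h3 : ‖1 - v‖ ≤ ‖(1 : ℂ) - (‖v‖ : ℂ)‖ + ‖(‖v‖ : ℂ) - v‖ := by
      have h4 : (1 : ℂ) - v = (1 - (‖v‖ : ℂ)) + ((‖v‖ : ℂ) - v) := by ring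
      calc ‖1 - v‖ = ‖(1 - (‖v‖ : ℂ)) + ((‖v‖ : ℂ) - v)‖ := by rw [← h4]
        _ ≤ _ := norm_add_le _ _
    have h5 : ‖(1 : ℂ) - (‖v‖ : ℂ)‖ = ‖v‖ - 1 := by
      rw [norm_sub_rev]
      have h6 : ((‖v‖ : ℂ) - 1) = ((‖v‖ - 1 : ℝ) : ℂ) := by push_cast; ring
      rw [h6, Complex.norm_real, Real.norm_eq_abs, abs_of_pos (by linarith)]
    rw [h5, norm_sub_rev (‖v‖ : ℂ) v] at h3
    linarith
  have hθ0 : 0 < |θ| := by
    by_contra h
    push Not at h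
    linarith
  have hπ : |θ| ≤ Real.pi := Complex.abs_arg_le_pi v
  have hp := Real.pi_pos
  refine ⟨log v, |θ| / (2 * Real.pi), Complex.exp_log hv0, by positivity, ?_, ?_, ?_⟩
  · intro j
    rw [Complex.log_im, ← hθ]
    have h3 : |θ / (2 * Real.pi)| = |θ| / (2 * Real.pi) := by
      rw [abs_div, abs_of_pos (by positivity : (0 : ℝ) < 2 * Real.pi)]
    have h4 : |θ| / (2 * Real.pi) ≤ 1 / 2 := by
      rw [div_le_iff₀ (by positivity)]
      linarith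
    rcases eq_or_ne j 0 with hj | hj
    · rw [hj, Int.cast_zero, sub_zero, h3]
    · have h5 : (1 : ℝ) ≤ |(j : ℝ)| := by
        have h6 : 1 ≤ |j| := Int.one_le_abs hj
        exact_mod_cast h6
      have h6 : |(j : ℝ)| - |θ / (2 * Real.pi)| ≤ |θ / (2 * Real.pi) - j| := by
        rw [abs_sub_comm]
        exact abs_sub_abs_le_abs_sub _ _
      rw [h3] at h6
      linarith
  · rw [Complex.log_re]
    have h3 : c * ‖1 - v‖ ^ 2 ≤ c * (64 * θ ^ 2) := by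
      refine mul_le_mul_of_nonneg_left ?_ hc0.le
      have h4 : ‖1 - v‖ ^ 2 ≤ (8 * |θ|) ^ 2 := pow_le_pow_left₀ hd0.le hd8 2
      rw [mul_pow, sq_abs] at h4
      linarith
    have h5 : κ * (|θ| / (2 * Real.pi)) ^ 2 = κ * θ ^ 2 / (4 * Real.pi ^ 2) := by
      rw [div_pow, sq_abs]
      ring
    have hπ2 : Real.pi ^ 2 < 10 := by
      have := Real.pi_lt_d2
      nlinarith
    have hθ2 : 0 < θ ^ 2 := by
      rw [← sq_abs]
      positivity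
    rw [h5]
    refine lt_of_le_of_lt (hlog.trans h3) ?_
    rw [lt_div_iff₀ (by positivity)]
    have h6 : c * (64 * θ ^ 2) * (4 * Real.pi ^ 2) = (256 * c * Real.pi ^ 2) * θ ^ 2 := by ring
    rw [h6]
    refine mul_lt_mul_of_pos_right ?_ hθ2
    have h7 : 256 * c * Real.pi ^ 2 ≤ 256 * c * 10 := by
      have : 0 ≤ 256 * c := by positivity
      exact mul_le_mul_of_nonneg_left hπ2.le this
    linarith
  · rw [Complex.log_re]
    have h3 : c * ‖1 - v‖ ^ 2 ≤ ‖1 - v‖ / 2 := hhalf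
    have h4 : c * ‖1 - v‖ ^ 2 ≤ c * 3 ^ 2 :=
      mul_le_mul_of_nonneg_left (pow_le_pow_left₀ hd0.le hd3 2) hc0.le
    linarith

end MOB_

theorem p_MOB : T_MOB := ⟨MOB_.part1, MOB_.part2, MOB_.part3, MOB_.part4⟩

end Pool.Agent.AEN
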