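import Pool.Agent.AEN.Targets
import Pool.Agent.MEX.Targets
import Pool.Agent.Multibrot.Contract

/-!
# AEN: MVA, the derivative of an injective map in terms of the area
-/

set_option autoImplicit false

open Complex Filter Topology Set MeasureTheory
open Pool.Agent.Multibrot (MM)
open Pool.Agent.Limb (F)
open Pool.Agent.PLim (Rho LocFix)
open Pool.Agent.MEX (Exa)
open Pool.Agent.MEY (Pt)
open Pool.Agent.PSat (Comp Sat)
open Pool.Agent.MEZ (T_AEL T_NCZ T_SECZ NCZk SECZk Fz)

namespace Pool.Agent.AEN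

namespace MVA_

open Pool.Agent.Multibrot

/-- The area formula for an injective holomorphic map on a ball. -/
theorem area (p : ℂ) (s : ℝ) (G : ℂ → ℂ) (hG : DifferentiableOn ℂ G (Metric.ball p s))
    (hinj : InjOn G (Metric.ball p s)) :
    ∫⁻ z in Metric.ball p s, ‖deriv G z ^ 2‖ₑ = volume (G '' Metric.ball p s) := by
  have hmeas : MeasurableSet (Metric.ball p s) := measurableSet_ball
  have hder : ∀ x ∈ Metric.ball p s,
      HasFDerivWithinAt G (mulR (deriv G x)) (Metric.ball p s) x := fun x hx =>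
    (hasFDerivAt_of_hasDerivAt
      (hG.differentiableAt (Metric.isOpen_ball.mem_nhds hx)).hasDerivAt).hasFDerivWithinAt
  rw [← lintegral_abs_det_fderiv_eq_addHaar_image volume hmeas hder hinj]
  refine setLIntegral_congr_fun hmeas fun x _ => ?_
  have h1 : ENNReal.ofReal |(mulR (deriv G x)).det| = ‖deriv G x ^ 2‖ₑ := by
    rw [mulR_det, abs_of_nonneg (by positivity), ← norm_pow, ofReal_norm]
  simp only [h1]

end MVA_

theorem p_MVA (h : Pool.Agent.MEX.T_MVL) : T_MVA := by
  intro p s b G hs hb hG hinj hvol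
  have hd : DifferentiableOn ℂ (fun z => deriv G z ^ 2) (Metric.ball p s) :=
    (hG.deriv Metric.isOpen_ball).pow 2
  have h1 := h p s (fun z => deriv G z ^ 2) hs hd
  rw [MVA_.area p s G hG hinj] at h1
  have h2 : Real.pi * s ^ 2 * ‖deriv G p ^ 2‖ ≤ b ^ 4 :=
    (ENNReal.ofReal_le_ofReal_iff (by positivity)).1 (h1.trans hvol)
  rw [norm_pow] at h2
  rw [le_div_iff₀ hs]
  have hpi : (1 : ℝ) ≤ Real.pi := by linarith [Real.pi_gt_three]
  have h3 : (‖deriv G p‖ * s) ^ 2 ≤ (b ^ 2) ^ 2 := by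
    have : 1 * (s ^ 2 * ‖deriv G p‖ ^ 2) ≤ Real.pi * (s ^ 2 * ‖deriv G p‖ ^ 2) :=
      mul_le_mul_of_nonneg_right hpi (by positivity)
    nlinarith
  exact (pow_le_pow_iff_left₀ (by positivity) (by positivity) two_ne_zero).1 h3

end Pool.Agent.AEN
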