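import Pool.Agent.AEN.Targets2

/-!
# AEN: NBD2, the derivative on the closed half plane
-/

set_option autoImplicit false

open Complex Filter Topology Set MeasureTheory
open Pool.Agent.Multibrot (MM)
open Pool.Agent.Limb (F)
open Pool.Agent.PLim (Rho LocFix)
open Pool.Agent.MEX (Exa)
open Pool.Agent.MEY (Pt)
open Pool.Agent.PSat (Comp Sat)
open Pool.Agent.MEZ (T_AEL T_NCZ T_SECZ NCZk SECZk Fz)

namespace Pool.Agent.AEN

namespace NBD2_

theorem ball_Hp {m : ℂ} : Metric.ball m m.re ⊆ Hp := by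
  intro z hz
  rw [mem_ball_iff_norm] at hz
  have h1 := (abs_lt.mp (lt_of_le_of_lt (abs_re_le_norm (z - m)) hz)).1
  rw [sub_re] at h1
  show 0 < z.re
  linarith

theorem isOpen_Hk (κ : ℝ) : IsOpen (Hk κ) := isOpen_lt continuous_const continuous_re

/-- the first part -/
theorem part1 (h₁ : T_MVA) {κ b : ℝ} {Q : ℂ → ℂ} (h : Uv κ b Q) (m : ℂ) (hm : 0 < m.re) :
    ‖deriv Q m‖ ≤ b ^ 2 / m.re := by
  have hsub : Metric.ball m m.re ⊆ Hp := ball_Hp
  refine h₁ m m.re b Q hm h.hb.le (h.dQ.mono fun z hz => ?_) (h.inj.mono hsub)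
    (le_trans (measure_mono (image_mono hsub)) h.ar)
  have h1 : 0 < z.re := hsub hz
  have h2 := h.hκ
  show -κ < z.re
  linarith

/-- Cauchy's estimate -/
theorem cauchy {κ b : ℝ} {Q : ℂ → ℂ} (h : Uv κ b Q) (z : ℂ) (hz : -(κ / 2) ≤ z.re) :
    ‖deriv Q z‖ ≤ 64 / κ := by
  have hκ := h.hκ
  have hsub : Metric.closedBall z (κ / 4) ⊆ Hk κ := by
    intro w hw
    rw [mem_closedBall_iff_norm] at hw
    have h1 := (abs_le.mp ((abs_re_le_norm (w - z)).trans hw)).1
    rw [sub_re] at h1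
    show -κ < w.re
    linarith
  have hd : DiffContOnCl ℂ Q (Metric.ball z (κ / 4)) :=
    (h.dQ.mono hsub).diffContOnCl_ball subset_rfl
  have h2 := norm_deriv_le_of_forall_mem_sphere_norm_le (by positivity : 0 < κ / 4) hd
    (fun w hw => h.bd w (hsub (Metric.sphere_subset_closedBall hw)))
  refine h2.trans (le_of_eq ?_)
  field_simp
  norm_num

theorem log16 : Real.log 16 ≤ 3 := by
  have h1 : (16 : ℝ) = 2 ^ 4 := by norm_num
  rw [h1, Real.log_pow]
  have := Real.log_two_lt_d9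
  push_cast
  linarith

/-- the interpolation -/
theorem interp {κ b l : ℝ} (hκ : 0 < κ) (hb : 0 < b) (hl : 1 ≤ l)
    (hlb : l = 1 + Real.log (1 / b)) {x : ℝ} (hx0 : 0 ≤ x) (hx1 : x ≤ κ / (4 * l))
    (hKB : 4 * l * b ^ 2 / κ < 64 / κ) :
    (64 / κ) ^ (1 - (x - -(κ / 2)) / (κ / (4 * l) - -(κ / 2))) *
      (4 * l * b ^ 2 / κ) ^ ((x - -(κ / 2)) / (κ / (4 * l) - -(κ / 2))) ≤
      11 * b ^ 2 * l / κ := by
  have hl0 : 0 < l := by linarith
  set B : ℝ := 4 * l * b ^ 2 / κ with hB
  set K : ℝ := 64 / κ with hK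
  set t : ℝ := (x - -(κ / 2)) / (κ / (4 * l) - -(κ / 2)) with ht
  have hB0 : 0 < B := by positivity
  have hK0 : 0 < K := by positivity
  have hη : 0 < κ / (4 * l) := by positivity
  have ht1 : t ≤ 1 := by
    rw [ht, div_le_one (by linarith)]
    linarith
  have ht0 : 1 - t ≤ 1 / (2 * l + 1) := by
    have h1 : 1 - t = (κ / (4 * l) - x) / (κ / (4 * l) - -(κ / 2)) := by
      rw [ht, eq_div_iff (by linarith), sub_mul, div_mul_cancel₀ _ (by linarith)]
      ring
    rw [h1, div_le_div_iff₀ (by linarith) (by linarith)]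
    have h2 : κ / (4 * l) - -(κ / 2) = κ / (4 * l) * (2 * l + 1) := by
      field_simp
      ring
    rw [h2, one_mul]
    refine mul_le_mul_of_nonneg_right (by linarith) (by linarith)
  have hKBr : K / B = 16 / (l * b ^ 2) := by
    rw [hK, hB]
    field_simp
    norm_num
  have hKB1 : 1 ≤ K / B := by
    rw [one_le_div hB0]
    exact hKB.le
  have hlog : Real.log (K / B) ≤ 2 * l + 1 := by
    have h1 : K / B ≤ 16 * (1 / b) ^ 2 := by
      rw [hKBr, one_div_pow, mul_one_div]
      refine div_le_div_of_nonneg_left (by norm_num) (by positivity) ?_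
      nlinarith [sq_nonneg b]
    have h2 : Real.log (K / B) ≤ Real.log (16 * (1 / b) ^ 2) :=
      Real.log_le_log (by positivity) h1
    rw [Real.log_mul (by norm_num) (by positivity), Real.log_pow] at h2
    have h3 := log16
    push_cast at h2
    linarith
  have h1 : K ^ (1 - t) * B ^ t = B * (K / B) ^ (1 - t) := by
    rw [Real.div_rpow hK0.le hB0.le]
    have h2 : B ^ t = B / B ^ (1 - t) := by
      rw [eq_div_iff (by positivity), ← Real.rpow_add hB0]
      simp
    rw [h2]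
    ring
  rw [h1]
  have h3 : (K / B) ^ (1 - t) ≤ Real.exp 1 := by
    rw [Real.rpow_def_of_pos (by positivity)]
    refine Real.exp_le_exp.mpr ?_
    have h4 : 0 ≤ Real.log (K / B) := Real.log_nonneg hKB1
    calc Real.log (K / B) * (1 - t) ≤ (2 * l + 1) * (1 / (2 * l + 1)) :=
          mul_le_mul hlog ht0 (by linarith) (by linarith)
      _ = 1 := by field_simp
  have he : Real.exp 1 ≤ 2.75 := by
    have := Real.exp_one_lt_d9
    linarith
  calc B * (K / B) ^ (1 - t) ≤ B * 2.75 := mul_le_mul_of_nonneg_left (h3.trans he) hB0.le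
    _ = 11 * b ^ 2 * l / κ := by
      rw [hB]
      ring

end NBD2_

open NBD2_ in
open Complex.HadamardThreeLines in
theorem p_NBD2 (h₁ : T_MVA) : T_NBD2 := by
  intro κ b Q h
  refine ⟨part1 h₁ h, fun hb1 m hm => ?_⟩
  have hκ := h.hκ
  have hb := h.hb
  set l : ℝ := 1 + Real.log (1 / b) with hl
  have hl1 : 1 ≤ l := by
    have : 0 ≤ Real.log (1 / b) := Real.log_nonneg (by rw [one_le_div hb]; exact hb1)
    linarith
  have hl0 : 0 < l := by linarith
  have hη : 0 < κ / (4 * l) := by positivity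
  have hBb : 4 * l * b ^ 2 / κ ≤ 11 * b ^ 2 * l / κ := by
    refine div_le_div_of_nonneg_right ?_ hκ.le
    have : 0 ≤ l * b ^ 2 := by positivity
    linarith
  have hηB : b ^ 2 / (κ / (4 * l)) = 4 * l * b ^ 2 / κ := by
    field_simp
  by_cases hc : κ / (4 * l) ≤ m.re
  · have h1 := part1 h₁ h m (lt_of_lt_of_le hη hc)
    have h2 : b ^ 2 / m.re ≤ b ^ 2 / (κ / (4 * l)) :=
      div_le_div_of_nonneg_left (by positivity) hη hc
    rw [hηB] at h2
    linarith
  push Not at hc
  by_cases hBK : 64 / κ ≤ 4 * l * b ^ 2 / κ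
  · exact (cauchy h m (by linarith)).trans (hBK.trans hBb)
  push Not at hBK
  have hul : -(κ / 2) < κ / (4 * l) := by linarith
  have hsub : verticalClosedStrip (-(κ / 2)) (κ / (4 * l)) ⊆ Hk κ := by
    intro z hz
    have h1 : -(κ / 2) ≤ z.re := hz.1
    show -κ < z.re
    linarith
  have hdQ : DifferentiableOn ℂ (deriv Q) (Hk κ) := h.dQ.deriv (isOpen_Hk κ)
  have hd : DiffContOnCl ℂ (deriv Q) (verticalStrip (-(κ / 2)) (κ / (4 * l))) := by
    have hcl : closure (verticalStrip (-(κ / 2)) (κ / (4 * l))) ⊆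
        verticalClosedStrip (-(κ / 2)) (κ / (4 * l)) := by
      refine closure_minimal (preimage_mono Ioo_subset_Icc_self) ?_
      exact isClosed_Icc.preimage continuous_re
    exact (hdQ.mono (hcl.trans hsub)).diffContOnCl
  have hB : BddAbove ((norm ∘ deriv Q) '' verticalClosedStrip (-(κ / 2)) (κ / (4 * l))) := by
    refine ⟨64 / κ, ?_⟩
    rintro _ ⟨z, hz, rfl⟩
    exact cauchy h z hz.1
  have h3 := norm_le_interp_of_mem_verticalClosedStrip' (f := deriv Q) (z := m) hul
    ⟨by linarith, hc.le⟩ hd hB (a := 64 / κ) (b := 4 * l * b ^ 2 / κ)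
    (fun z hz => cauchy h z (le_of_eq (by
      rw [mem_preimage, mem_singleton_iff] at hz
      exact hz.symm)))
    (fun z hz => by
      rw [mem_preimage, mem_singleton_iff] at hz
      have h4 := part1 h₁ h z (by rw [hz]; exact hη)
      rw [hz, hηB] at h4
      exact h4)
  exact h3.trans (interp hκ hb hl1 hl hm hc.le hBK)

end Pool.Agent.AEN
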