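import Pool.Agent.AEN.Targets
import Pool.Agent.PSat.Basic

/-!
# AEN: NM1, an attracting cycle excludes multipliers one
-/

set_option autoImplicit false

open Complex Filter Topology Set MeasureTheory
open Pool.Agent.Multibrot (MM)
open Pool.Agent.Limb (F)
open Pool.Agent.PLim (Rho LocFix)
open Pool.Agent.MEX (Exa)
open Pool.Agent.MEY (Pt)
open Pool.Agent.PSat (Comp Sat)
open Pool.Agent.MEZ (T_AEL T_NCZ T_SECZ NCZk SECZk Fz)

namespace Pool.Agent.AEN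

namespace NM1_

/-- the two cycles are different -/
lemma sep {k K : ℕ} {c z z' : ℂ} (hk : 1 ≤ k) (hz : (F 2 c)^[K] z = z)
    (hR : ‖Rho 2 K c z‖ < 1) (hz' : (F 2 c)^[k] z' = z') (hR' : Rho 2 k c z' = 1) (j : ℕ) :
    (F 2 c)^[j] z ≠ z' := by
  intro h
  have h1 : (F 2 c)^[K] z' = z' := by
    rw [← h]
    exact Pool.Agent.PSat.fix_iter hz j
  have h2 : Rho 2 K c z' = Rho 2 K c z := by
    rw [← h]
    exact Pool.Agent.PSat.rho_iter hz j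
  have h3 : Rho 2 (K * k) c z' = Rho 2 K c z' ^ k := Pool.Agent.PSat.rho_mul h1 k
  have h4 : Rho 2 (k * K) c z' = Rho 2 k c z' ^ K := Pool.Agent.PSat.rho_mul hz' K
  rw [Nat.mul_comm, h4, hR', one_pow, h2] at h3
  have h5 : ‖Rho 2 K c z ^ k‖ < 1 := by
    rw [norm_pow]
    exact pow_lt_one₀ (norm_nonneg _) hR (by omega)
  rw [← h3, norm_one] at h5
  exact lt_irrefl _ h5

end NM1_

open NM1_ in
theorem p_NM1 (h₁ : T_MPG) (h₂ : Pool.Agent.PLim.T_ATN) (h₃ : Pool.Agent.PLim.T_FINF)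
    (h₄ : Pool.Agent.PLim.T_LOCZ) : T_NM1 := by
  intro k K c z z' hk hK hz hR hz' hR'
  have hne : Rho 2 K c z ≠ 1 := by
    intro h
    rw [h, norm_one] at hR
    exact lt_irrefl _ hR
  obtain ⟨δ, r, zf, -, -, hL⟩ := h₄ 2 K c z 1 le_rfl one_pos hz hne
  have hzf : ContinuousAt zf c :=
    (hL.diff.differentiableAt (Metric.ball_mem_nhds _ hL.hδ)).continuousAt
  have hpair : ContinuousAt (fun c' : ℂ => (c', zf c')) c := continuousAt_id.prodMk hzf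
  have hcR : ContinuousAt (fun c' : ℂ => Rho 2 K c' (zf c')) c :=
    ContinuousAt.comp (f := fun c' : ℂ => (c', zf c'))
      (g := fun q : ℂ × ℂ => Rho 2 K q.1 q.2)
      (Pool.Agent.PLim.CNT_contR 2 K).continuousAt hpair
  have hcI : ∀ j : ℕ, ContinuousAt (fun c' : ℂ => (F 2 c')^[j] (zf c')) c := fun j =>
    ContinuousAt.comp (f := fun c' : ℂ => (c', zf c'))
      (g := fun q : ℂ × ℂ => (F 2 q.1)^[j] q.2)
      (Pool.Agent.PLim.CNT_contI 2 j).continuousAt hpair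
  -- the attracting cycle persists
  have e1 : ∀ᶠ c' in 𝓝 c, ‖Rho 2 K c' (zf c')‖ < 1 := by
    have h5 := hcR.norm
    have h6 : ‖Rho 2 K c (zf c)‖ < 1 := by
      rw [hL.zf0]
      exact hR
    exact h5.eventually (gt_mem_nhds h6)
  -- it stays away from `z'`
  have e2 : ∀ᶠ q : ℂ × ℂ in 𝓝 (c, z'), ∀ j ∈ Finset.range K, (F 2 q.1)^[j] (zf q.1) ≠ q.2 := by
    rw [Filter.eventually_all_finset]
    intro j _
    have h6 : ContinuousAt (fun q : ℂ × ℂ => (F 2 q.1)^[j] (zf q.1) - q.2) (c, z') := by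
      refine ContinuousAt.sub ?_ continuous_snd.continuousAt
      exact ContinuousAt.comp (f := fun q : ℂ × ℂ => q.1)
        (g := fun c' : ℂ => (F 2 c')^[j] (zf c')) (hcI j) continuous_fst.continuousAt
    have h7 : (F 2 c)^[j] (zf c) - z' ≠ 0 := by
      rw [hL.zf0]
      exact sub_ne_zero.2 (sep hk hz hR hz' hR' j)
    filter_upwards [h6.eventually_ne h7] with q hq h8
    exact hq (sub_eq_zero.2 h8)
  -- no multiplier one nearby
  have e3 : ∀ᶠ c' in 𝓝 c, c' ≠ c → ∀ w : ℂ, (F 2 c')^[k] w = w → Rho 2 k c' w ≠ 1 := by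
    have h8 := (h₃ 2 k le_rfl hk).subset
      (Set.sdiff_subset : {c' : ℂ | ∃ w : ℂ, (F 2 c')^[k] w = w ∧ Rho 2 k c' w = 1} \ {c} ⊆ _)
    have h9 : ({c' : ℂ | ∃ w : ℂ, (F 2 c')^[k] w = w ∧ Rho 2 k c' w = 1} \ {c})ᶜ ∈ 𝓝 c :=
      h8.isClosed.isOpen_compl.mem_nhds (fun h => h.2 rfl)
    filter_upwards [h9] with c' hc' hcc w hw hRw
    exact hc' ⟨⟨w, hw, hRw⟩, hcc⟩
  have e4 : ∀ᶠ q : ℂ × ℂ in 𝓝 (c, z'), (‖Rho 2 K q.1 (zf q.1)‖ < 1 ∧
      (q.1 ≠ c → ∀ w : ℂ, (F 2 q.1)^[k] w = w → Rho 2 k q.1 w ≠ 1) ∧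
      q.1 ∈ Metric.ball c δ) ∧
      ∀ j ∈ Finset.range K, (F 2 q.1)^[j] (zf q.1) ≠ q.2 := by
    refine Filter.Eventually.and ?_ e2
    have h10 : Tendsto (fun q : ℂ × ℂ => q.1) (𝓝 (c, z')) (𝓝 c) :=
      continuous_fst.continuousAt
    exact h10.eventually (e1.and (e3.and (Metric.ball_mem_nhds _ hL.hδ)))
  obtain ⟨δ0, hδ0, hq⟩ := (Pool.Agent.PSat.near_iff (P := fun c' z'' =>
    (‖Rho 2 K c' (zf c')‖ < 1 ∧
      (c' ≠ c → ∀ w : ℂ, (F 2 c')^[k] w = w → Rho 2 k c' w ≠ 1) ∧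
      c' ∈ Metric.ball c δ) ∧
      ∀ j ∈ Finset.range K, (F 2 c')^[j] (zf c') ≠ z'')).1 e4
  refine h₁ k c z' δ0 hk hz' hR' hδ0 ?_
  intro c' z'' hcc hc' hz'' hfix
  obtain ⟨⟨ha, hb, hd⟩, he⟩ := hq c' z'' hc' hz''
  by_contra hcon
  have hle : ‖Rho 2 k c' z''‖ ≤ 1 := not_lt.mp hcon
  obtain ⟨j, hj⟩ := h₂ 2 K k c' (zf c') z'' le_rfl hK hk (hL.fix c' hd) hfix ha hle
    (hb hcc z'' hfix)
  refine he (j % K) (Finset.mem_range.2 (Nat.mod_lt _ (by omega))) ?_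
  rw [Pool.Agent.PSat.fix_mod (hL.fix c' hd) j]
  exact hj

end Pool.Agent.AEN
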