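import Pool.Agent.AEN.Targets
import Pool.Agent.PSat.SER

/-!
# AEN: NRR, the parent cycle near the root
-/

set_option autoImplicit false

open Complex Filter Topology Set MeasureTheory
open Pool.Agent.Multibrot (MM)
open Pool.Agent.Limb (F)
open Pool.Agent.PLim (Rho LocFix)
open Pool.Agent.MEX (Exa)
open Pool.Agent.MEY (Pt)
open Pool.Agent.PSat (Comp Sat)
open Pool.Agent.MEZ (T_AEL T_NCZ T_SECZ NCZk SECZk Fz)

namespace Pool.Agent.AEN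

namespace NRR_

/-- the derivative of the inverse function -/
lemma der {L g : ℂ → ℂ} {a : ℂ} {D : ℂ} {ρ R : ℝ} (hρ : 0 < ρ) (hR : 0 < R)
    (hL : DifferentiableOn ℂ L (Metric.ball a ρ)) (hL1 : deriv L a = -D)
    (hg0 : g 0 = a) (hg : DifferentiableOn ℂ g (Metric.ball 0 R))
    (hLg : ∀ ν ∈ Metric.ball (0 : ℂ) R, L (g ν) = exp ν) (hD : D ≠ 0) :
    deriv g 0 = -1 / D := by
  have h1 : HasDerivAt L (-D) (g 0) := by
    rw [hg0, ← hL1]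
    exact (hL.differentiableAt (Metric.ball_mem_nhds a hρ)).hasDerivAt
  have h2 : HasDerivAt g (deriv g 0) 0 :=
    (hg.differentiableAt (Metric.ball_mem_nhds 0 hR)).hasDerivAt
  have h3 : HasDerivAt (fun ν => L (g ν)) (-D * deriv g 0) 0 := h1.comp 0 h2
  have h4 : HasDerivAt (fun ν => L (g ν)) (exp 0) 0 :=
    (hasDerivAt_exp 0).congr_of_eventuallyEq
      (Filter.eventually_of_mem (Metric.ball_mem_nhds 0 hR) hLg)
  have h5 := h3.unique h4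
  rw [exp_zero] at h5
  rw [eq_div_iff hD]
  linear_combination -h5

end NRR_

open NRR_ in
theorem p_NRR (h₁ : Pool.Agent.PSat.T_CST) (h₂ : Pool.Agent.PSat.T_MKD)
    (h₃ : Pool.Agent.PSat.T_ROT) (h₄ : Pool.Agent.PSat.T_BCI)
    (h₅ : Pool.Agent.PSat.T_IDN) : T_NRR := by
  intro K k p q P r0 z0 hcomp hKk hp hpq hcop hlim hpt
  obtain ⟨C1, hC1, hCst⟩ := h₁
  obtain ⟨c0, hc0, hc1, hB⟩ := h₄
  have hK0 : 0 < k * q := by
    have := hcomp.hK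
    omega
  have hk : 1 ≤ k := Nat.pos_of_mul_pos_right hK0
  obtain ⟨X, hXC, hXk, hXp, hXq, hXρ, hXψ, hXχ, hX⟩ :=
    h₂ C1 k p q r0 z0 hC1 hCst hk hp hpq hcop hpt
  have hq1 : 1 ≤ q := by omega
  have hCst' : Pool.Agent.PSat.Cst X.C1 := by rw [hXC]; exact hCst
  obtain ⟨L, T, hRt⟩ := h₃ X hX hCst'
  have hXK : X.K = K := by
    show X.k * X.q = K
    rw [hXk, hXq, hKk]
  have hqpos : (0 : ℝ) < X.q := by
    have := hX.hq
    exact_mod_cast (by omega : 0 < X.q)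
  have hDρ : (X.q : ℝ) ^ 2 * X.ρ ≤ 1 := by
    rw [hXρ, hXq, Pool.Agent.PSat.SER_.qrho hC1 hk hq1]
    obtain ⟨h1, -⟩ := Pool.Agent.PSat.SER_.Mle hC1 hk hq1
    rw [div_le_one (by linarith)]
    exact h1
  have hDρ0 : 0 < (X.q : ℝ) ^ 2 * X.ρ := mul_pos (by positivity) hX.hρ
  have hA : (1 : ℝ) ≤ 3 * X.K := by
    have h1 : (2 : ℝ) ≤ X.K := by exact_mod_cast hX.hK
    linarith
  obtain ⟨g, hg0, hgd, hgp⟩ := hB X.m0 X.ρ ((X.q : ℝ) ^ 2) (3 * X.K) L hX.hρ (by positivity)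
    hDρ hA hRt.dL hRt.L0 (by rw [hRt.L1]; push_cast; ring) hRt.bd hRt.ne
  set R1 : ℝ := c0 * ((X.q : ℝ) ^ 2 * X.ρ) /
    (3 * X.K + Real.log (1 / ((X.q : ℝ) ^ 2 * X.ρ))) with hR1def
  have hR1 : 0 < R1 := by
    have h1 : 0 ≤ Real.log (1 / ((X.q : ℝ) ^ 2 * X.ρ)) :=
      Real.log_nonneg ((one_le_div hDρ0).2 hDρ)
    exact div_pos (mul_pos hc0 hDρ0) (by linarith)
  have hR0 : 0 < min R1 1 := lt_min hR1 one_pos
  have hsub : Metric.ball (0 : ℂ) (min R1 1) ⊆ Metric.ball (0 : ℂ) R1 :=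
    Metric.ball_subset_ball (min_le_left _ _)
  have hgd' : DifferentiableOn ℂ g (Metric.ball 0 (min R1 1)) := hgd.mono hsub
  have hm : X.m0 = 2 * Real.pi * I * p / q := by
    show ((2 * Real.pi * X.p / X.q : ℝ) : ℂ) * I = _
    rw [hXp, hXq]
    push_cast
    ring
  have hqc : (q : ℂ) ^ 2 ≠ 0 := by
    have h1 : (q : ℂ) ≠ 0 := by
      exact_mod_cast (by omega : q ≠ 0)
    exact pow_ne_zero 2 h1
  have hder : deriv g 0 = -1 / (q : ℂ) ^ 2 :=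
    der hX.hρ hR0 hRt.dL (by rw [hRt.L1, hXq]) hg0 hgd'
      (fun ν hν => (hgp ν (hsub hν)).2.1) hqc
  refine ⟨min R1 1, fun ν => g ν - X.m0, fun ν => X.χ (g ν), hR0, ?_, ?_, ?_, ?_, ?_, ?_⟩
  · exact hgd'.sub_const X.m0
  · exact hX.dχ.comp hgd' fun ν hν => hX.sub2 (hgp ν (hsub hν)).1
  · show g 0 - X.m0 = 0
    rw [hg0, sub_self]
  · show X.χ (g 0) = z0
    rw [hg0, hXχ]
  · rw [deriv_sub_const, hder]
  · intro ν hν hre
    have hP' : Comp X.K P := by rw [hXK]; exact hcomp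
    have hlim' : Tendsto P (𝓝[Metric.ball 0 1] 1) (𝓝 (X.ψ X.m0)) := by rw [hXψ]; exact hlim
    have h1 : P (exp ν) = X.ψ (g ν) :=
      h₅ X hX L T hRt g (min R1 1) hR0 (min_le_right _ _) hg0 hgd'
        (fun ν hν => ⟨(hgp ν (hsub hν)).1, (hgp ν (hsub hν)).2.1, (hgp ν (hsub hν)).2.2.1⟩)
        P hP' hlim' ν hν hre
    have h2 := hX.pt (g ν) (hX.sub2 (hgp ν (hsub hν)).1)
    rw [hXk] at h2
    rw [h1]
    show Pt 2 k (X.ψ (g ν)) (X.χ (g ν)) (exp (2 * Real.pi * I * p / q + (g ν - X.m0)))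
    rw [← hm, add_sub_cancel]
    exact h2

end Pool.Agent.AEN
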