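import Pool.Agent.AEN.Targets
import Pool.Agent.PLim.Targets

/-!
# AEN, RGS: regularity over the strip
-/

set_option autoImplicit false

open Complex Filter Topology Set MeasureTheory
open Pool.Agent.Multibrot (MM)
open Pool.Agent.Limb (F)
open Pool.Agent.PLim (Rho LocFix)
open Pool.Agent.MEX (Exa)
open Pool.Agent.MEY (Pt)
open Pool.Agent.PSat (Comp Sat)
open Pool.Agent.MEZ (T_AEL T_NCZ T_SECZ NCZk SECZk Fz)

namespace Pool.Agent.AEN

namespace RGS_

/-- the multiplier on the strip: bounded, and non-vanishing derivative -/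
lemma main (h₁ : T_MOB) (h₂ : Pool.Agent.PLim.T_BIG) (h₄ : Pool.Agent.PLim.T_TRANS) {κ : ℝ}
    (hκ : 0 < κ) (hκ1 : κ ≤ 1) (hN : NCZk κ) {k : ℕ} (hk : 1 ≤ k) {c z m : ℂ}
    (hm : m ∈ St (κ / 5000)) (hp : Pt 2 k c z (vm m)) :
    ‖c‖ < 16 ∧ ∀ (ε r : ℝ) (zf : ℂ → ℂ), LocFix 2 k c z ε r zf →
      deriv (fun c => Rho 2 k c (zf c)) c ≠ 0 := by
  obtain ⟨hA, -, -, hB⟩ := h₁
  obtain ⟨hm1, hm2⟩ := hm
  have hm3 : -(1 / 2) < m.re := by linarith
  obtain ⟨-, hne, -, -, hle, h0⟩ := hA m hm3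
  have hv0 : vm m ≠ 0 := by
    intro h
    have h' := h0.1 h
    rw [h'] at hm2
    norm_num at hm2
  rcases le_or_gt 0 m.re with hre | hre
  · have hv1 : ‖vm m‖ ≤ 1 := hle.2 hre
    constructor
    · by_contra hc
      have h := h₂ 2 k c z le_rfl hk (not_lt.1 hc) hp.fix
      rw [hp.mul] at h
      have := Real.add_one_le_exp (1 : ℝ)
      linarith
    · intro ε r zf hL
      exact h₄ 2 k c z ε r zf le_rfl hk hL (by rw [hp.mul]; exact hv0)
        (by rw [hp.mul]; exact hv1) (by rw [hp.mul]; exact hne)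
  · obtain ⟨μ, δ, he, hδ, hF, hμ, hμ1⟩ := hB κ m hκ hκ1 hm1 hre
    constructor
    · by_contra hc
      have h := h₂ 2 k c z le_rfl hk (not_lt.1 hc) hp.fix
      rw [hp.mul, ← he, Complex.norm_exp] at h
      have := Real.exp_le_exp.2 hμ1
      linarith
    · intro ε r zf hL
      exact hN 2 k c z μ δ ε r zf le_rfl hk hL hp.exa (by rw [hp.mul, he]) hδ hF hμ

end RGS_

/-- RGS: regularity over the strip. -/
theorem p_RGS (h₁ : T_MOB) (h₂ : Pool.Agent.PLim.T_BIG) (h₃ : Pool.Agent.PLim.T_LOCZ)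
    (h₄ : Pool.Agent.PLim.T_TRANS) : T_RGS := by
  intro κ hκ hκ1 hN k hk
  refine ⟨fun m hm => ?_, fun c z m hm hp => ?_⟩
  · have hm3 : -(1 / 2) < m.re := by
      have := hm.1
      linarith
    exact (h₁.1 m hm3).2.1
  · obtain ⟨hc, hd⟩ := RGS_.main h₁ h₂ h₄ hκ hκ1 hN hk hm hp
    have hm3 : -(1 / 2) < m.re := by
      have := hm.1
      linarith
    have hne : Rho 2 k c z ≠ 1 := by
      rw [hp.mul]
      exact (h₁.1 m hm3).2.1
    obtain ⟨ε, r, zf, -, -, hL⟩ := h₃ 2 k c z 1 le_rfl one_pos hp.fix hne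
    exact ⟨hc, ε, r, zf, hL, hd ε r zf hL⟩

end Pool.Agent.AEN
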