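import Pool.Agent.AEN.Targets

/-!
# AEN: the points of smaller period are repelling
-/

set_option autoImplicit false

open Complex Filter Topology Set MeasureTheory
open Pool.Agent.Limb (F)
open Pool.Agent.PLim (Rho)
open Pool.Agent.MEY (Pt)

namespace Pool.Agent.AEN

theorem p_RPK (h₁ : T_NM1) (h₂ : Pool.Agent.PLim.T_ATN) : T_RPK := by
  intro k K c z v z' hk hkK hP hv hz'
  by_contra hcon
  have hle : ‖Rho 2 k c z'‖ ≤ 1 := not_lt.mp hcon
  have hK : 1 ≤ K := hk.trans hkK.le
  have hR : ‖Rho 2 K c z‖ < 1 := by rw [hP.mul]; exact hv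
  have hne := h₁ k K c z z' hk hK hP.fix hR hz'
  obtain ⟨j, hj⟩ := h₂ 2 K k c z z' le_rfl hK hk hP.fix hz' hR hle hne
  have hjK : j ≤ j * K := Nat.le_mul_of_pos_right j hK
  have h3 : (F 2 c)^[j * K - j] z' = z := by
    rw [← hj, ← Function.iterate_add_apply, Nat.sub_add_cancel hjK, mul_comm,
      Function.iterate_mul]
    exact Function.iterate_fixed hP.fix j
  have h4 : (F 2 c)^[k] z = z := by
    conv_lhs => rw [← h3]
    rw [← Function.iterate_add_apply, add_comm, Function.iterate_add_apply, hz', h3]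
  exact hP.exa k hk hkK h4

end Pool.Agent.AEN
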