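import Pool.Agent.AEN.Targets
import Pool.Agent.MEX.SECX
import Pool.Agent.MEY.LIC

/-!
# AEN, SCW: existence of sections of the multiplier over convex sets
-/

set_option autoImplicit false

open Complex Filter Topology Set MeasureTheory
open Pool.Agent.Multibrot (MM)
open Pool.Agent.Limb (F)
open Pool.Agent.PLim (Rho LocFix)
open Pool.Agent.MEX (Exa)
open Pool.Agent.MEY (Pt)
open Pool.Agent.PSat (Comp Sat)

namespace Pool.Agent.AEN

namespace SCW_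

/-- a continuous solution of an equation with an invertible derivative is differentiable -/
theorem diff_of_eq {ψ g w : ℂ → ℂ} {m : ℂ} (hψ : ContinuousAt ψ m)
    (hg : AnalyticAt ℂ g (ψ m)) (hd : deriv g (ψ m) ≠ 0) (hw : DifferentiableAt ℂ w m)
    (he : ∀ᶠ ν in 𝓝 m, g (ψ ν) = w ν) : DifferentiableAt ℂ ψ m := by
  have hs : HasStrictDerivAt g (deriv g (ψ m)) (ψ m) := hg.hasStrictDerivAt
  have h1 := hs.to_localInverse (hf' := hd)
  have h2 : ∀ᶠ x in 𝓝 (ψ m), hs.localInverse g _ _ hd (g x) = x :=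
    (hs.hasStrictFDerivAt_equiv hd).eventually_left_inverse
  have h3 : ψ =ᶠ[𝓝 m] fun ν => hs.localInverse g _ _ hd (w ν) := by
    filter_upwards [hψ.eventually h2, he] with ν a b
    rw [← b, a]
  refine DifferentiableAt.congr_of_eventuallyEq ?_ h3
  have h4 : g (ψ m) = w m := he.self_of_nhds
  rw [h4] at h1
  exact h1.hasDerivAt.differentiableAt.comp m hw

end SCW_

open Pool.Agent.MEX.SECX_ in
open Pool.Agent.PLim (CNT_contI CNT_contR CNT_diffR CNT_root p_LOCZ p_BIG) in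
theorem p_SCW : T_SCW := by
  intro k W w hk hWo hWc hwd hG r z0 μ0 hμ0 hP0
  have hn : 2 ≤ 2 := le_rfl
  have hBne : ∀ μ ∈ W, w μ ≠ 1 := hG.ne
  have hwc : ContinuousOn w W := hwd.continuousOn
  have hgood : ∀ c z μ : ℂ, μ ∈ W → (F 2 c)^[k] z = z → Rho 2 k c z = w μ → Exa 2 k c z →
      ‖c‖ < 16 ∧ ∃ (δ' r' : ℝ) (zf : ℂ → ℂ), LocFix 2 k c z δ' r' zf ∧
        deriv (fun c => Rho 2 k c (zf c)) c ≠ 0 := by
    intro c z μ hμ hfix hRho hexa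
    exact hG.pt c z μ hμ ⟨hfix, hexa, hRho⟩
  -- the covering
  have hEc : CompactSpace (EX 2 k) := isCompact_iff_compactSpace.mp (EX_compact hn hk)
  have hloc : IsLocalHomeomorphOn (ff 2 k) (ff 2 k ⁻¹' (w '' W)) := by
    rw [isLocalHomeomorphOn_iff_isOpenEmbedding_restrict]
    rintro x ⟨μ, hμ, hx⟩
    have hex : Exa 2 k x.1.1 x.1.2 := EX_exact hn hk x.2 (by
      have : Rho 2 k x.1.1 x.1.2 = w μ := hx.symm
      rw [this]
      exact hBne μ hμ)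
    obtain ⟨h1, δ', r', zf, hL, hd⟩ := hgood x.1.1 x.1.2 μ hμ (EX_sub hn hk x.2).1 hx.symm hex
    exact ff_local hn hk x h1 hex hL hd
  have cov := IsCoveringMapOn.of_isLocalHomeomorphOn (ff_cont 2 k) hloc
  have hcontr : ContractibleSpace W := hWc.contractibleSpace ⟨μ0, hμ0⟩
  have hlpc : LocallyPathConnectedSpace W := hWo.locallyPathConnectedSpace
  let fB : C(W, ℂ) := ⟨fun μ => w μ.1, by
    rw [continuousOn_iff_continuous_domRestrict] at hwc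
    exact hwc⟩
  obtain ⟨hz, hEx, hR⟩ := hP0
  have hr16 : ‖r‖ < 16 := (hgood r z0 _ hμ0 hz hR hEx).1
  obtain ⟨Fl, ⟨hF0, hF⟩, -⟩ := cov.existsUnique_continuousMap_lifts fB
    (a₀ := ⟨μ0, hμ0⟩) (e₀ := ⟨(r, z0), subset_closure ⟨⟨hz, hr16.le⟩, hEx⟩⟩) (by
      show Rho 2 k r z0 = w μ0
      rw [hR]) (fun a => ⟨a.1, a.2, rfl⟩)
  classical
  set ψ : ℂ → ℂ := fun μ => if h : μ ∈ W then (Fl ⟨μ, h⟩).1.1 else 0 with hψ
  set χ : ℂ → ℂ := fun μ => if h : μ ∈ W then (Fl ⟨μ, h⟩).1.2 else 0 with hχ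
  have hψv : ∀ (μ : ℂ) (h : μ ∈ W), ψ μ = (Fl ⟨μ, h⟩).1.1 := fun μ h => by
    simp only [hψ, dif_pos h]
  have hχv : ∀ (μ : ℂ) (h : μ ∈ W), χ μ = (Fl ⟨μ, h⟩).1.2 := fun μ h => by
    simp only [hχ, dif_pos h]
  have hψc : ContinuousOn ψ W := by
    rw [continuousOn_iff_continuous_domRestrict]
    have : W.domRestrict ψ = fun μ : W => (Fl μ).1.1 := by
      funext μ
      exact hψv μ.1 μ.2
    rw [this]
    exact continuous_fst.comp (continuous_subtype_val.comp Fl.continuous)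
  have hχc : ContinuousOn χ W := by
    rw [continuousOn_iff_continuous_domRestrict]
    have : W.domRestrict χ = fun μ : W => (Fl μ).1.2 := by
      funext μ
      exact hχv μ.1 μ.2
    rw [this]
    exact continuous_snd.comp (continuous_subtype_val.comp Fl.continuous)
  have hfixμ : ∀ μ ∈ W, (F 2 (ψ μ))^[k] (χ μ) = χ μ ∧ Rho 2 k (ψ μ) (χ μ) = w μ ∧
      ‖ψ μ‖ ≤ 16 ∧ Exa 2 k (ψ μ) (χ μ) := by
    intro μ hμ
    rw [hψv μ hμ, hχv μ hμ]
    have hEE := EX_sub hn hk (Fl ⟨μ, hμ⟩).2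
    have hRho : Rho 2 k (Fl ⟨μ, hμ⟩).1.1 (Fl ⟨μ, hμ⟩).1.2 = w μ := congrFun hF ⟨μ, hμ⟩
    exact ⟨hEE.1, hRho, hEE.2, EX_exact hn hk (Fl ⟨μ, hμ⟩).2 (by
      rw [hRho]
      exact hBne μ hμ)⟩
  have hderiv : ∀ μ ∈ W, DifferentiableAt ℂ ψ μ ∧ DifferentiableAt ℂ χ μ := by
    intro μ hμ
    obtain ⟨h1, h2, h3, h4⟩ := hfixμ μ hμ
    obtain ⟨-, δ', r', zf, hL, hd⟩ := hgood (ψ μ) (χ μ) μ hμ h1 h2 h4
    have hBn : W ∈ 𝓝 μ := hWo.mem_nhds hμ
    have hψa : ContinuousAt ψ μ := hψc.continuousAt hBn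
    have hχa : ContinuousAt χ μ := hχc.continuousAt hBn
    have hgd : DifferentiableOn ℂ (fun c => Rho 2 k c (zf c)) (Metric.ball (ψ μ) δ') :=
      CNT_diffR 2 k zf _ hL.diff
    have a1 : ∀ᶠ ν in 𝓝 μ, ψ ν ∈ Metric.ball (ψ μ) δ' :=
      hψa.eventually (Metric.ball_mem_nhds _ hL.hδ)
    have a2 : ∀ᶠ ν in 𝓝 μ, χ ν ∈ Metric.ball (χ μ) r' :=
      hχa.eventually (Metric.ball_mem_nhds _ hL.hr)
    have hzf : χ =ᶠ[𝓝 μ] fun ν => zf (ψ ν) := by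
      filter_upwards [hBn, a1, a2] with ν b0 b1 b2
      exact hL.uniq (ψ ν) b1 (χ ν) b2 (hfixμ ν b0).1
    have hfg : ∀ᶠ ν in 𝓝 μ, (fun c => Rho 2 k c (zf c)) (ψ ν) = w ν := by
      filter_upwards [hBn, hzf] with ν b0 b4
      show Rho 2 k (ψ ν) (zf (ψ ν)) = w ν
      rw [← b4]
      exact (hfixμ ν b0).2.1
    have hψd : DifferentiableAt ℂ ψ μ := SCW_.diff_of_eq hψa
      (hgd.analyticAt (Metric.ball_mem_nhds _ hL.hδ)) hd (hwd.differentiableAt hBn) hfg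
    refine ⟨hψd, ?_⟩
    refine DifferentiableAt.congr_of_eventuallyEq ?_ hzf
    exact (hL.diff.differentiableAt (Metric.ball_mem_nhds _ hL.hδ)).comp μ hψd
  refine ⟨ψ, χ, ⟨?_, ?_, ?_, ?_⟩, ?_, ?_⟩
  · intro μ hμ
    exact (hderiv μ hμ).1.differentiableWithinAt
  · intro μ hμ
    exact (hderiv μ hμ).2.differentiableWithinAt
  · intro μ hμ
    obtain ⟨h1, h2, h3, h4⟩ := hfixμ μ hμ
    exact ⟨h1, h4, h2⟩
  · intro μ hμ
    exact (hfixμ μ hμ).2.2.1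
  · rw [hψv _ hμ0, hF0]
  · rw [hχv _ hμ0, hF0]

end Pool.Agent.AEN
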