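import Pool.Agent.AEN.Targets
import Pool.Agent.MEY.LUQ

/-!
# AEN, TAL: the tail
-/

set_option autoImplicit false

open Complex Filter Topology Set MeasureTheory
open Pool.Agent.Multibrot (MM)
open Pool.Agent.Limb (F)
open Pool.Agent.PLim (Rho LocFix)
open Pool.Agent.MEX (Exa)
open Pool.Agent.MEY (Pt)
open Pool.Agent.PSat (Comp Sat)
open Pool.Agent.MEZ (T_AEL T_NCZ T_SECZ NCZk SECZk Fz)

namespace Pool.Agent.AEN

namespace TAL_

/-- the bound for `x` from the Julia lemma -/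
lemma xbd (h₁ : T_JUL) {k p q : ℕ} {r0 z0 : ℂ} {Q Z x : ℂ → ℂ} (hq : 0 < q)
    (hP : Par k p q r0 z0 Q Z x) {m : ℂ} (hm : m ∈ Hp) :
    ‖x m‖ ≤ 1 / ((q : ℝ) ^ 2 * m.re) := by
  have hx0 : ∀ m ∈ Hp, x m ≠ 0 := by
    intro m hm h0
    have h1 := hP.re m hm
    rw [h0] at h1
    simp at h1
  have hq' : (0 : ℝ) < q := by exact_mod_cast hq
  have hqc : ((q : ℂ) ^ 2) ≠ 0 := pow_ne_zero _ (by exact_mod_cast hq.ne')
  have hd : DifferentiableOn ℂ (fun m => ((q : ℂ) ^ 2 * x m)⁻¹) Hp := by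
    refine DifferentiableOn.inv ?_ ?_
    · exact hP.dx.const_mul _
    · intro m hm
      exact mul_ne_zero hqc (hx0 m hm)
  have hre : ∀ m ∈ Hp, 0 < (((q : ℂ) ^ 2 * x m)⁻¹).re := by
    intro m hm
    rw [Complex.inv_re]
    refine div_pos ?_ (Complex.normSq_pos.2 (mul_ne_zero hqc (hx0 m hm)))
    have h2 : ((q : ℂ) ^ 2 * x m).re = (q : ℝ) ^ 2 * (x m).re := by
      have h3 : ((q : ℂ) ^ 2) = (((q : ℝ) ^ 2 : ℝ) : ℂ) := by push_cast; ring
      rw [h3, Complex.re_ofReal_mul]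
    rw [h2]
    exact mul_pos (by positivity) (hP.re m hm)
  have hl : Tendsto (fun r : ℝ => ((q : ℂ) ^ 2 * x (r : ℂ))⁻¹ / (r : ℂ)) atTop (𝓝 1) := by
    have h4 := hP.lim.inv₀ one_ne_zero
    rw [inv_one] at h4
    refine h4.congr fun r => ?_
    rw [div_eq_mul_inv, ← mul_inv]
    congr 1
    ring
  have h5 := h₁ _ hd hre hl m hm
  have hmre : 0 < m.re := hm
  have h6 : m.re ≤ ‖((q : ℂ) ^ 2 * x m)⁻¹‖ := h5.trans (Complex.re_le_norm _)
  rw [norm_inv, norm_mul, norm_pow, Complex.norm_natCast] at h6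
  have hxn : 0 < ‖x m‖ := norm_pos_iff.2 (hx0 m hm)
  have h7 : 0 < (q : ℝ) ^ 2 * ‖x m‖ := by positivity
  rw [le_inv_comm₀ hmre h7] at h6
  rw [le_div_iff₀ (by positivity)]
  have h8 : (q : ℝ) ^ 2 * ‖x m‖ * m.re ≤ m.re⁻¹ * m.re :=
    mul_le_mul_of_nonneg_right h6 hmre.le
  rw [inv_mul_cancel₀ hmre.ne'] at h8
  linarith

/-- the fraction `p / q` is far from the integers -/
lemma fz {p q : ℕ} (hp : 0 < p) (hpq : p < q) : Fz (1 / (q : ℝ)) (2 * Real.pi * p / q) := by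
  intro m
  have hq' : (0 : ℝ) < q := by
    have : 0 < q := hp.trans hpq
    exact_mod_cast this
  have h1 : 2 * Real.pi * p / q / (2 * Real.pi) - m = ((p : ℤ) - m * q : ℤ) / (q : ℝ) := by
    push_cast
    field_simp [Real.pi_ne_zero]
  rw [h1, abs_div, abs_of_pos hq']
  refine div_le_div_of_nonneg_right ?_ hq'.le
  have h2 : ((p : ℤ) - m * q : ℤ) ≠ 0 := by
    intro h
    have h3 : (p : ℤ) = m * q := by linarith
    have hp' : (0 : ℤ) < p := by exact_mod_cast hp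
    have hpq' : (p : ℤ) < q := by exact_mod_cast hpq
    have hm1 : 0 < m := by
      by_contra hm
      have : m * q ≤ 0 := mul_nonpos_of_nonpos_of_nonneg (not_lt.1 hm) (by positivity)
      linarith
    have hm2 : (q : ℤ) ≤ m * q := le_mul_of_one_le_left (by positivity) hm1
    linarith
  have h4 := Int.one_le_abs h2
  have h5 : ((1 : ℤ) : ℝ) ≤ ((|((p : ℤ) - m * q : ℤ)| : ℤ) : ℝ) := by exact_mod_cast h4
  rwa [Int.cast_abs, Int.cast_one] at h5

/-- `exp (2 π i p / q) ≠ 1` -/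
lemma exp_ne {p q : ℕ} (hp : 0 < p) (hpq : p < q) : exp (2 * Real.pi * I * p / q) ≠ 1 := by
  intro h
  rw [Complex.exp_eq_one_iff] at h
  obtain ⟨m, hm⟩ := h
  have hq : (q : ℂ) ≠ 0 := by
    have : 0 < q := hp.trans hpq
    exact_mod_cast this.ne'
  have h1 : ((p : ℤ) - m * q : ℂ) = 0 := by
    have h2 : (2 * Real.pi * I : ℂ) ≠ 0 := Complex.two_pi_I_ne_zero
    have h3 : (2 * Real.pi * I : ℂ) * ((p : ℂ) - m * q) = 0 := by
      have h4 : (2 * Real.pi * I * p / q : ℂ) * q = 2 * Real.pi * I * p := by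
        field_simp
      rw [hm] at h4
      linear_combination (-1 : ℂ) * h4
    have h5 := (mul_eq_zero.1 h3).resolve_left h2
    push_cast
    exact h5
  have h6 : ((p : ℤ) - m * q : ℤ) = 0 := by exact_mod_cast h1
  have h7 := fz hp hpq m
  have hq' : (0 : ℝ) < q := by
    have : 0 < q := hp.trans hpq
    exact_mod_cast this
  have h8 : 2 * Real.pi * p / q / (2 * Real.pi) - m = ((p : ℤ) - m * q : ℤ) / (q : ℝ) := by
    push_cast
    field_simp [Real.pi_ne_zero]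
  rw [h8, h6] at h7
  simp at h7
  have h9 : (0 : ℝ) < (q : ℝ)⁻¹ := inv_pos.2 hq'
  linarith

end TAL_

open TAL_ in
theorem p_TAL (h₁ : T_JUL) (h₂ : Pool.Agent.PLim.T_LOCZ) (h₃ : Pool.Agent.PLim.T_TRANS) :
    T_TAL := by
  intro C2 hC2 hS k p q r0 z0 Q Z x hp hpq _ hPt hk hQ hPar m hm
  have hq : 0 < q := hp.trans hpq
  have hq' : (0 : ℝ) < q := by exact_mod_cast hq
  have hC2' : 0 < C2 := by linarith
  set τ : ℝ := 2 * Real.pi * p / q with hτ
  have hτI : (2 * Real.pi * I * p / q : ℂ) = (τ : ℂ) * I := by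
    rw [hτ]
    push_cast
    ring
  have hτ0 : 0 < τ := by
    have : (0 : ℝ) < p := by exact_mod_cast hp
    rw [hτ]
    positivity
  have hτ1 : τ < 2 * Real.pi := by
    have h1 : (p : ℝ) < q := by exact_mod_cast hpq
    rw [hτ, div_lt_iff₀ hq']
    exact mul_lt_mul_of_pos_left h1 (by positivity)
  set η : ℝ := (1 / (q : ℝ)) ^ 2 / C2 with hη
  have hη0 : 0 < η := by positivity
  have hmul : Rho 2 k r0 z0 = exp (τ * I) := by rw [hPt.mul, hτI]
  obtain ⟨ψ, χ, hψ, hχ, hψ0, hχ0, hsec⟩ := hS 2 k r0 z0 τ (1 / q) η le_rfl hk hτ0 hτ1 hPt.fix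
    hmul hPt.exa (by positivity) (fz hp hpq) rfl
  -- the half plane `C2 < Re m`
  set H2 : Set ℂ := {m : ℂ | C2 < m.re} with hH2
  have hH2p : H2 ⊆ Hp := fun m hm => lt_trans hC2' hm
  have hH2o : IsOpen H2 := isOpen_lt continuous_const Complex.continuous_re
  have hH2c : Convex ℝ H2 := convex_halfSpace_re_gt C2
  have hxη : ∀ m ∈ H2, ‖x m‖ < η := by
    intro m hm
    have h1 := xbd h₁ hq hPar (hH2p hm)
    have hm' : C2 < m.re := hm
    refine lt_of_le_of_lt h1 ?_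
    have h2 : η = 1 / ((q : ℝ) ^ 2 * C2) := by
      rw [hη]
      field_simp
    rw [h2]
    refine one_div_lt_one_div_of_lt (by positivity) ?_
    exact mul_lt_mul_of_pos_left hm' (by positivity)
  set y : ℂ → ℂ := fun m => ψ ((τ : ℂ) * I + x m) with hy
  have hmem : ∀ m ∈ H2, (τ : ℂ) * I + x m ∈ Metric.ball ((τ : ℂ) * I) η := by
    intro m hm
    rw [Metric.mem_ball, dist_eq_norm, add_sub_cancel_left]
    exact hxη m hm
  have hyd : DifferentiableOn ℂ y H2 := by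
    refine hψ.comp ?_ hmem
    exact (hPar.dx.mono hH2p).const_add _
  -- local uniqueness
  have hne1 : Rho 2 k r0 z0 ≠ 1 := by
    rw [hPt.mul]
    exact exp_ne hp hpq
  obtain ⟨ε, r, zf, -, -, hL⟩ := h₂ 2 k r0 z0 1 le_rfl one_pos hPt.fix hne1
  have hd : deriv (fun c => Rho 2 k c (zf c)) r0 ≠ 0 := by
    refine h₃ 2 k r0 z0 ε r zf le_rfl hk hL ?_ ?_ hne1
    · rw [hmul]
      exact Complex.exp_ne_zero _
    · rw [hmul, Complex.norm_exp_ofReal_mul_I]
  obtain ⟨V, hV, hVu⟩ := Pool.Agent.MEY.LUQ_.loc hL hd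
  have hball : Metric.ball z0 r ∈ 𝓝 z0 := Metric.ball_mem_nhds _ hL.hr
  have hxlim : Tendsto (fun s : ℝ => x (s : ℂ)) atTop (𝓝 0) := by
    have h1 : Tendsto (fun s : ℝ => 1 / ((q : ℝ) ^ 2 * s)) atTop (𝓝 0) := by
      have h2 : Tendsto (fun s : ℝ => (q : ℝ) ^ 2 * s) atTop atTop :=
        Tendsto.const_mul_atTop (by positivity) tendsto_id
      refine h2.inv_tendsto_atTop.congr fun s => ?_
      rw [Pi.inv_apply, one_div]
    refine squeeze_zero_norm' ?_ h1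
    filter_upwards [eventually_gt_atTop 0] with s hs
    have h2 : (s : ℂ) ∈ Hp := by
      show 0 < ((s : ℂ)).re
      simpa using hs
    have h3 := xbd h₁ hq hPar h2
    simpa using h3
  have hμlim : Tendsto (fun s : ℝ => (τ : ℂ) * I + x (s : ℂ)) atTop (𝓝 ((τ : ℂ) * I)) := by
    simpa using hxlim.const_add ((τ : ℂ) * I)
  have hcb : Metric.ball ((τ : ℂ) * I) η ∈ 𝓝 ((τ : ℂ) * I) := Metric.ball_mem_nhds _ hη0
  have hψc : Tendsto ψ (𝓝 ((τ : ℂ) * I)) (𝓝 r0) := by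
    have := (hψ.continuousOn.continuousAt hcb).tendsto
    rwa [hψ0] at this
  have hχc : Tendsto χ (𝓝 ((τ : ℂ) * I)) (𝓝 z0) := by
    have := (hχ.continuousAt hcb).tendsto
    rwa [hχ0] at this
  have hev : ∀ᶠ s : ℝ in atTop, Q (s : ℂ) = y (s : ℂ) := by
    filter_upwards [hPar.limQ hV, hPar.limZ hball, (hψc.comp hμlim) hV, (hχc.comp hμlim) hball,
      eventually_gt_atTop C2] with s a1 a2 a3 a4 a5
    have hs2 : (s : ℂ) ∈ H2 := by
      show C2 < ((s : ℂ)).re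
      simpa using a5
    obtain ⟨b1, b2, -, -, -⟩ := hsec _ (hmem _ hs2)
    have b3 := hPar.fix _ (hH2p hs2)
    have b4 := hPar.mul _ (hH2p hs2)
    rw [hτI] at b4
    exact (hVu _ a1 _ a3 _ a2 _ a4 b3 b1 (b4.trans b2.symm)).1
  -- the identity theorem
  have hQy : EqOn Q y H2 := by
    obtain ⟨N, hN⟩ := eventually_atTop.1 hev
    set s1 : ℝ := max N (C2 + 1) with hs1
    have hs1m : (s1 : ℂ) ∈ H2 := by
      show C2 < ((s1 : ℂ)).re
      have : C2 + 1 ≤ s1 := le_max_right _ _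
      simp only [Complex.ofReal_re]
      linarith
    have hAQ : AnalyticOnNhd ℂ Q H2 := (hQ.mono hH2p).analyticOnNhd hH2o
    have hAy : AnalyticOnNhd ℂ y H2 := hyd.analyticOnNhd hH2o
    refine hAQ.eqOn_of_preconnected_of_frequently_eq hAy hH2c.isPreconnected hs1m ?_
    have ht : Tendsto (fun n : ℕ => ((s1 + 1 / ((n : ℝ) + 1) : ℝ) : ℂ)) atTop (𝓝[≠] (s1 : ℂ)) := by
      rw [tendsto_nhdsWithin_iff]
      constructor
      · have h1 : Tendsto (fun n : ℕ => s1 + 1 / ((n : ℝ) + 1)) atTop (𝓝 (s1 + 0)) :=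
          tendsto_const_nhds.add tendsto_one_div_add_atTop_nhds_zero_nat
        rw [add_zero] at h1
        exact (Complex.continuous_ofReal.tendsto s1).comp h1
      · refine Eventually.of_forall fun n => ?_
        intro h
        have h2 : s1 + 1 / ((n : ℝ) + 1) = s1 := Complex.ofReal_injective h
        have h3 : 0 < 1 / ((n : ℝ) + 1) := by positivity
        linarith
    refine ht.frequently (Frequently.of_forall fun n => ?_)
    refine hN _ ?_
    have h3 : 0 < 1 / ((n : ℝ) + 1) := by positivity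
    have h4 : N ≤ s1 := le_max_left _ _
    linarith
  -- the Schwarz lemma
  have hm2 : m ∈ H2 := hm
  rw [hQy hm2]
  have hr0 : ‖r0‖ ≤ 16 := by
    have h1 := (hsec _ (Metric.mem_ball_self hη0)).2.2.1
    rwa [hψ0] at h1
  have hmaps : MapsTo ψ (Metric.ball ((τ : ℂ) * I) η)
      (Metric.closedBall (ψ ((τ : ℂ) * I)) 33) := by
    intro μ hμ
    have h1 := (hsec μ hμ).2.2.1
    rw [hψ0, Metric.mem_closedBall, dist_eq_norm]
    calc ‖ψ μ - r0‖ ≤ ‖ψ μ‖ + ‖r0‖ := norm_sub_le _ _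
      _ ≤ 33 := by linarith
  have hsch := Complex.dist_le_div_mul_dist_of_mapsTo_ball hψ hmaps (hmem m hm2)
  rw [hψ0, dist_eq_norm, dist_eq_norm, add_sub_cancel_left] at hsch
  have hmre : 0 < m.re := lt_trans hC2' hm
  calc ‖y m - r0‖ ≤ 33 / η * ‖x m‖ := hsch
    _ ≤ 33 / η * (1 / ((q : ℝ) ^ 2 * m.re)) :=
        mul_le_mul_of_nonneg_left (xbd h₁ hq hPar (hH2p hm2)) (by positivity)
    _ = 33 * C2 / m.re := by
        rw [hη]
        field_simp

end Pool.Agent.AEN
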