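import Pool.Agent.PSat.All2
import Pool.Agent.PLim.All4
import Pool.Agent.MEX.MVL
import Pool.Agent.MEX.RMV
import Pool.Agent.AEN.P_MOB
import Pool.Agent.AEN.P_MVA
import Pool.Agent.AEN.P_NBD2
import Pool.Agent.AEN.P_CHN2
import Pool.Agent.AEN.P_JUL
import Pool.Agent.AEN.P_LGH
import Pool.Agent.AEN.P_RGS
import Pool.Agent.AEN.P_SCW
import Pool.Agent.AEN.P_SUW
import Pool.Agent.AEN.P_EXS
import Pool.Agent.AEN.P_INP
import Pool.Agent.AEN.P_UVP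
import Pool.Agent.AEN.P_DSJ
import Pool.Agent.AEN.P_CCP
import Pool.Agent.AEN.P_MPG
import Pool.Agent.AEN.P_NM1
import Pool.Agent.AEN.P_RPK
import Pool.Agent.AEN.P_KSC
import Pool.Agent.AEN.P_KUQ
import Pool.Agent.AEN.P_NRR
import Pool.Agent.AEN.P_KCA
import Pool.Agent.AEN.P_KCB
import Pool.Agent.AEN.P_TAL
import Pool.Agent.AEN.P_FNS2
import Pool.Agent.AEN.P_FNA2
import Pool.Agent.AEN.P_CNT
import Pool.Agent.AEN.P_LGI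
import Pool.Agent.AEN.P_FIN2

/-!
# AEN: all targets of the first two parts
-/

set_option autoImplicit false

namespace Pool.Agent.AEN

theorem a_MOB : T_MOB := p_MOB
theorem a_MVA : T_MVA := p_MVA (Pool.Agent.MEX.p_MVL Pool.Agent.MEX.p_RMV)
theorem a_NBD2 : T_NBD2 := p_NBD2 a_MVA
theorem a_CHN2 : T_CHN2 := p_CHN2 a_NBD2
theorem a_JUL : T_JUL := p_JUL
theorem a_LGH : T_LGH := p_LGH
theorem a_RGS : T_RGS := p_RGS a_MOB Pool.Agent.PLim.a_BIG Pool.Agent.PLim.a_LOCZ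
  Pool.Agent.PLim.a_TRANS
theorem a_SCW : T_SCW := p_SCW
theorem a_SUW : T_SUW := p_SUW
theorem a_EXS : T_EXS := p_EXS a_MOB a_RGS a_SCW a_SUW Pool.Agent.PSat.a_CST
  Pool.Agent.PSat.a_CMG Pool.Agent.PLim.a_BIG
theorem a_INP : T_INP := p_INP Pool.Agent.PLim.a_ATU
theorem a_UVP : T_UVP := p_UVP a_MOB a_INP
theorem a_DSJ : T_DSJ := p_DSJ Pool.Agent.PSat.a_CST Pool.Agent.PSat.a_CMG
  Pool.Agent.PSat.a_GD1 Pool.Agent.PSat.a_SM2 Pool.Agent.PLim.a_ATU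
theorem a_CCP : T_CCP := p_CCP a_INP a_DSJ Pool.Agent.PSat.a_CST Pool.Agent.PSat.a_GEX
theorem a_MPG : T_MPG := p_MPG
theorem a_NM1 : T_NM1 := p_NM1 a_MPG Pool.Agent.PLim.a_ATN Pool.Agent.PLim.a_FINF
  Pool.Agent.PLim.a_LOCZ
theorem a_RPK : T_RPK := p_RPK a_NM1 Pool.Agent.PLim.a_ATN
theorem a_KSC : T_KSC := p_KSC Pool.Agent.PSat.a_LIFC Pool.Agent.PLim.a_LOCZ
theorem a_KUQ : T_KUQ := p_KUQ Pool.Agent.PLim.a_LOCZ
theorem a_NRR : T_NRR := p_NRR Pool.Agent.PSat.a_CST Pool.Agent.PSat.a_MKD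
  Pool.Agent.PSat.a_ROT Pool.Agent.PSat.a_BCI Pool.Agent.PSat.a_IDN
theorem a_KCA : T_KCA := p_KCA a_MOB a_RPK a_KSC a_LGH
theorem a_KCB : T_KCB := p_KCB a_NRR a_KCA a_KUQ
theorem a_TAL : T_TAL := p_TAL a_JUL Pool.Agent.PLim.a_LOCZ Pool.Agent.PLim.a_TRANS
theorem a_FNS2 : T_FNS2 := p_FNS2 a_MOB a_EXS a_UVP a_CHN2 a_KCB a_TAL
theorem a_FNA2 : T_FNA2 := p_FNA2 a_MOB a_EXS a_UVP a_NBD2 a_CHN2
theorem a_CNT : T_CNT := p_CNT a_INP a_DSJ Pool.Agent.PLim.a_BIG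
theorem a_LGI : T_LGI := p_LGI
theorem a_FIN2 : T_FIN2 := p_FIN2 a_FNS2 a_FNA2 a_CNT a_LGI

end Pool.Agent.AEN
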