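import Pool.Agent.AEN.Targets3
import Pool.Agent.AEN.P_EXS

/-!
# AEN, EXZ: the extension of the parametrization of a component, with the section
-/

set_option autoImplicit false

open Complex Filter Topology Set MeasureTheory
open Pool.Agent.Multibrot (MM)
open Pool.Agent.Limb (F)
open Pool.Agent.PLim (Rho LocFix OMXn)
open Pool.Agent.MEX (Exa)
open Pool.Agent.MEY (Pt)
open Pool.Agent.PSat (Comp Sat Lmb)
open Pool.Agent.MEZ (T_AEL T_NCZ T_SECZ NCZk SECZk Fz)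

namespace Pool.Agent.AEN

open EXS_ in
theorem p_EXZ (h₁ : T_MOB) (h₂ : T_RGS) (h₃ : T_SCW) (h₄ : T_SUW)
    (h₅ : Pool.Agent.PSat.T_CST) (h₆ : Pool.Agent.PSat.T_CMG) (h₇ : Pool.Agent.PLim.T_BIG) :
    T_EXZ := by
  intro κ hκ hκ1 hNC K P hC
  obtain ⟨C, hC1, hCst⟩ := h₅
  obtain ⟨Ψ, Z', hG, hPΨ⟩ := h₆ C K P hC1 hCst.nc hC
  have hsub := ball_DD (1 / (C * K))
  have hpt : ∀ v ∈ Metric.ball (0 : ℂ) 1, Pt 2 K (P v) (Z' v) v := by
    intro v hv
    have h := hG.pt v (hsub hv)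
    rw [← hPΨ v hv] at h
    simpa using h
  have hMb : ∀ m : ℂ, 0 < m.re → vm m ∈ Metric.ball (0 : ℂ) 1 := by
    intro m hm
    have h := ((h₁.1 m (by linarith)).2.2.2.1).2 hm
    simpa using h
  have hvd : ∀ m : ℂ, -(1 / 2) < m.re → DifferentiableAt ℂ vm m := fun m hm =>
    (h₁.1 m hm).2.2.1
  have hRg := h₂ κ hκ hκ1 hNC K hC.hK
  have hStr : ∀ m ∈ St (κ / 5000), -(1 / 2) < m.re := by
    intro m hm
    have h := hm.1
    linarith
  have hm0 : ((1 / 8 : ℝ) : ℂ).re = 1 / 8 := ofReal_re _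
  have hm0S : ((1 / 8 : ℝ) : ℂ) ∈ St (κ / 5000) := by
    constructor
    · rw [hm0]; linarith
    · rw [hm0]; norm_num
  have hm0p : 0 < ((1 / 8 : ℝ) : ℂ).re := by rw [hm0]; norm_num
  obtain ⟨Q0, Z0, hSn, hQ0, hZ0⟩ := h₃ K (St (κ / 5000)) vm hC.hK (isOpen_strip _ _)
    (convex_strip _ _) (fun m hm => (hvd m (hStr m hm)).differentiableWithinAt) hRg
    (P (vm ((1 / 8 : ℝ) : ℂ))) (Z' (vm ((1 / 8 : ℝ) : ℂ))) ((1 / 8 : ℝ) : ℂ) hm0S
    (hpt _ (hMb _ hm0p))
  -- the common part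
  have hW : ∀ m ∈ {m : ℂ | 0 < m.re ∧ m.re < 1 / 4}, m ∈ St (κ / 5000) := by
    intro m hm
    exact ⟨by linarith [hm.1], hm.2⟩
  have hPd : ∀ v ∈ Metric.ball (0 : ℂ) 1, DifferentiableAt ℂ P v := fun v hv =>
    hC.dP.differentiableAt (Metric.isOpen_ball.mem_nhds hv)
  have hcv : ContinuousOn vm {m : ℂ | 0 < m.re ∧ m.re < 1 / 4} := fun m hm =>
    (hvd m (hStr m (hW m hm))).continuousAt.continuousWithinAt
  have hmaps : MapsTo vm {m : ℂ | 0 < m.re ∧ m.re < 1 / 4} (Metric.ball 0 1) := fun m hm =>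
    hMb m hm.1
  obtain ⟨hEq, -⟩ := h₄ K {m : ℂ | 0 < m.re ∧ m.re < 1 / 4} vm Q0 Z0 (fun m => P (vm m))
    (fun m => Z' (vm m)) ((1 / 8 : ℝ) : ℂ) hC.hK (convex_strip _ _).isPreconnected
    (Rg.mono hRg hW) (hSn.dQ.continuousOn.mono hW) (hSn.dZ.continuousOn.mono hW)
    (hC.dP.continuousOn.comp hcv hmaps) ((hG.dX.continuousOn.mono hsub).comp hcv hmaps)
    (fun m hm => hSn.pt m (hW m hm)) (fun m hm => hpt _ (hMb m hm.1))
    ⟨hm0p, by rw [hm0]; norm_num⟩ hQ0 hZ0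
  have hQ : ∀ m ∈ St (κ / 5000), (if 0 < m.re then P (vm m) else Q0 m) = Q0 m := by
    intro m hm
    by_cases h0 : 0 < m.re
    · rw [if_pos h0]
      exact (hEq ⟨h0, hm.2⟩).symm
    · rw [if_neg h0]
  refine ⟨fun m => if 0 < m.re then P (vm m) else Q0 m, Z0, ⟨?_, ?_, ?_⟩,
    hSn.dQ.congr hQ, hSn.dZ, fun m hm => ?_, fun m hm => ?_⟩
  · intro m hm
    have hmk : -(κ / 5000) < m.re := hm
    refine DifferentiableAt.differentiableWithinAt ?_
    by_cases h0 : 0 < m.re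
    · have h1 : DifferentiableAt ℂ (fun m => P (vm m)) m :=
        (hPd _ (hMb m h0)).comp m (hvd m (by linarith))
      refine h1.congr_of_eventuallyEq ?_
      filter_upwards [isOpen_Hp.mem_nhds (show m ∈ Hp from h0)] with m' hm'
      have h2 : 0 < m'.re := hm'
      simp only [if_pos h2]
    · have hmS : m ∈ St (κ / 5000) := ⟨hmk, by linarith [not_lt.1 h0]⟩
      have h1 : DifferentiableAt ℂ Q0 m :=
        hSn.dQ.differentiableAt ((isOpen_strip _ _).mem_nhds hmS)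
      refine h1.congr_of_eventuallyEq ?_
      filter_upwards [(isOpen_strip _ _).mem_nhds hmS] with m' hm'
      by_cases h2 : 0 < m'.re
      · simp only [if_pos h2]
        exact (hEq ⟨h2, hm'.2⟩).symm
      · simp only [if_neg h2]
  · intro m hm
    have hmk : -(κ / 5000) < m.re := hm
    by_cases h0 : 0 < m.re
    · simp only [if_pos h0]
      have hv := hMb m h0
      obtain ⟨z, hz⟩ := hC.pt _ hv
      by_contra hcon
      have h1 := h₇ 2 K (P (vm m)) z le_rfl hC.hK (not_le.1 hcon).le hz.fix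
      rw [hz.mul] at h1
      have h2 : ‖vm m‖ < 1 := by simpa using hv
      have h3 : (1 : ℝ) ≤ Real.exp 1 := Real.one_le_exp zero_le_one
      linarith
    · simp only [if_neg h0]
      exact hSn.bd m ⟨hmk, by linarith [not_lt.1 h0]⟩
  · intro m hm
    have h2 : 0 < m.re := hm
    simp only [if_pos h2]
  · have h := hSn.pt m hm
    simp only [hQ m hm]
    exact h
  · have h := hSn.bd m hm
    simp only [hQ m hm]
    exact h

end Pool.Agent.AEN
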