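import Pool.Agent.AEN.Targets3
import Pool.Agent.AEN.P_FIN2
import Pool.Agent.AEN.P_CCP
import Pool.Agent.AEN.P_DSJ
import Pool.Agent.AEN.P_INP

/-!
# AEN: FIN3, the limbs of all components
-/

set_option autoImplicit false

open Complex Filter Topology Set MeasureTheory
open Pool.Agent.Multibrot (MM)
open Pool.Agent.Limb (F)
open Pool.Agent.PLim (Rho LocFix OMXn)
open Pool.Agent.MEX (Exa)
open Pool.Agent.MEY (Pt)
open Pool.Agent.PSat (Comp Sat Lmb)
open Pool.Agent.MEZ (T_AEL T_NCZ T_SECZ NCZk SECZk Fz)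

namespace Pool.Agent.AEN

namespace FIN3_

lemma sg_nonneg {C : ℝ} (hC : 0 ≤ C) (K p q : ℕ) : 0 ≤ sg C K p q := by
  unfold sg
  positivity

lemma sg_le {C D c : ℝ} (h : c * C ≤ D) (K p q : ℕ) : c * sg C K p q ≤ sg D K p q := by
  unfold sg
  rw [← mul_div_assoc]
  refine div_le_div_of_nonneg_right ?_ (by positivity)
  calc c * (C * K * q) = (c * C) * (K * q) := by ring
    _ ≤ D * (K * q) := mul_le_mul_of_nonneg_right h (by positivity)
    _ = D * K * q := by ring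

lemma vol_pos (h₆ : Pool.Agent.PLim.T_ATU) {K : ℕ} {P : ℂ → ℂ} (hC : Comp K P) :
    0 < (volume (P '' Metric.ball 0 1)).toReal := by
  have h1 : IsOpen (P '' Metric.ball 0 1) := CCP_.isOpen_img (p_INP h₆) hC
  have h2 : (P '' Metric.ball 0 1).Nonempty := ⟨P 0, 0, by simp, rfl⟩
  exact ENNReal.toReal_pos (h1.measure_pos volume h2).ne' (FIN2_.fin_vol hC)

/-- the estimate for a single limb -/
lemma est {s0 s b a d : ℝ} (hs0 : 0 ≤ s0) (h2 : 64 * s0 ≤ s) (hs : s ≤ 1) (hb : 0 < b)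
    (hba : b ^ 4 = a) (ha : a ≤ 1000)
    (hd : d ≤ 2 * (s0 * b ^ (2 - s0) * (1 + |Real.log b|))) :
    d ≤ s * a ^ (1 / 2 - s / 4) * (1 + |Real.log a|) := by
  have hs' : 0 ≤ s := by linarith
  have ha0 : 0 < a := by rw [← hba]; positivity
  have key : 2 * s0 * b ^ (2 - s0) ≤ s * b ^ (2 - s) := by
    rcases le_or_gt b 1 with h1 | h1
    · have h3 : b ^ (2 - s0) ≤ b ^ (2 - s) :=
        Real.rpow_le_rpow_of_exponent_ge hb h1 (by linarith)
      have h4 : 0 ≤ b ^ (2 - s0) := Real.rpow_nonneg hb.le _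
      nlinarith
    · have h3 : b ^ (2 - s0) ≤ b ^ (2 : ℝ) :=
        Real.rpow_le_rpow_of_exponent_le h1.le (by linarith)
      have h4 : b ^ (2 : ℝ) ≤ 32 := by
        rw [Real.rpow_two]
        by_contra hcon
        rw [not_le] at hcon
        have : b ^ 4 = (b ^ 2) ^ 2 := by ring
        nlinarith
      have h5 : 1 ≤ b ^ (2 - s) := Real.one_le_rpow h1.le (by linarith)
      have h6 : 0 ≤ b ^ (2 - s0) := Real.rpow_nonneg hb.le _
      nlinarith
  have e1 : b ^ (2 - s) = a ^ (1 / 2 - s / 4) := by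
    rw [← hba, ← Real.rpow_natCast, ← Real.rpow_mul hb.le]
    congr 1
    push_cast
    ring
  have e2 : Real.log a = 4 * Real.log b := by
    rw [← hba, Real.log_pow]
    norm_num
  have e3 : |Real.log b| ≤ |Real.log a| := by
    rw [e2, abs_mul]
    have := abs_nonneg (Real.log b)
    rw [abs_of_pos (by norm_num : (0 : ℝ) < 4)]
    linarith
  have h7 := abs_nonneg (Real.log b)
  rw [← e1]
  have h8 : 0 ≤ s * b ^ (2 - s) := mul_nonneg hs' (Real.rpow_nonneg hb.le _)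
  calc d ≤ 2 * (s0 * b ^ (2 - s0) * (1 + |Real.log b|)) := hd
    _ = 2 * s0 * b ^ (2 - s0) * (1 + |Real.log b|) := by ring
    _ ≤ s * b ^ (2 - s) * (1 + |Real.log b|) :=
        mul_le_mul_of_nonneg_right key (by linarith)
    _ ≤ s * b ^ (2 - s) * (1 + |Real.log a|) := mul_le_mul_of_nonneg_left (by linarith) h8

/-- the simplified estimate -/
lemma est2 {s a d : ℝ} (hs0 : 0 ≤ s) (hs : s ≤ 1) (ha0 : 0 < a) (ha : a ≤ 1000)
    (hd : d ≤ s * a ^ (1 / 2 - s / 4) * (1 + |Real.log a|)) :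
    d ≤ 6 * a ^ (1 / 4 : ℝ) * (1 + |Real.log a|) := by
  have h7 := abs_nonneg (Real.log a)
  refine hd.trans (mul_le_mul_of_nonneg_right ?_ (by linarith))
  have h8 : 0 < a ^ (1 / 4 : ℝ) := Real.rpow_pos_of_pos ha0 _
  have h9 : 0 < a ^ (1 / 2 - s / 4) := Real.rpow_pos_of_pos ha0 _
  have h10 : s * a ^ (1 / 2 - s / 4) ≤ a ^ (1 / 2 - s / 4) := by nlinarith
  refine h10.trans ?_
  rcases le_or_gt a 1 with h1 | h1
  · have h3 : a ^ (1 / 2 - s / 4) ≤ a ^ (1 / 4 : ℝ) :=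
      Real.rpow_le_rpow_of_exponent_ge ha0 h1 (by linarith)
    linarith
  · have h3 : a ^ (1 / 2 - s / 4) ≤ a ^ (1 / 2 : ℝ) :=
      Real.rpow_le_rpow_of_exponent_le h1.le (by linarith)
    have h4 : a ^ (1 / 2 : ℝ) = a ^ (1 / 4 : ℝ) * a ^ (1 / 4 : ℝ) := by
      rw [← Real.rpow_add ha0]
      norm_num
    have h5 : a ^ (1 / 4 : ℝ) ≤ 6 := by
      by_contra hcon
      rw [not_le] at hcon
      have h6 : (a ^ (1 / 4 : ℝ)) ^ 4 = a := by
        rw [← Real.rpow_natCast, ← Real.rpow_mul ha0.le]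
        norm_num
      have h11 : (6 : ℝ) ^ 4 < (a ^ (1 / 4 : ℝ)) ^ 4 :=
        pow_lt_pow_left₀ hcon (by norm_num) (by norm_num)
      rw [h6] at h11
      norm_num at h11
      linarith
    nlinarith

/-- two parametrizations of the same component -/
lemma same (h₅ : T_DSJ) (h₆ : Pool.Agent.PLim.T_ATU) {K K' : ℕ} {P P' : ℂ → ℂ} (hC : Comp K P)
    (hC' : Comp K' P') (h : P '' Metric.ball 0 1 = P' '' Metric.ball 0 1) :
    K = K' ∧ EqOn P P' (Metric.ball 0 1) := by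
  have h0 : (0 : ℂ) ∈ Metric.ball (0 : ℂ) 1 := by simp
  have heq : EqOn P P' (Metric.ball 0 1) := by
    rcases h₅ K K' P P' hC hC' with h1 | h1
    · exact h1
    · exfalso
      rw [← h, disjoint_self, bot_eq_empty, image_eq_empty] at h1
      rw [h1] at h0
      exact h0
  refine ⟨?_, heq⟩
  obtain ⟨z, hz⟩ := hC.pt 0 h0
  obtain ⟨z', hz'⟩ := hC'.pt 0 h0
  rw [← heq h0] at hz'
  obtain ⟨j, hj⟩ := h₆ 2 K K' (P 0) z z' le_rfl hC.hK hC'.hK hz.fix hz'.fix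
    (by rw [hz.mul]; simp) (by rw [hz'.mul]; simp)
  have hex := Pool.Agent.PSat.exa_iter hz.fix hC.hK hz.exa j
  have hfx := Pool.Agent.PSat.fix_iter hz.fix j
  rw [hj] at hex hfx
  exact le_antisymm (DSJ_.per_le hex hz'.fix hC'.hK) (DSJ_.per_le hz'.exa hfx hC.hK)

end FIN3_

open FIN3_ in
theorem p_FIN3 (h₁ : T_FLM) (h₂ : T_FLF) (h₃ : T_LGJ) (h₄ : T_CNT) (h₅ : T_DSJ)
    (h₆ : Pool.Agent.PLim.T_ATU) : T_FIN3 := by
  intro hN
  obtain ⟨C0, hC0, hF⟩ := h₁ hN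
  obtain ⟨C0', hC0', hFF⟩ := h₂ hN
  obtain ⟨C6, hC6, hL⟩ := h₃ 6 (by norm_num)
  have hc1 : 64 * C0 ≤ max (64 * C0) (max C0' (1000 * C6)) := le_max_left _ _
  have hc2 : C0' ≤ max (64 * C0) (max C0' (1000 * C6)) :=
    (le_max_left _ _).trans (le_max_right _ _)
  have hc3 : 1000 * C6 ≤ max (64 * C0) (max C0' (1000 * C6)) :=
    (le_max_right _ _).trans (le_max_right _ _)
  set C := max (64 * C0) (max C0' (1000 * C6)) with hCd
  have hC1 : 1 ≤ C := hC0'.trans hc2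
  have a1000 : ∀ (K : ℕ) (P : ℂ → ℂ), Comp K P →
      (volume (P '' Metric.ball 0 1)).toReal ≤ 1000 := by
    intro K P hc
    have := h₄ {P '' Metric.ball 0 1} (by
      intro U hU
      rw [Finset.mem_singleton] at hU
      exact ⟨K, P, hc, hU⟩)
    rwa [Finset.sum_singleton] at this
  have b1 : ∀ (K p q : ℕ) (P : ℂ → ℂ) (r : ℂ) (A : Set ℂ), Comp K P → Lmb P p q r A →
      sg C K p q ≤ 1 → Metric.diam A ≤ sg C K p q *
        (volume (P '' Metric.ball 0 1)).toReal ^ (1 / 2 - sg C K p q / 4) *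
        (1 + |Real.log (volume (P '' Metric.ball 0 1)).toReal|) := by
    intro K p q P r A hC hA hsg
    have ha0 := vol_pos h₆ hC
    have hfv := FIN2_.fin_vol hC
    have ha1 := a1000 K P hC
    set a := (volume (P '' Metric.ball 0 1)).toReal with ha
    have hb0 : 0 < a ^ (1 / 4 : ℝ) := Real.rpow_pos_of_pos ha0 _
    have hb4 : (a ^ (1 / 4 : ℝ)) ^ 4 = a := by
      rw [← Real.rpow_natCast, ← Real.rpow_mul ha0.le]
      norm_num
    have hs0 := sg_nonneg (by linarith : 0 ≤ C0) K p q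
    have hs64 := sg_le hc1 K p q
    have hs1 : sg C0 K p q ≤ 1 := by linarith
    refine est hs0 hs64 hsg hb0 hb4 ha1 ?_
    have hball : A ⊆ Metric.closedBall r (sg C0 K p q * (a ^ (1 / 4 : ℝ)) ^ (2 - sg C0 K p q) *
        (1 + |Real.log (a ^ (1 / 4 : ℝ))|)) := by
      intro c hc
      rw [Metric.mem_closedBall, dist_eq_norm]
      exact hF C0 le_rfl K p q P (a ^ (1 / 4 : ℝ)) r A hC hb0
        (by rw [hb4, ha, ENNReal.ofReal_toReal hfv]) hA hs1 c hc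
    refine Metric.diam_le_of_subset_closedBall ?_ hball
    have h7 := abs_nonneg (Real.log (a ^ (1 / 4 : ℝ)))
    have h8 : 0 ≤ (a ^ (1 / 4 : ℝ)) ^ (2 - sg C0 K p q) := Real.rpow_nonneg hb0.le _
    positivity
  refine ⟨C, hC1, b1, ?_⟩
  intro ε hε
  have hX : 0 ≤ 1 + |Real.log ε| := by
    have := abs_nonneg (Real.log ε)
    linarith
  obtain ⟨h7, h8⟩ := FIN2_.count (Fa := {U : Set ℂ | ∃ y : ℕ × ℕ, BigL C ε (U, y)})
    (η := ε ^ 4) (K := C6 * (1 + |Real.log ε|) ^ 4) (by positivity) (by positivity) (by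
      intro s hs
      refine h₄ s fun U hU => ?_
      obtain ⟨y, K, P, r, A, hc, hU', -⟩ := hs U hU
      exact ⟨K, P, hc, hU'⟩) (by
      rintro U ⟨y, K, P, r, A, hc, hU, hA, hsg, hεA⟩
      simp only at hU hA hsg
      subst hU
      have h9 := hεA.trans (b1 K y.1 y.2 P r A hc hA hsg)
      have h10 := vol_pos h₆ hc
      have h11 := a1000 K P hc
      have h12 := hL ε _ hε h10 h11
        (est2 (sg_nonneg (by linarith) K y.1 y.2) hsg h10 h11 h9)
      linarith)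
  refine ⟨?_, ?_⟩
  · have hsub : {x : Set ℂ × ℕ × ℕ | BigL C ε x} ⊆
        ⋃ U ∈ {U : Set ℂ | ∃ y : ℕ × ℕ, BigL C ε (U, y)},
          (fun y : ℕ × ℕ => (U, y)) '' {y : ℕ × ℕ | BigL C ε (U, y)} := by
      rintro ⟨U, y⟩ hx
      exact mem_biUnion (show U ∈ {U : Set ℂ | ∃ y : ℕ × ℕ, BigL C ε (U, y)} from ⟨y, hx⟩)
        ⟨y, hx, rfl⟩
    refine (h7.biUnion fun U hU => Set.Finite.image _ ?_).subset hsub
    obtain ⟨y, K, P, r, A, hc, hU', -⟩ := hU
    simp only at hU'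
    refine (hFF C hc2 K P ε hc hε).subset ?_
    rintro x ⟨K', P', r', A', hc', hU'', hA', hsg', hε'⟩
    simp only at hU'' hA' hsg'
    obtain ⟨rfl, heq⟩ := same h₅ h₆ hc hc' (hU'.symm.trans hU'')
    refine ⟨hsg', r', A', ⟨hA'.hp, hA'.hpq, hA'.cop, ?_, hA'.sub, hA'.op, hA'.cl, hA'.nr,
      hA'.n0⟩, hε'⟩
    exact hA'.lim.congr' (eventuallyEq_nhdsWithin_of_eqOn heq.symm)
  · refine h8.trans ?_
    have h9 : 1000 * (C6 * (1 + |Real.log ε|) ^ 4) / ε ^ 4 =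
        (1000 * C6) * (1 + |Real.log ε|) ^ 4 / ε ^ 4 := by ring
    rw [h9]
    gcongr

end Pool.Agent.AEN
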