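import Pool.Agent.AEN.Targets3

/-!
# AEN: FLF, each component has only finitely many large limbs
-/

set_option autoImplicit false

open Complex Filter Topology Set MeasureTheory
open Pool.Agent.Multibrot (MM)
open Pool.Agent.Limb (F)
open Pool.Agent.PLim (Rho LocFix OMXn)
open Pool.Agent.MEX (Exa)
open Pool.Agent.MEY (Pt)
open Pool.Agent.PSat (Comp Sat Lmb)
open Pool.Agent.MEZ (T_AEL T_NCZ T_SECZ NCZk SECZk Fz)

namespace Pool.Agent.AEN

namespace FLF_

lemma ncz_mono {κ κ' : ℝ} (h : κ' ≤ κ) (hN : NCZk κ) : NCZk κ' := by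
  intro n k c0 z0 μ δ ε r zf hn hk hL hE hR hδ hF hμ
  have h1 : κ' * δ ^ 2 ≤ κ * δ ^ 2 := mul_le_mul_of_nonneg_right h (sq_nonneg δ)
  exact hN n k c0 z0 μ δ ε r zf hn hk hL hE hR hδ hF (lt_of_lt_of_le hμ h1)

/-- Cauchy's estimate -/
theorem cauchy {κ : ℝ} {P Q : ℂ → ℂ} (hκ : 0 < κ) (h : Exn κ P Q) (z : ℂ)
    (hz : -(κ / 2) ≤ z.re) : ‖deriv Q z‖ ≤ 64 / κ := by
  have hsub : Metric.closedBall z (κ / 4) ⊆ Hk κ := by
    intro w hw
    rw [mem_closedBall_iff_norm] at hw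
    have h1 := (abs_le.mp ((abs_re_le_norm (w - z)).trans hw)).1
    rw [sub_re] at h1
    show -κ < w.re
    linarith
  have hd : DiffContOnCl ℂ Q (Metric.ball z (κ / 4)) :=
    (h.dQ.mono hsub).diffContOnCl_ball subset_rfl
  have h2 := norm_deriv_le_of_forall_mem_sphere_norm_le (by positivity : 0 < κ / 4) hd
    (fun w hw => h.bd w (hsub (Metric.sphere_subset_closedBall hw)))
  refine h2.trans (le_of_eq ?_)
  field_simp
  norm_num

/-- the Lipschitz estimate near the imaginary axis -/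
theorem lip {κ s : ℝ} {P Q : ℂ → ℂ} (hκ : 0 < κ) (h : Exn κ P Q) (hs : s ≤ κ / 8) (mt m : ℂ)
    (h0 : mt.re = 0) (hm : ‖m - mt‖ ≤ s) : ‖Q m - Q mt‖ ≤ 64 / κ * s := by
  have hs0 : 0 ≤ s := (norm_nonneg _).trans hm
  have hre : ∀ x ∈ Metric.closedBall mt s, -s ≤ x.re := by
    intro x hx
    rw [mem_closedBall_iff_norm] at hx
    have h1 := (abs_le.mp ((abs_re_le_norm (x - mt)).trans hx)).1
    rw [sub_re, h0] at h1
    linarith
  have hop : IsOpen (Hk κ) := isOpen_lt continuous_const continuous_re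
  have h1 : ‖Q m - Q mt‖ ≤ 64 / κ * ‖m - mt‖ := by
    refine (convex_closedBall mt s).norm_image_sub_le_of_norm_deriv_le (𝕜 := ℂ) ?_ ?_ ?_ ?_
    · intro x hx
      have h2 := hre x hx
      have h3 : x ∈ Hk κ := by
        show -κ < x.re
        linarith
      exact (h.dQ x h3).differentiableAt (hop.mem_nhds h3)
    · intro x hx
      exact cauchy hκ h x (by linarith [hre x hx])
    · exact Metric.mem_closedBall_self hs0
    · rw [mem_closedBall_iff_norm]
      exact hm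
  exact h1.trans (mul_le_mul_of_nonneg_left hm (by positivity))

/-- the distance to `1` of a root of unity -/
theorem dist_one {p q : ℕ} (hp : 0 < p) (hpq : p < q) :
    ‖1 - exp (2 * Real.pi * I * p / q)‖ ≤ 2 * Real.pi * ((min p (q - p) : ℕ) : ℝ) / q := by
  have hq : (0 : ℝ) < q := by exact_mod_cast (lt_trans hp hpq)
  have hq' : (q : ℂ) ≠ 0 := by exact_mod_cast hq.ne'
  have key : ∀ t : ℝ, ‖1 - exp (I * t)‖ ≤ |t| := by
    intro t
    rw [norm_sub_rev]
    exact Real.norm_exp_I_mul_ofReal_sub_one_le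
  have hpi := Real.pi_pos
  rcases le_total p (q - p) with h | h
  · rw [min_eq_left h]
    have h1 := key (2 * Real.pi * p / q)
    have h2 : I * ((2 * Real.pi * p / q : ℝ) : ℂ) = 2 * Real.pi * I * p / q := by
      push_cast
      ring
    rw [h2, abs_of_nonneg (by positivity)] at h1
    exact h1
  · rw [min_eq_right h, Nat.cast_sub hpq.le]
    have h1 := key (2 * Real.pi * (p - q) / q)
    have h2 : exp (I * ((2 * Real.pi * (p - q) / q : ℝ) : ℂ)) =
        exp (2 * Real.pi * I * p / q) := by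
      have h3 : I * ((2 * Real.pi * (p - q) / q : ℝ) : ℂ) =
          2 * Real.pi * I * p / q - 2 * Real.pi * I := by
        push_cast
        field_simp
      rw [h3, Complex.exp_sub, Complex.exp_two_pi_mul_I, div_one]
    rw [h2] at h1
    have h4 : |2 * Real.pi * ((p : ℝ) - q) / q| = 2 * Real.pi * ((q : ℝ) - p) / q := by
      have h5 : 2 * Real.pi * ((p : ℝ) - q) / q = -(2 * Real.pi * ((q : ℝ) - p) / q) := by ring
      have h6 : (0 : ℝ) ≤ (q : ℝ) - p := by
        have : (p : ℝ) < q := by exact_mod_cast hpq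
        linarith
      rw [h5, abs_neg, abs_of_nonneg (by positivity)]
    rw [h4] at h1
    exact h1

end FLF_

open FLF_ in
theorem p_FLF (h₁ : T_EXZ) (h₂ : T_UNI) (h₃ : T_LMQ) (h₄ : Pool.Agent.PSat.T_CST) :
    T_FLF := by
  rintro ⟨κ0, hκ0, hN0⟩
  obtain ⟨κ', hκ', hκ'1, hN⟩ : ∃ κ : ℝ, 0 < κ ∧ κ ≤ 1 ∧ NCZk κ :=
    ⟨min κ0 1, lt_min hκ0 one_pos, min_le_right _ _, ncz_mono (min_le_left _ _) hN0⟩
  obtain ⟨κ, hκd⟩ : ∃ κ : ℝ, κ = κ' / 5000 := ⟨_, rfl⟩
  have hκ : 0 < κ := by rw [hκd]; positivity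
  have hκ1 : κ ≤ 1 / 5000 := by rw [hκd]; linarith
  obtain ⟨C1, hC1, hCst⟩ := h₄
  have hC1p : 0 < C1 := by linarith
  refine ⟨11 * C1 / κ, ?_, ?_⟩
  · rw [le_div_iff₀ hκ]
    linarith
  intro C hC K P ε hP hε
  obtain ⟨Q, Z, hQ, hZ⟩ := h₁ κ' hκ' hκ'1 hN K P hP
  rw [← hκd] at hQ hZ
  obtain ⟨r0, hr0⟩ := h₂ κ K P Q hκ (by linarith) hP hQ
  obtain ⟨Y0, hY0⟩ := hr0 (ε / 4) (by positivity)
  obtain ⟨Y, hYd⟩ : ∃ Y : ℝ, Y = max Y0 0 := ⟨_, rfl⟩
  have hY00 : Y0 ≤ Y := by rw [hYd]; exact le_max_left _ _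
  have hYp : 0 ≤ Y := by rw [hYd]; exact le_max_right _ _
  have hpi := Real.pi_pos
  have hK : (1 : ℝ) ≤ K := by exact_mod_cast hP.hK
  obtain ⟨N, hN'⟩ := exists_nat_gt
    (128 / κ * (C1 * K * (Real.pi * (2 * Y + 3)) ^ 2 / 6) / ε)
  refine Set.Finite.subset
    ((Finset.range (N + 1) ×ˢ Finset.range (N + 1) : Finset (ℕ × ℕ)).finite_toSet) ?_
  rintro ⟨p, q⟩ ⟨hsg, r, A, hL, hA⟩
  simp only at hsg hL
  have hp := hL.hp
  have hpq := hL.hpq
  have hq : (0 : ℝ) < q := by exact_mod_cast (lt_trans hp hpq)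
  obtain ⟨M, hMd⟩ : ∃ M : ℝ, M = ((min p (q - p) : ℕ) : ℝ) := ⟨_, rfl⟩
  have hM : 1 ≤ M := by
    rw [hMd]
    have : 1 ≤ min p (q - p) := by
      rw [le_min_iff]
      omega
    exact_mod_cast this
  have hMp : 0 < M := by linarith
  have hsg' : C * K * q ≤ M ^ 2 := by
    unfold sg at hsg
    rw [← hMd, div_le_one (by positivity)] at hsg
    exact hsg
  have h11 : 11 * (C1 * K * q) ≤ κ * M ^ 2 := by
    have h5 : 11 * C1 ≤ κ * C := by
      rw [div_le_iff₀ hκ] at hC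
      linarith
    calc 11 * (C1 * K * q) = 11 * C1 * (K * q) := by ring
      _ ≤ κ * C * (K * q) := mul_le_mul_of_nonneg_right h5 (by positivity)
      _ = κ * (C * K * q) := by ring
      _ ≤ κ * M ^ 2 := mul_le_mul_of_nonneg_left hsg' hκ.le
  have hlt : C1 * K * q < κ * M ^ 2 := by
    have : 0 < C1 * K * q := by positivity
    linarith
  rw [hMd] at hlt
  obtain ⟨mt, hmt0, hmte, hmtr, hmtA⟩ := h₃ C1 κ K p q P Q Z r A hC1p hCst.omx hκ hκ1 hP hQ hZ
    hL hlt
  obtain ⟨s, hsd⟩ : ∃ s : ℝ, s = sg C1 K p q / 6 := ⟨_, rfl⟩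
  rw [← hsd] at hmtA
  have hs' : s = C1 * K * q / (6 * M ^ 2) := by
    rw [hsd]
    unfold sg
    rw [← hMd, div_div]
    ring_nf
  have hsκ : s ≤ κ / 8 := by
    rw [hs', div_le_iff₀ (by positivity)]
    nlinarith [mul_pos hκ (pow_pos hMp 2)]
  have hs0 : 0 ≤ s := by rw [hs']; positivity
  have hs1 : s ≤ 1 := by linarith
  rcases le_or_gt (Y + 1) |mt.im| with hY | hY
  · exfalso
    have hsub : A ⊆ Metric.closedBall r0 (ε / 4) := by
      intro c hc
      obtain ⟨m, hm, rfl⟩ := hmtA c hc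
      rw [mem_closedBall_iff_norm]
      refine hY0 m ?_ ?_
      · have h1 := (abs_le.mp ((abs_re_le_norm (m - mt)).trans hm)).1
        rw [sub_re, hmt0] at h1
        linarith
      · have h1 := (abs_im_le_norm (m - mt)).trans hm
        rw [sub_im] at h1
        have h2 := abs_sub_abs_le_abs_sub mt.im m.im
        rw [abs_sub_comm] at h2
        linarith
    have h1 := Metric.diam_le_of_subset_closedBall (by positivity) hsub
    linarith
  · -- the denominator is bounded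
    have hnorm : ‖2 * mt + 1‖ ≤ 2 * Y + 3 := by
      have h1 : ‖mt‖ ≤ |mt.re| + |mt.im| := Complex.norm_le_abs_re_add_abs_im mt
      rw [hmt0, abs_zero, zero_add] at h1
      calc ‖2 * mt + 1‖ ≤ ‖2 * mt‖ + ‖(1 : ℂ)‖ := norm_add_le _ _
        _ = 2 * ‖mt‖ + 1 := by rw [norm_mul, Complex.norm_ofNat, norm_one]
        _ ≤ 2 * Y + 3 := by linarith
    have h2 : 2 ≤ (2 * Y + 3) * (2 * Real.pi * M / q) := by
      have h3 := congrArg (fun z : ℂ => ‖z‖) hmte
      simp only [norm_mul, Complex.norm_ofNat] at h3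
      have h4 := dist_one hp hpq
      rw [← hMd] at h4
      calc (2 : ℝ) = ‖2 * mt + 1‖ * ‖1 - exp (2 * Real.pi * I * p / q)‖ := h3.symm
        _ ≤ (2 * Y + 3) * (2 * Real.pi * M / q) :=
          mul_le_mul hnorm h4 (norm_nonneg _) (by linarith)
    have h5 : (q : ℝ) ≤ Real.pi * (2 * Y + 3) * M := by
      have h6 : (2 * Y + 3) * (2 * Real.pi * M / q) = 2 * (Real.pi * (2 * Y + 3) * M) / q := by
        ring
      rw [h6, le_div_iff₀ hq] at h2
      linarith
    have hsb : s ≤ C1 * K * (Real.pi * (2 * Y + 3)) ^ 2 / 6 / q := by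
      rw [hs', div_div, div_le_div_iff₀ (by positivity) (by positivity)]
      have h7 : (q : ℝ) ^ 2 ≤ (Real.pi * (2 * Y + 3) * M) ^ 2 := pow_le_pow_left₀ hq.le h5 2
      have h8 : 0 ≤ C1 * K := by positivity
      calc C1 * K * q * (6 * q) = 6 * (C1 * K) * (q : ℝ) ^ 2 := by ring
        _ ≤ 6 * (C1 * K) * (Real.pi * (2 * Y + 3) * M) ^ 2 :=
          mul_le_mul_of_nonneg_left h7 (by positivity)
        _ = C1 * K * (Real.pi * (2 * Y + 3)) ^ 2 * (6 * M ^ 2) := by ring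
    have hsub : A ⊆ Metric.closedBall r (64 / κ * s) := by
      intro c hc
      obtain ⟨m, hm, rfl⟩ := hmtA c hc
      rw [mem_closedBall_iff_norm, ← hmtr]
      exact lip hκ hQ hsκ mt m hmt0 hm
    have h9 := Metric.diam_le_of_subset_closedBall (by positivity) hsub
    have h10 : ε ≤ 128 / κ * (C1 * K * (Real.pi * (2 * Y + 3)) ^ 2 / 6) / q := by
      calc ε ≤ 2 * (64 / κ * s) := hA.trans h9
        _ = 128 / κ * s := by ring
        _ ≤ 128 / κ * (C1 * K * (Real.pi * (2 * Y + 3)) ^ 2 / 6 / q) :=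
          mul_le_mul_of_nonneg_left hsb (by positivity)
        _ = _ := by ring
    have h12 : (q : ℝ) < N := by
      rw [le_div_iff₀ hq] at h10
      rw [div_lt_iff₀ hε] at hN'
      nlinarith
    have h13 : q < N := by exact_mod_cast h12
    simp only [Finset.coe_product, Finset.coe_range, Set.mem_prod, Set.mem_Iio]
    omega

end Pool.Agent.AEN
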