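import Pool.Agent.AEN.Targets3
import Pool.Agent.AEN.P_FLF

/-!
# AEN: FLM, the size of the limbs
-/

set_option autoImplicit false

open Complex Filter Topology Set MeasureTheory
open Pool.Agent.Multibrot (MM)
open Pool.Agent.Limb (F)
open Pool.Agent.PLim (Rho LocFix OMXn)
open Pool.Agent.MEX (Exa)
open Pool.Agent.MEY (Pt)
open Pool.Agent.PSat (Comp Sat Lmb)
open Pool.Agent.MEZ (T_AEL T_NCZ T_SECZ NCZk SECZk Fz)

namespace Pool.Agent.AEN

namespace FLM_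

/-- the Lipschitz estimate near the imaginary axis -/
theorem lip {κ s B : ℝ} {Q : ℂ → ℂ} (hκ : 0 < κ) (hd : DifferentiableOn ℂ Q (Hk κ))
    (hs : s ≤ κ / 8) (hB : ∀ x : ℂ, -s ≤ x.re → ‖deriv Q x‖ ≤ B) (mt m : ℂ)
    (h0 : mt.re = 0) (hm : ‖m - mt‖ ≤ s) : ‖Q m - Q mt‖ ≤ B * s := by
  have hs0 : 0 ≤ s := (norm_nonneg _).trans hm
  have hre : ∀ x ∈ Metric.closedBall mt s, -s ≤ x.re := by
    intro x hx
    rw [mem_closedBall_iff_norm] at hx
    have h1 := (abs_le.mp ((abs_re_le_norm (x - mt)).trans hx)).1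
    rw [sub_re, h0] at h1
    linarith
  have hop : IsOpen (Hk κ) := isOpen_lt continuous_const continuous_re
  have hB0 : 0 ≤ B := (norm_nonneg _).trans (hB mt (by rw [h0]; linarith))
  have h1 : ‖Q m - Q mt‖ ≤ B * ‖m - mt‖ := by
    refine (convex_closedBall mt s).norm_image_sub_le_of_norm_deriv_le (𝕜 := ℂ) ?_ ?_ ?_ ?_
    · intro x hx
      have h2 := hre x hx
      have h3 : x ∈ Hk κ := by
        show -κ < x.re
        linarith
      exact (hd x h3).differentiableAt (hop.mem_nhds h3)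
    · intro x hx
      exact hB x (hre x hx)
    · exact Metric.mem_closedBall_self hs0
    · rw [mem_closedBall_iff_norm]
      exact hm
  exact h1.trans (mul_le_mul_of_nonneg_left hm hB0)

end FLM_

open FLM_ in
theorem p_FLM (h₁ : T_EXZ) (h₂ : T_UVP) (h₃ : T_NBD3) (h₄ : T_LMQ)
    (h₅ : Pool.Agent.PSat.T_CST) : T_FLM := by
  rintro ⟨κ0, hκ0, hN0⟩
  obtain ⟨κ', hκ', hκ'1, hN⟩ : ∃ κ : ℝ, 0 < κ ∧ κ ≤ 1 ∧ NCZk κ :=
    ⟨min κ0 1, lt_min hκ0 one_pos, min_le_right _ _, FLF_.ncz_mono (min_le_left _ _) hN0⟩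
  obtain ⟨κ, hκd⟩ : ∃ κ : ℝ, κ = κ' / 5000 := ⟨_, rfl⟩
  have hκ : 0 < κ := by rw [hκd]; positivity
  have hκ1 : κ ≤ 1 / 5000 := by rw [hκd]; linarith
  obtain ⟨C1, hC1, hCst⟩ := h₅
  have hC1p : 0 < C1 := by linarith
  refine ⟨11 * C1 / κ, ?_, ?_⟩
  · rw [le_div_iff₀ hκ]
    linarith
  intro C hC K p q P b r A hP hb hvol hL hsg c hc
  obtain ⟨Q, Z, hQ, hZ⟩ := h₁ κ' hκ' hκ'1 hN K P hP
  rw [← hκd] at hQ hZ
  have hUv : Uv κ b Q := h₂ κ b K P Q hκ (by linarith) hb hP hQ hvol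
  have hK : (1 : ℝ) ≤ K := by exact_mod_cast hP.hK
  have hp := hL.hp
  have hpq := hL.hpq
  have hq : (0 : ℝ) < q := by exact_mod_cast (lt_trans hp hpq)
  obtain ⟨M, hMd⟩ : ∃ M : ℝ, M = ((min p (q - p) : ℕ) : ℝ) := ⟨_, rfl⟩
  have hM : 1 ≤ M := by
    rw [hMd]
    have : 1 ≤ min p (q - p) := by
      rw [le_min_iff]
      omega
    exact_mod_cast this
  have hMp : 0 < M := by linarith
  have hCp : 0 < C := lt_of_lt_of_le (by positivity) hC
  obtain ⟨σ, hσd⟩ : ∃ σ : ℝ, σ = sg C K p q := ⟨_, rfl⟩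
  obtain ⟨σ1, hσ1d⟩ : ∃ σ1 : ℝ, σ1 = sg C1 K p q := ⟨_, rfl⟩
  rw [← hσd] at hsg ⊢
  have hσe : σ = C * K * q / M ^ 2 := by rw [hσd]; unfold sg; rw [← hMd]
  have hσ1e : σ1 = C1 * K * q / M ^ 2 := by rw [hσ1d]; unfold sg; rw [← hMd]
  have hσ1p : 0 < σ1 := by rw [hσ1e]; positivity
  -- the basic comparison
  have h11 : 11 * σ1 ≤ κ * σ := by
    have h5 : 11 * C1 ≤ κ * C := by
      rw [div_le_iff₀ hκ] at hC
      linarith
    rw [hσe, hσ1e, mul_div_assoc', mul_div_assoc']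
    refine div_le_div_of_nonneg_right ?_ (by positivity)
    calc 11 * (C1 * K * q) = 11 * C1 * (K * q) := by ring
      _ ≤ κ * C * (K * q) := mul_le_mul_of_nonneg_right h5 (by positivity)
      _ = κ * (C * K * q) := by ring
  have hσ1κ : 11 * σ1 ≤ κ := by
    have : κ * σ ≤ κ * 1 := mul_le_mul_of_nonneg_left hsg hκ.le
    linarith
  have hlt : C1 * K * q < κ * M ^ 2 := by
    have h1 : σ1 < κ := by linarith
    rw [hσ1e, div_lt_iff₀ (by positivity)] at h1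
    exact h1
  rw [hMd] at hlt
  obtain ⟨mt, hmt0, hmte, hmtr, hmtA⟩ := h₄ C1 κ K p q P Q Z r A hC1p hCst.omx hκ hκ1 hP hQ hZ
    hL hlt
  obtain ⟨m, hm, rfl⟩ := hmtA c hc
  rw [← hσ1d] at hm
  rw [← hmtr]
  obtain ⟨s, hsd⟩ : ∃ s : ℝ, s = σ1 / 6 := ⟨_, rfl⟩
  rw [← hsd] at hm
  have hs0 : 0 < s := by rw [hsd]; positivity
  have hsκ : s ≤ κ / 8 := by rw [hsd]; linarith
  have hσp : 0 < σ := by
    have : 0 < κ * σ := by linarith
    exact (mul_pos_iff_of_pos_left hκ).mp this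
  rcases le_or_gt b 1 with hb1 | hb1
  · -- small area
    have hlog : Real.log (1 / b) = |Real.log b| := by
      rw [one_div, Real.log_inv, abs_of_nonpos (Real.log_nonpos hb.le hb1)]
    have h1 := lip hκ hUv.dQ hsκ (fun x hx => h₃ κ b s Q hUv hb1 hs0.le hsκ x hx) mt m hmt0 hm
    rw [hlog] at h1
    refine h1.trans ?_
    have hL0 : 0 ≤ 1 + |Real.log b| := by positivity
    have he : b ^ (2 - 4 * s / κ) ≤ b ^ (2 - σ) := by
      refine Real.rpow_le_rpow_of_exponent_ge hb hb1 ?_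
      have h6 : 4 * s / κ ≤ σ := by
        rw [div_le_iff₀ hκ, hsd]
        nlinarith
      linarith
    have h7 : 60 / κ * s ≤ σ := by
      rw [div_mul_eq_mul_div, div_le_iff₀ hκ, hsd]
      nlinarith
    calc 60 * b ^ (2 - 4 * s / κ) * (1 + |Real.log b|) / κ * s
        = 60 / κ * s * b ^ (2 - 4 * s / κ) * (1 + |Real.log b|) := by ring
      _ ≤ σ * b ^ (2 - σ) * (1 + |Real.log b|) := by
        refine mul_le_mul_of_nonneg_right ?_ hL0
        exact mul_le_mul h7 he (Real.rpow_nonneg hb.le _) hσp.le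
  · -- large area
    have h1 := FLF_.lip hκ hQ hsκ mt m hmt0 hm
    have h7 : 64 / κ * s ≤ σ := by
      rw [div_mul_eq_mul_div, div_le_iff₀ hκ, hsd]
      nlinarith
    have h8 : 1 ≤ b ^ (2 - σ) := Real.one_le_rpow hb1.le (by linarith)
    have h9 : (1 : ℝ) ≤ 1 + |Real.log b| := by linarith [abs_nonneg (Real.log b)]
    calc ‖Q m - Q mt‖ ≤ σ := h1.trans h7
      _ = σ * 1 * 1 := by ring
      _ ≤ σ * b ^ (2 - σ) * (1 + |Real.log b|) := by
        refine mul_le_mul ?_ h9 zero_le_one (by positivity)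
        exact mul_le_mul_of_nonneg_left h8 hσp.le

end Pool.Agent.AEN
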