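import Pool.Agent.AEN.Targets3

/-!
# AEN: proof of LGJ (inversion of an inequality)
-/

set_option autoImplicit false

namespace Pool.Agent.AEN

namespace LGJ_

/-- `log (1 + u) ≤ u / 8 + 5 / 4`. -/
lemma log_one_add (u : ℝ) (hu : 0 ≤ u) : Real.log (1 + u) ≤ u / 8 + 5 / 4 := by
  have h8 : Real.log 8 ≤ 21 / 10 := by
    have h1 : Real.log 8 = 3 * Real.log 2 := by
      have h0 : (8 : ℝ) = 2 ^ 3 := by norm_num
      rw [h0, Real.log_pow]
      norm_num
    have h2 := Real.log_two_lt_d9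
    rw [h1]
    linarith
  have h1 : Real.log ((1 + u) / 8) ≤ (1 + u) / 8 - 1 :=
    Real.log_le_sub_one_of_pos (by positivity)
  rw [Real.log_div (by positivity) (by norm_num)] at h1
  linarith

/-- The bound for the logarithm. -/
lemma log_bound (C ε a : ℝ) (hC : 1 ≤ C) (hε : 0 < ε) (ha : 0 < a) (ha1 : a ≤ 1000)
    (h : ε ≤ C * a ^ (1 / 4 : ℝ) * (1 + |Real.log a|)) :
    1 + |Real.log a| ≤ (11 + 8 * Real.log C) * (1 + |Real.log ε|) := by
  have hC0 : 0 < C := by linarith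
  have hl : 0 ≤ Real.log C := Real.log_nonneg hC
  have he := abs_nonneg (Real.log ε)
  rcases le_total 1 a with h1 | h1
  · have h2 : 0 ≤ Real.log a := Real.log_nonneg h1
    have h3 : Real.log a ≤ Real.log 1000 := Real.log_le_log ha ha1
    have h4 : Real.log 1000 ≤ Real.log (2 ^ 10 : ℝ) :=
      Real.log_le_log (by norm_num) (by norm_num)
    rw [Real.log_pow] at h4
    have h5 := Real.log_two_lt_d9
    push_cast at h4
    rw [abs_of_nonneg h2]
    nlinarith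
  · have h2 : Real.log a ≤ 0 := Real.log_nonpos ha.le h1
    rw [abs_of_nonpos h2] at h ⊢
    obtain ⟨u, hu⟩ : ∃ u : ℝ, u = -Real.log a := ⟨_, rfl⟩
    rw [← hu] at h ⊢
    have hu0 : 0 ≤ u := by linarith
    have h3 : Real.log ε ≤ Real.log (C * a ^ (1 / 4 : ℝ) * (1 + u)) := Real.log_le_log hε h
    have ha4 : 0 < a ^ (1 / 4 : ℝ) := Real.rpow_pos_of_pos ha _
    rw [Real.log_mul (by positivity) (by positivity), Real.log_mul hC0.ne' ha4.ne',
      Real.log_rpow ha] at h3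
    have h4 := log_one_add u hu0
    have h5 := neg_abs_le (Real.log ε)
    nlinarith

end LGJ_

open LGJ_ in
theorem p_LGJ : T_LGJ := by
  intro C hC
  have hC0 : 0 < C := by linarith
  have hl : 0 ≤ Real.log C := Real.log_nonneg hC
  obtain ⟨C2, hC2⟩ : ∃ C2 : ℝ, C2 = 11 + 8 * Real.log C := ⟨_, rfl⟩
  have hC2' : 11 ≤ C2 := by rw [hC2]; linarith
  have hCC : 1 ≤ C * C2 := by nlinarith
  refine ⟨(C * C2) ^ 4, one_le_pow₀ hCC, ?_⟩
  intro ε a hε ha ha1 h
  have h1 := log_bound C ε a hC hε ha ha1 h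
  rw [← hC2] at h1
  have ha4 : 0 < a ^ (1 / 4 : ℝ) := Real.rpow_pos_of_pos ha _
  have ha44 : (a ^ (1 / 4 : ℝ)) ^ 4 = a := by
    rw [← Real.rpow_natCast, ← Real.rpow_mul ha.le]
    norm_num
  have h2 : ε ≤ C * a ^ (1 / 4 : ℝ) * (C2 * (1 + |Real.log ε|)) :=
    h.trans (by gcongr)
  calc ε ^ 4 ≤ (C * a ^ (1 / 4 : ℝ) * (C2 * (1 + |Real.log ε|))) ^ 4 := by gcongr
    _ = (C * C2) ^ 4 * (a ^ (1 / 4 : ℝ)) ^ 4 * (1 + |Real.log ε|) ^ 4 := by ring
    _ = (C * C2) ^ 4 * a * (1 + |Real.log ε|) ^ 4 := by rw [ha44]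

end Pool.Agent.AEN
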