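import Pool.Agent.AEN.Targets3
import Pool.Agent.PLim.CNT

/-!
# AEN, LM1: the limit at the root
-/

set_option autoImplicit false

open Complex Filter Topology Set MeasureTheory
open Pool.Agent.Multibrot (MM)
open Pool.Agent.Limb (F)
open Pool.Agent.PLim (Rho LocFix OMXn)
open Pool.Agent.MEX (Exa)
open Pool.Agent.MEY (Pt)
open Pool.Agent.PSat (Comp Sat Lmb)
open Pool.Agent.MEZ (T_AEL T_NCZ T_SECZ NCZk SECZk Fz)

namespace Pool.Agent.AEN

namespace LM1_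

/-- the fixed points of the iterate over `‖c‖ ≤ 16` -/
def EE (k : ℕ) : Set (ℂ × ℂ) := {x | (F 2 x.1)^[k] x.2 = x.2 ∧ ‖x.1‖ ≤ 16}

theorem EE_compact {k : ℕ} (hk : 1 ≤ k) : IsCompact (EE k) := by
  have hcl : IsClosed (EE k) := by
    have h1 : IsClosed {x : ℂ × ℂ | (F 2 x.1)^[k] x.2 = x.2} :=
      isClosed_eq (Pool.Agent.PLim.CNT_contI 2 k) continuous_snd
    have h2 : IsClosed {x : ℂ × ℂ | ‖x.1‖ ≤ 16} :=
      isClosed_le (continuous_norm.comp continuous_fst) continuous_const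
    exact h1.inter h2
  have hK : IsCompact (Metric.closedBall (0 : ℂ) 16 ×ˢ Metric.closedBall (0 : ℂ) 18) :=
    (isCompact_closedBall _ _).prod (isCompact_closedBall _ _)
  refine hK.of_isClosed_subset hcl ?_
  rintro ⟨c, z⟩ ⟨h1, h2⟩
  have h3 := Pool.Agent.PLim.CNT_root (le_refl 2) hk h1
  have h2' : ‖c‖ ≤ 16 := h2
  have h3' : ‖z‖ ≤ 2 + ‖c‖ := h3
  refine ⟨?_, ?_⟩
  · rw [mem_closedBall_zero_iff]; exact h2'
  · rw [mem_closedBall_zero_iff]
    show ‖z‖ ≤ 18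
    linarith

instance neb : (𝓝[Metric.ball (0 : ℂ) 1] (1 : ℂ)).NeBot := by
  rw [← mem_closure_iff_nhdsWithin_neBot, closure_ball (0 : ℂ) one_ne_zero]
  simp

/-- cluster values of `P` at `1` are parameters with a multiplier one -/
theorem clus {K : ℕ} {P : ℂ → ℂ} (h2 : Pool.Agent.PLim.T_BIG) (hP : Comp K P) (U : Set ℂ)
    (hU : IsClosed U) (hf : ∃ᶠ v in 𝓝[Metric.ball (0 : ℂ) 1] (1 : ℂ), P v ∈ U) :
    ∃ c ∈ U, (∃ z : ℂ, (F 2 c)^[K] z = z ∧ Rho 2 K c z = 1) ∧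
      MapClusterPt c (𝓝[Metric.ball (0 : ℂ) 1] (1 : ℂ)) P := by
  classical
  set l := 𝓝[Metric.ball (0 : ℂ) 1] (1 : ℂ) with hl
  choose! zf hzf using hP.pt
  have hball : ∀ᶠ v in l, v ∈ Metric.ball (0 : ℂ) 1 := eventually_mem_nhdsWithin
  have hE : IsCompact (EE K ∩ (Prod.fst ⁻¹' U)) :=
    (EE_compact hP.hK).inter_right (hU.preimage continuous_fst)
  have hfr : ∃ᶠ v in l, (P v, zf v) ∈ EE K ∩ (Prod.fst ⁻¹' U) := by
    refine (hf.and_eventually hball).mono ?_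
    rintro v ⟨hv1, hv2⟩
    have hpt := hzf v hv2
    refine ⟨⟨hpt.fix, ?_⟩, hv1⟩
    by_contra hc
    have hc' : 16 ≤ ‖P v‖ := le_of_not_ge hc
    have h5 := h2 2 K (P v) (zf v) (le_refl 2) hP.hK hc' hpt.fix
    rw [hpt.mul] at h5
    have h6 : ‖v‖ < 1 := by simpa using hv2
    have h7 : (1 : ℝ) < Real.exp 1 := Real.one_lt_exp_iff.mpr one_pos
    linarith
  obtain ⟨⟨c, z⟩, ⟨hcz1, hcz2⟩, hcl⟩ := hE.exists_mapClusterPt_of_frequently hfr
  refine ⟨c, hcz2, ⟨z, hcz1.1, ?_⟩, ?_⟩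
  · have h8 := hcl.continuousAt_comp (Pool.Agent.PLim.CNT_contR 2 K).continuousAt
    have h9 : Tendsto ((fun q : ℂ × ℂ => Rho 2 K q.1 q.2) ∘ fun v => (P v, zf v)) l (𝓝 1) := by
      have h10 : Tendsto (fun v : ℂ => v) l (𝓝 1) := tendsto_nhdsWithin_of_tendsto_nhds tendsto_id
      refine h10.congr' ?_
      filter_upwards [hball] with v hv
      exact (hzf v hv).mul.symm
    have h11 : ClusterPt (Rho 2 K c z) (𝓝 (1 : ℂ)) := ClusterPt.mono h8 h9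
    exact eq_of_nhds_neBot h11
  · exact hcl.continuousAt_comp continuous_fst.continuousAt

end LM1_

open LM1_ in
theorem p_LM1 (h1 : Pool.Agent.PLim.T_FINF) (h2 : Pool.Agent.PLim.T_BIG) : T_LM1 := by
  intro K P hP
  set l := 𝓝[Metric.ball (0 : ℂ) 1] (1 : ℂ) with hl
  set S : Set ℂ := {c : ℂ | ∃ z : ℂ, (F 2 c)^[K] z = z ∧ Rho 2 K c z = 1} with hS
  have hSf : S.Finite := h1 2 K (le_refl 2) hP.hK
  obtain ⟨r0, -, hr0S, hr0c⟩ := clus h2 hP univ isClosed_univ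
    (by simpa using LM1_.neb)
  refine ⟨r0, ?_⟩
  rw [Metric.tendsto_nhds]
  intro ε hε
  -- separation
  have hT : (S \ {r0}).Finite := hSf.subset sdiff_subset
  have hsep : SeparatedNhds ({r0} : Set ℂ) (S \ {r0}) := by
    refine SeparatedNhds.of_isCompact_isCompact isCompact_singleton hT.isCompact ?_
    rw [Set.disjoint_left]
    rintro x hx ⟨-, hx2⟩
    exact hx2 hx
  obtain ⟨U0, V, hU0, hV, hrU0, hTV, hUV⟩ := hsep
  set U : Set ℂ := U0 ∩ Metric.ball r0 ε with hU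
  have hUo : IsOpen U := hU0.inter Metric.isOpen_ball
  have hUVd : Disjoint U V := hUV.mono_left inter_subset_left
  have hr0U : r0 ∈ U := ⟨hrU0 rfl, Metric.mem_ball_self hε⟩
  have hev : ∀ᶠ v in l, P v ∈ U ∪ V := by
    by_contra hne
    have hfr : ∃ᶠ v in l, P v ∈ (U ∪ V)ᶜ := by
      rw [Filter.not_eventually] at hne
      exact hne
    obtain ⟨c, hc, hcS, -⟩ := clus h2 hP _ (hUo.union hV).isClosed_compl hfr
    by_cases hcr : c = r0
    · exact hc (Or.inl (hcr ▸ hr0U))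
    · exact hc (Or.inr (hTV ⟨hcS, hcr⟩))
  obtain ⟨ρ, hρ, hsub⟩ := Metric.mem_nhdsWithin_iff.mp hev
  set B : Set ℂ := Metric.ball (1 : ℂ) ρ ∩ Metric.ball (0 : ℂ) 1 with hB
  have hBl : B ∈ l := Metric.mem_nhdsWithin_iff.mpr ⟨ρ, hρ, subset_rfl⟩
  have hBc : IsPreconnected (P '' B) := by
    refine IsPreconnected.image ?_ P (hP.dP.continuousOn.mono inter_subset_right)
    exact ((convex_ball (1 : ℂ) ρ).inter (convex_ball (0 : ℂ) 1)).isPreconnected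
  have hBU : P '' B ⊆ U ∪ V := by
    rintro _ ⟨v, hv, rfl⟩
    exact hsub hv
  have hne : (P '' B ∩ U).Nonempty := by
    have h5 : ∃ᶠ v in l, P v ∈ U := hr0c.frequently (hUo.mem_nhds hr0U)
    obtain ⟨v, hv1, hv2⟩ := (h5.and_eventually hBl).exists
    exact ⟨P v, ⟨v, hv2, rfl⟩, hv1⟩
  have hfin : P '' B ⊆ U := hBc.subset_left_of_subset_union hUo hV hUVd hBU hne
  filter_upwards [hBl] with v hv
  exact (hfin ⟨v, hv, rfl⟩).2

end Pool.Agent.AEN
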