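import Pool.Agent.AEN.Targets3
import Pool.Agent.PLim.CNT

/-!
# AEN, LMQ: the limb in the coordinate `m`
-/

set_option autoImplicit false

open Complex Filter Topology Set MeasureTheory
open Pool.Agent.Multibrot (MM)
open Pool.Agent.Limb (F)
open Pool.Agent.PLim (Rho LocFix OMXn)
open Pool.Agent.MEX (Exa)
open Pool.Agent.MEY (Pt)
open Pool.Agent.PSat (Comp Sat Lmb)
open Pool.Agent.MEZ (T_AEL T_NCZ T_SECZ NCZk SECZk Fz)

namespace Pool.Agent.AEN

namespace LMQ_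

/-- The coordinate as a function of the multiplier. -/
noncomputable def mm (v : ℂ) : ℂ := (1 + v) / (2 * (1 - v))

lemma mm_add {v : ℂ} (hv : 1 - v ≠ 0) : 2 * mm v + 1 = 2 / (1 - v) := by
  unfold mm
  field_simp
  ring

lemma mm_sub {v : ℂ} (hv : 1 - v ≠ 0) : 2 * mm v - 1 = 2 * v / (1 - v) := by
  unfold mm
  field_simp
  ring

lemma vm_mm {v : ℂ} (hv : 1 - v ≠ 0) : vm (mm v) = v := by
  unfold vm
  rw [mm_add hv, mm_sub hv]
  field_simp

lemma mm_diff {v w : ℂ} (hv : 1 - v ≠ 0) (hw : 1 - w ≠ 0) :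
    mm v - mm w = (v - w) / ((1 - v) * (1 - w)) := by
  unfold mm
  field_simp
  ring

lemma mm_re {v : ℂ} (hv : ‖v‖ = 1) : (mm v).re = 0 := by
  have h1 : v.re * v.re + v.im * v.im = 1 := by
    have := Complex.sq_norm v
    rw [hv, Complex.normSq_apply] at this
    linarith
  unfold mm
  rw [Complex.div_re, ← add_div]
  have h2 : (1 + v).re * (2 * (1 - v)).re + (1 + v).im * (2 * (1 - v)).im = 0 := by
    simp only [Complex.add_re, Complex.one_re, Complex.mul_re, Complex.re_ofNat, Complex.sub_re,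
      Complex.im_ofNat, Complex.sub_im, Complex.one_im, Complex.add_im, Complex.mul_im]
    linear_combination (-2 : ℝ) * h1
  rw [h2, zero_div]

/-- The distance of the root of unity to one. -/
lemma dist_one {p q : ℕ} (hp : 0 < p) (hpq : p < q) :
    4 * (((min p (q - p) : ℕ) : ℝ) / q) ≤ ‖1 - exp ((2 * Real.pi * p / q : ℝ) * I)‖ := by
  have hq : (0 : ℝ) < q := by exact_mod_cast hp.trans hpq
  have hpi := Real.pi_pos
  rw [norm_sub_rev, mul_comm _ I, Complex.norm_exp_I_mul_ofReal_sub_one, norm_mul]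
  have h2 : ‖(2 : ℝ)‖ = 2 := by norm_num
  rw [h2]
  have hx : 2 * Real.pi * p / q / 2 = Real.pi * (p / q) := by ring
  rw [hx]
  have hs : 2 * (((min p (q - p) : ℕ) : ℝ) / q) ≤ Real.sin (Real.pi * (p / q)) := by
    rcases le_total p (q - p) with h | h
    · rw [min_eq_left h]
      have h3 : (p : ℝ) / q ≤ 1 / 2 := by
        rw [div_le_div_iff₀ hq (by norm_num)]
        have : 2 * p ≤ q := by omega
        have : (2 : ℝ) * p ≤ q := by exact_mod_cast this
        linarith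
      have h4 := Real.mul_le_sin (x := Real.pi * (p / q)) (by positivity) (by nlinarith)
      have h5 : 2 / Real.pi * (Real.pi * (p / q)) = 2 * ((p : ℝ) / q) := by
        field_simp
      linarith
    · rw [min_eq_right h]
      have h3 : 1 / 2 ≤ (p : ℝ) / q := by
        rw [div_le_div_iff₀ (by norm_num) hq]
        have : q ≤ 2 * p := by omega
        have : (q : ℝ) ≤ 2 * p := by exact_mod_cast this
        linarith
      have h6 : (p : ℝ) / q ≤ 1 := by
        rw [div_le_one hq]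
        exact_mod_cast hpq.le
      have h4 := Real.mul_le_sin (x := Real.pi - Real.pi * (p / q)) (by nlinarith) (by nlinarith)
      rw [Real.sin_pi_sub] at h4
      have h5 : 2 / Real.pi * (Real.pi - Real.pi * (p / q)) = 2 * (1 - (p : ℝ) / q) := by
        field_simp
      have h7 : ((q - p : ℕ) : ℝ) / q = 1 - (p : ℝ) / q := by
        rw [Nat.cast_sub hpq.le, sub_div, div_self hq.ne']
      rw [h7]
      linarith
  calc 4 * (((min p (q - p) : ℕ) : ℝ) / q) = 2 * (2 * (((min p (q - p) : ℕ) : ℝ) / q)) := by ring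
    _ ≤ 2 * Real.sin (Real.pi * (p / q)) := by linarith
    _ ≤ 2 * ‖Real.sin (Real.pi * (p / q))‖ := by
      have := le_abs_self (Real.sin (Real.pi * (p / q)))
      rw [Real.norm_eq_abs]
      linarith

lemma exp_near {μ : ℂ} {τ : ℝ} (h : ‖μ - τ * I‖ ≤ 1) :
    ‖exp μ - exp (τ * I)‖ ≤ 2 * ‖μ - τ * I‖ := by
  have h1 : exp μ - exp (τ * I) = exp (τ * I) * (exp (μ - τ * I) - 1) := by
    rw [mul_sub, ← Complex.exp_add, mul_one]
    congr 2
    ring
  rw [h1, norm_mul, Complex.norm_exp_ofReal_mul_I, one_mul]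
  exact Complex.norm_exp_sub_one_le h

/-- The derivative of a section does not vanish. -/
lemma deriv_ne (h₃ : Pool.Agent.PLim.T_LOCZ) {k : ℕ} {ψ χ : ℂ → ℂ} {W : Set ℂ} (hW : IsOpen W)
    (hψ : DifferentiableOn ℂ ψ W) (hχ : ContinuousOn χ W)
    (hpt : ∀ μ ∈ W, Pt 2 k (ψ μ) (χ μ) (exp μ)) {μ : ℂ} (hμ : μ ∈ W) (h1 : exp μ ≠ 1) :
    deriv ψ μ ≠ 0 := by
  have hn : W ∈ 𝓝 μ := hW.mem_nhds hμ
  have hψa : DifferentiableAt ℂ ψ μ := hψ.differentiableAt hn
  have hχa : ContinuousAt χ μ := hχ.continuousAt hn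
  have hP := hpt μ hμ
  obtain ⟨δ, r, zf, -, -, hL⟩ := h₃ 2 k (ψ μ) (χ μ) 1 le_rfl one_pos hP.fix (by
    rw [hP.mul]
    exact h1)
  have hgd : DifferentiableOn ℂ (fun c => Rho 2 k c (zf c)) (Metric.ball (ψ μ) δ) :=
    Pool.Agent.PLim.CNT_diffR 2 k zf _ hL.diff
  have hgd' : DifferentiableAt ℂ (fun c => Rho 2 k c (zf c)) (ψ μ) :=
    hgd.differentiableAt (Metric.ball_mem_nhds _ hL.hδ)
  have a1 : ∀ᶠ ν in 𝓝 μ, ψ ν ∈ Metric.ball (ψ μ) δ :=
    hψa.continuousAt.eventually (Metric.ball_mem_nhds _ hL.hδ)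
  have a2 : ∀ᶠ ν in 𝓝 μ, χ ν ∈ Metric.ball (χ μ) r :=
    hχa.eventually (Metric.ball_mem_nhds _ hL.hr)
  have hfg : ((fun c => Rho 2 k c (zf c)) ∘ ψ) =ᶠ[𝓝 μ] exp := by
    filter_upwards [hn, a1, a2] with ν b0 b1 b2
    have b3 := hL.uniq (ψ ν) b1 (χ ν) b2 (hpt ν b0).fix
    show Rho 2 k (ψ ν) (zf (ψ ν)) = exp ν
    rw [← b3]
    exact (hpt ν b0).mul
  intro h0
  have e1 : deriv ((fun c => Rho 2 k c (zf c)) ∘ ψ) μ = 0 := by
    rw [deriv_comp μ hgd' hψa, h0, mul_zero]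
  rw [hfg.deriv_eq, Complex.deriv_exp] at e1
  exact Complex.exp_ne_zero μ e1

/-- The value at the root. -/
lemma root (h₁ : T_MOB) {κ : ℝ} {P Q : ℂ → ℂ} {r mt v : ℂ} (hκ : 0 < κ) (hE : Exn κ P Q)
    (hre : mt.re = 0) (hv : vm mt = v) (hlim : Tendsto P (𝓝[Metric.ball 0 1] v) (𝓝 r)) :
    Q mt = r := by
  have hmt : mt ∈ Hk κ := by
    show -κ < mt.re
    rw [hre]
    linarith
  have hHk : IsOpen (Hk κ) := isOpen_lt continuous_const Complex.continuous_re
  have hQc : ContinuousAt Q mt := (hE.dQ.differentiableAt (hHk.mem_nhds hmt)).continuousAt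
  have hA := h₁.1 mt (by rw [hre]; norm_num)
  have hvc : Tendsto vm (𝓝[Hp] mt) (𝓝 v) := by
    have h := hA.2.2.1.continuousAt.tendsto
    rw [hv] at h
    exact h.mono_left nhdsWithin_le_nhds
  have hvb : ∀ᶠ m in 𝓝[Hp] mt, vm m ∈ Metric.ball (0 : ℂ) 1 := by
    filter_upwards [self_mem_nhdsWithin] with m hm
    have hm' : 0 < m.re := hm
    rw [mem_ball_zero_iff]
    exact (h₁.1 m (by linarith)).2.2.2.1.2 hm'
  have h1 : Tendsto (P ∘ vm) (𝓝[Hp] mt) (𝓝 r) :=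
    hlim.comp (tendsto_nhdsWithin_of_tendsto_nhds_of_eventually_within _ hvc hvb)
  have h2 : Tendsto Q (𝓝[Hp] mt) (𝓝 (Q mt)) := hQc.tendsto.mono_left nhdsWithin_le_nhds
  have h3 : Q =ᶠ[𝓝[Hp] mt] P ∘ vm := by
    filter_upwards [self_mem_nhdsWithin] with m hm
    exact hE.eq m hm
  have hne : (𝓝[Hp] mt).NeBot := by
    rw [← mem_closure_iff_nhdsWithin_neBot]
    show mt ∈ closure {m : ℂ | 0 < m.re}
    rw [Complex.closure_setOfPred_lt_re]
    show 0 ≤ mt.re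
    rw [hre]
  exact tendsto_nhds_unique h2 (h1.congr' h3.symm)

end LMQ_

open LMQ_ in
/-- LMQ: the limb in the coordinate `m`. -/
theorem p_LMQ (h₁ : T_MOB) (h₂ : Pool.Agent.MEY.T_LIMBZ) (h₃ : Pool.Agent.PLim.T_LOCZ) :
    T_LMQ := by
  intro C1 κ K p q P Q Z r A hC1 hO hκ hκ1 hK hE hS hL hlt
  have hp := hL.hp
  have hpq := hL.hpq
  have hq0 : 0 < q := by omega
  have hq : (0 : ℝ) < q := by exact_mod_cast hq0
  have hM1 : 1 ≤ min p (q - p) := by omega
  obtain ⟨M, hM⟩ : ∃ M : ℝ, ((min p (q - p) : ℕ) : ℝ) = M := ⟨_, rfl⟩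
  have hd1 := dist_one hp hpq
  have hMp : 1 ≤ M := by
    rw [← hM]
    exact_mod_cast hM1
  have hMq : 2 * M ≤ q := by
    rw [← hM]
    have : 2 * min p (q - p) ≤ q := by omega
    exact_mod_cast this
  unfold sg
  rw [hM] at hd1 hlt ⊢
  obtain ⟨d, hd⟩ : ∃ d : ℝ, M / q = d := ⟨_, rfl⟩
  have hd0 : 0 < d := by rw [← hd]; positivity
  have hdh : d ≤ 1 / 2 := by
    rw [← hd, div_le_div_iff₀ hq (by norm_num)]
    linarith
  rw [hd] at hd1
  set τ : ℝ := 2 * Real.pi * p / q with hτ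
  have hcast : (2 * Real.pi * I * p / q : ℂ) = (τ : ℂ) * I := by
    rw [hτ]
    push_cast
    ring
  have hlim := hL.lim
  rw [hcast] at hlim ⊢
  obtain ⟨v, hv⟩ : ∃ v : ℂ, exp ((τ : ℂ) * I) = v := ⟨_, rfl⟩
  rw [hv] at hd1 hlim ⊢
  have hvn : ‖v‖ = 1 := by rw [← hv, Complex.norm_exp_ofReal_mul_I]
  have hv1 : 1 - v ≠ 0 := by
    intro h
    rw [h, norm_zero] at hd1
    linarith
  have hmre : (mm v).re = 0 := mm_re hvn
  have hvm : vm (mm v) = v := vm_mm hv1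
  have hroot : Q (mm v) = r := root h₁ hκ hE hmre hvm hlim
  have hmSt : mm v ∈ St κ := by
    refine ⟨?_, ?_⟩
    · rw [hmre]; linarith
    · rw [hmre]; norm_num
  -- the radius
  obtain ⟨η, hη⟩ : ∃ η : ℝ, η = 6 * κ * d ^ 2 := ⟨_, rfl⟩
  have hη0 : 0 < η := by rw [hη]; positivity
  have hd2 : d ^ 2 ≤ 1 / 2 * d := by nlinarith
  have hη2 : 2 * η ≤ d := by
    rw [hη]
    have : κ * d ^ 2 ≤ 1 / 5000 * (1 / 2 * d) := by gcongr
    linarith
  have hη4 : η ≤ 1 / 4 := by linarith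
  have hCK : C1 * K / q < κ * d ^ 2 := by
    rw [← hd, div_pow, div_lt_iff₀ hq]
    have h1 : κ * (M ^ 2 / (q : ℝ) ^ 2) * q = κ * M ^ 2 / q := by
      field_simp
    rw [h1, lt_div_iff₀ hq]
    exact hlt
  have hCK0 : 0 ≤ C1 * K / q := by positivity
  have hκd : 0 < κ * d ^ 2 := by positivity
  have hCKη : 2 * (C1 * K / q) < η := by
    rw [hη]
    linarith
  -- the estimates on the ball
  have hest : ∀ μ : ℂ, ‖μ - τ * I‖ < η → 1 - exp μ ≠ 0 ∧
      ‖mm (exp μ) - mm v‖ ≤ ‖μ - τ * I‖ / (6 * d ^ 2) := by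
    intro μ hμ
    have e1 : ‖exp μ - v‖ ≤ 2 * ‖μ - τ * I‖ := by
      rw [← hv]
      exact exp_near (by linarith)
    have e2 : 3 * d ≤ ‖1 - exp μ‖ := by
      have : ‖1 - v‖ ≤ ‖1 - exp μ‖ + ‖exp μ - v‖ := by
        have h := norm_add_le (1 - exp μ) (exp μ - v)
        rwa [sub_add_sub_cancel] at h
      linarith
    have e3 : 1 - exp μ ≠ 0 := by
      intro h
      rw [h, norm_zero] at e2
      linarith
    refine ⟨e3, ?_⟩
    rw [mm_diff e3 hv1, norm_div, norm_mul]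
    calc ‖exp μ - v‖ / (‖1 - exp μ‖ * ‖1 - v‖)
        ≤ 2 * ‖μ - τ * I‖ / (3 * d * (4 * d)) := by
          gcongr
      _ = ‖μ - τ * I‖ / (6 * d ^ 2) := by
          field_simp
          ring
  have hSt : ∀ μ ∈ Metric.ball ((τ : ℂ) * I) η, mm (exp μ) ∈ St κ := by
    intro μ hμ
    rw [mem_ball_iff_norm] at hμ
    obtain ⟨-, e2⟩ := hest μ hμ
    have e3 : ‖μ - τ * I‖ / (6 * d ^ 2) < κ := by
      rw [div_lt_iff₀ (by positivity)]
      calc ‖μ - τ * I‖ < η := hμ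
        _ = κ * (6 * d ^ 2) := by rw [hη]; ring
    have e4 : |(mm (exp μ)).re| < κ := by
      have h := Complex.abs_re_le_norm (mm (exp μ) - mm v)
      rw [Complex.sub_re, hmre, sub_zero] at h
      linarith
    rw [abs_lt] at e4
    exact ⟨e4.1, by linarith [e4.2]⟩
  have hmd : DifferentiableOn ℂ (fun μ => mm (exp μ)) (Metric.ball ((τ : ℂ) * I) η) := by
    intro μ hμ
    rw [mem_ball_iff_norm] at hμ
    obtain ⟨e1, -⟩ := hest μ hμ
    have e5 : 2 * (1 - exp μ) ≠ 0 := mul_ne_zero two_ne_zero e1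
    unfold mm
    exact (((differentiableAt_const _).add differentiable_exp.differentiableAt).div
      ((differentiableAt_const _).mul ((differentiableAt_const _).sub
        differentiable_exp.differentiableAt)) e5).differentiableWithinAt
  have hψd : DifferentiableOn ℂ (fun μ => Q (mm (exp μ))) (Metric.ball ((τ : ℂ) * I) η) :=
    hS.dQ.comp hmd hSt
  have hχd : DifferentiableOn ℂ (fun μ => Z (mm (exp μ))) (Metric.ball ((τ : ℂ) * I) η) :=
    hS.dZ.comp hmd hSt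
  have hpt : ∀ μ ∈ Metric.ball ((τ : ℂ) * I) η,
      Pt 2 K (Q (mm (exp μ))) (Z (mm (exp μ))) (exp μ) := by
    intro μ hμ
    have h := hS.pt _ (hSt μ hμ)
    rw [mem_ball_iff_norm] at hμ
    rw [vm_mm (hest μ hμ).1] at h
    exact h
  have hfixt := hS.pt _ hmSt
  rw [hvm, hroot] at hfixt
  have hIL : Pool.Agent.PLim.IsLimb 2 K p q r (Z (mm v)) A :=
    { hk := hK.hK
      hp := hp
      hpq := hpq
      cop := hL.cop
      fix := hfixt.fix
      rho := by rw [hfixt.mul, hcast, hv]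
      sub := hL.sub
      op := hL.op
      cl := hL.cl
      nr := hL.nr
      n0 := hL.n0 }
  have hlimb := h₂ 2 C1 le_rfl hC1 hO K p q r (Z (mm v)) A η (fun μ => Q (mm (exp μ)))
    (fun μ => Z (mm (exp μ))) hIL hη0 hη4 hCKη hψd hχd.continuousOn
    (by show Q (mm (exp ((τ : ℂ) * I))) = r; rw [hv, hroot])
    (by show Z (mm (exp ((τ : ℂ) * I))) = Z (mm v); rw [hv])
    (fun μ hμ => ⟨hpt μ hμ, hS.bd _ (hSt μ hμ), deriv_ne h₃ Metric.isOpen_ball hψd
      hχd.continuousOn hpt hμ (by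
        rw [mem_ball_iff_norm] at hμ
        intro h
        exact (hest μ hμ).1 (by rw [h, sub_self]))⟩)
  refine ⟨mm v, hmre, ?_, hroot, ?_⟩
  · rw [mm_add hv1]
    field_simp
  · intro c hc
    obtain ⟨μ, hμ, hc'⟩ := hlimb c hc
    have hμη : ‖μ - τ * I‖ < η := by
      have : ‖μ - τ * I‖ ≤ C1 * K / q := hμ
      linarith
    refine ⟨mm (exp μ), ?_, hc'⟩
    refine (hest μ hμη).2.trans ?_
    have e1 : C1 * K * q / M ^ 2 / 6 = (C1 * K / q) / (6 * d ^ 2) := by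
      rw [← hd]
      field_simp
    rw [e1]
    gcongr

end Pool.Agent.AEN
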