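import Pool.Agent.AEN.Targets3
import Pool.Agent.AEN.P_NBD2

/-!
# AEN: NBD3, the derivative to the left of the half plane
-/

set_option autoImplicit false

open Complex Filter Topology Set MeasureTheory
open Pool.Agent.Multibrot (MM)
open Pool.Agent.Limb (F)
open Pool.Agent.PLim (Rho LocFix OMXn)
open Pool.Agent.MEX (Exa)
open Pool.Agent.MEY (Pt)
open Pool.Agent.PSat (Comp Sat Lmb)
open Pool.Agent.MEZ (T_AEL T_NCZ T_SECZ NCZk SECZk Fz)

namespace Pool.Agent.AEN

namespace NBD3_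

theorem sixteen {w : ℝ} (hw : w ≤ 1 / 4) : (16 : ℝ) ^ w ≤ 2 := by
  have h1 : (16 : ℝ) ^ w ≤ (16 : ℝ) ^ (1 / 4 : ℝ) :=
    Real.rpow_le_rpow_of_exponent_le (by norm_num) hw
  have h2 : (16 : ℝ) ^ (1 / 4 : ℝ) = 2 := by
    have h3 : (16 : ℝ) = (2 : ℝ) ^ (4 : ℝ) := by norm_num
    rw [h3, ← Real.rpow_mul (by norm_num)]
    norm_num
  rw [h2] at h1
  exact h1

/-- the interpolation -/
theorem interp {κ b l s : ℝ} (hκ : 0 < κ) (hb : 0 < b) (hl : 1 ≤ l)
    (hlb : l = 1 + Real.log (1 / b)) (hs0 : 0 ≤ s) (hs : s ≤ κ / 8) {x : ℝ} (hx0 : -s ≤ x)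
    (_hx1 : x ≤ κ / (4 * l)) (hKB : 4 * l * b ^ 2 / κ < 64 / κ) :
    (64 / κ) ^ (1 - (x - -(κ / 2)) / (κ / (4 * l) - -(κ / 2))) *
      (4 * l * b ^ 2 / κ) ^ ((x - -(κ / 2)) / (κ / (4 * l) - -(κ / 2))) ≤
      22 * b ^ (2 - 4 * s / κ) * l / κ := by
  have hl0 : 0 < l := by linarith
  set B : ℝ := 4 * l * b ^ 2 / κ with hB
  set K : ℝ := 64 / κ with hK
  set t : ℝ := (x - -(κ / 2)) / (κ / (4 * l) - -(κ / 2)) with ht
  have hB0 : 0 < B := by positivity
  have hK0 : 0 < K := by positivity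
  have hη : 0 < κ / (4 * l) := by positivity
  have hden : 0 < κ / (4 * l) - -(κ / 2) := by linarith
  have ht0 : 1 - t ≤ 1 / (2 * l + 1) + 2 * s / κ := by
    have h1 : 1 - t = (κ / (4 * l) - x) / (κ / (4 * l) - -(κ / 2)) := by
      rw [ht, eq_div_iff (by linarith), sub_mul, div_mul_cancel₀ _ (by linarith)]
      ring
    have h2 : κ / (4 * l) - -(κ / 2) = κ / (4 * l) * (2 * l + 1) := by
      field_simp
      ring
    have h3 : (κ / (4 * l) - x) / (κ / (4 * l) - -(κ / 2)) ≤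
        (κ / (4 * l) + s) / (κ / (4 * l) - -(κ / 2)) :=
      div_le_div_of_nonneg_right (by linarith) hden.le
    have h4 : κ / (4 * l) / (κ / (4 * l) - -(κ / 2)) = 1 / (2 * l + 1) := by
      rw [h2]
      field_simp
    have h5 : s / (κ / (4 * l) - -(κ / 2)) ≤ s / (κ / 2) :=
      div_le_div_of_nonneg_left hs0 (by linarith) (by linarith)
    have h6 : s / (κ / 2) = 2 * s / κ := by
      field_simp
    rw [h1]
    refine h3.trans ?_
    rw [add_div, h4]
    linarith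
  have hKBr : K / B = 16 / (l * b ^ 2) := by
    rw [hK, hB]
    field_simp
    norm_num
  have hKB1 : 1 ≤ K / B := by
    rw [one_le_div hB0]
    exact hKB.le
  have hKB0 : 0 < K / B := by positivity
  have hKB16 : K / B ≤ 16 * (1 / b) ^ 2 := by
    rw [hKBr, one_div_pow, mul_one_div]
    refine div_le_div_of_nonneg_left (by norm_num) (by positivity) ?_
    nlinarith [sq_nonneg b]
  have hlog : Real.log (K / B) ≤ 2 * l + 1 := by
    have h2 : Real.log (K / B) ≤ Real.log (16 * (1 / b) ^ 2) :=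
      Real.log_le_log (by positivity) hKB16
    rw [Real.log_mul (by norm_num) (by positivity), Real.log_pow] at h2
    have h3 := NBD2_.log16
    push_cast at h2
    linarith
  have h1 : K ^ (1 - t) * B ^ t = B * (K / B) ^ (1 - t) := by
    rw [Real.div_rpow hK0.le hB0.le]
    have h2 : B ^ t = B / B ^ (1 - t) := by
      rw [eq_div_iff (by positivity), ← Real.rpow_add hB0]
      simp
    rw [h2]
    ring
  rw [h1]
  have he : Real.exp 1 ≤ 2.75 := by
    have := Real.exp_one_lt_d9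
    linarith
  have h3 : (K / B) ^ (1 / (2 * l + 1)) ≤ 2.75 := by
    refine le_trans ?_ he
    rw [Real.rpow_def_of_pos (by positivity)]
    refine Real.exp_le_exp.mpr ?_
    calc Real.log (K / B) * (1 / (2 * l + 1)) ≤ (2 * l + 1) * (1 / (2 * l + 1)) :=
          mul_le_mul_of_nonneg_right hlog (by positivity)
      _ = 1 := by field_simp
  have hw0 : 0 ≤ 2 * s / κ := by positivity
  have hw1 : 2 * s / κ ≤ 1 / 4 := by
    rw [div_le_iff₀ hκ]
    linarith
  have h4 : (K / B) ^ (2 * s / κ) ≤ 2 * b ^ (-(4 * s / κ)) := by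
    have h5 : (K / B) ^ (2 * s / κ) ≤ (16 * (1 / b) ^ 2) ^ (2 * s / κ) :=
      Real.rpow_le_rpow hKB0.le hKB16 hw0
    have h6 : ((1 / b) ^ 2) ^ (2 * s / κ) = b ^ (-(4 * s / κ)) := by
      rw [one_div, ← Real.rpow_natCast, ← Real.rpow_mul (by positivity),
        Real.inv_rpow hb.le, ← Real.rpow_neg hb.le]
      congr 1
      push_cast
      ring
    rw [Real.mul_rpow (by norm_num) (by positivity), h6] at h5
    exact h5.trans (mul_le_mul_of_nonneg_right (sixteen hw1) (by positivity))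
  have h7 : (K / B) ^ (1 - t) ≤ 2.75 * (2 * b ^ (-(4 * s / κ))) := by
    calc (K / B) ^ (1 - t) ≤ (K / B) ^ (1 / (2 * l + 1) + 2 * s / κ) :=
          Real.rpow_le_rpow_of_exponent_le hKB1 ht0
      _ = (K / B) ^ (1 / (2 * l + 1)) * (K / B) ^ (2 * s / κ) := Real.rpow_add hKB0 _ _
      _ ≤ 2.75 * (2 * b ^ (-(4 * s / κ))) :=
          mul_le_mul h3 h4 (by positivity) (by norm_num)
  have h8 : b ^ (2 - 4 * s / κ) = b ^ 2 * b ^ (-(4 * s / κ)) := by
    rw [sub_eq_add_neg, Real.rpow_add hb]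
    norm_num
  calc B * (K / B) ^ (1 - t) ≤ B * (2.75 * (2 * b ^ (-(4 * s / κ)))) :=
        mul_le_mul_of_nonneg_left h7 hB0.le
    _ = 22 * b ^ (2 - 4 * s / κ) * l / κ := by
      rw [hB, h8]
      ring

end NBD3_

open NBD2_ in
open Complex.HadamardThreeLines in
theorem p_NBD3 (h₁ : T_MVA) : T_NBD3 := by
  intro κ b s Q h hb1 hs0 hs m hm
  have hκ := h.hκ
  have hb := h.hb
  obtain ⟨l, hl⟩ : ∃ l : ℝ, l = 1 + Real.log (1 / b) := ⟨_, rfl⟩
  rw [← hl]
  have hl1 : 1 ≤ l := by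
    have : 0 ≤ Real.log (1 / b) := Real.log_nonneg (by rw [one_le_div hb]; exact hb1)
    linarith
  have hl0 : 0 < l := by linarith
  have hη : 0 < κ / (4 * l) := by positivity
  have hw0 : 0 ≤ 4 * s / κ := by positivity
  have hb2 : b ^ 2 ≤ b ^ (2 - 4 * s / κ) := by
    have h1 : b ^ (2 : ℝ) ≤ b ^ (2 - 4 * s / κ) :=
      Real.rpow_le_rpow_of_exponent_ge hb hb1 (by linarith)
    rw [Real.rpow_two] at h1
    exact h1
  have hBb : 4 * l * b ^ 2 / κ ≤ 60 * b ^ (2 - 4 * s / κ) * l / κ := by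
    refine div_le_div_of_nonneg_right ?_ hκ.le
    have h1 : l * b ^ 2 ≤ l * b ^ (2 - 4 * s / κ) := mul_le_mul_of_nonneg_left hb2 hl0.le
    have h2 : 0 ≤ l * b ^ (2 - 4 * s / κ) := by positivity
    linarith
  have hηB : b ^ 2 / (κ / (4 * l)) = 4 * l * b ^ 2 / κ := by
    field_simp
  by_cases hc : κ / (4 * l) ≤ m.re
  · have h1 := part1 h₁ h m (lt_of_lt_of_le hη hc)
    have h2 : b ^ 2 / m.re ≤ b ^ 2 / (κ / (4 * l)) :=
      div_le_div_of_nonneg_left (by positivity) hη hc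
    rw [hηB] at h2
    linarith
  push Not at hc
  by_cases hBK : 64 / κ ≤ 4 * l * b ^ 2 / κ
  · exact (cauchy h m (by linarith)).trans (hBK.trans hBb)
  push Not at hBK
  have hul : -(κ / 2) < κ / (4 * l) := by linarith
  have hsub : verticalClosedStrip (-(κ / 2)) (κ / (4 * l)) ⊆ Hk κ := by
    intro z hz
    have h1 : -(κ / 2) ≤ z.re := hz.1
    show -κ < z.re
    linarith
  have hdQ : DifferentiableOn ℂ (deriv Q) (Hk κ) := h.dQ.deriv (isOpen_Hk κ)
  have hd : DiffContOnCl ℂ (deriv Q) (verticalStrip (-(κ / 2)) (κ / (4 * l))) := by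
    have hcl : closure (verticalStrip (-(κ / 2)) (κ / (4 * l))) ⊆
        verticalClosedStrip (-(κ / 2)) (κ / (4 * l)) := by
      refine closure_minimal (preimage_mono Ioo_subset_Icc_self) ?_
      exact isClosed_Icc.preimage continuous_re
    exact (hdQ.mono (hcl.trans hsub)).diffContOnCl
  have hB : BddAbove ((norm ∘ deriv Q) '' verticalClosedStrip (-(κ / 2)) (κ / (4 * l))) := by
    refine ⟨64 / κ, ?_⟩
    rintro _ ⟨z, hz, rfl⟩
    exact cauchy h z hz.1
  have h3 := norm_le_interp_of_mem_verticalClosedStrip' (f := deriv Q) (z := m) hul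
    ⟨by linarith, hc.le⟩ hd hB (a := 64 / κ) (b := 4 * l * b ^ 2 / κ)
    (fun z hz => cauchy h z (le_of_eq (by
      rw [mem_preimage, mem_singleton_iff] at hz
      exact hz.symm)))
    (fun z hz => by
      rw [mem_preimage, mem_singleton_iff] at hz
      have h4 := part1 h₁ h z (by rw [hz]; exact hη)
      rw [hz, hηB] at h4
      exact h4)
  refine (h3.trans (NBD3_.interp hκ hb hl1 hl hs0 hs hm hc.le hBK)).trans ?_
  refine div_le_div_of_nonneg_right ?_ hκ.le
  have h2 : 0 ≤ b ^ (2 - 4 * s / κ) * l := by positivity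
  linarith

end Pool.Agent.AEN
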