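import Pool.Agent.AEN.Targets
import Mathlib.Analysis.Complex.TaylorSeries
import Mathlib.Analysis.Complex.Liouville

/-!
# AEN: proof of TCR (interpolation between two bounds)
-/

set_option autoImplicit false

open Complex Filter Topology Set MeasureTheory
open Pool.Agent.Multibrot (MM)
open Pool.Agent.Limb (F)
open Pool.Agent.PLim (Rho LocFix)
open Pool.Agent.MEX (Exa)
open Pool.Agent.MEY (Pt)
open Pool.Agent.PSat (Comp Sat)
open Pool.Agent.MEZ (T_AEL T_NCZ T_SECZ NCZk SECZk Fz)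

namespace Pool.Agent.AEN

namespace TCR_

/-- Cauchy estimate for the Taylor coefficients. -/
lemma coeff (p : ℂ) (R r C : ℝ) (G : ℂ → ℂ) (hr : 0 < r) (hrR : r < R)
    (hG : DifferentiableOn ℂ G (Metric.ball p R))
    (hC : ∀ z ∈ Metric.sphere p r, ‖G z‖ ≤ C) (n : ℕ) :
    ‖((n.factorial : ℂ))⁻¹ * iteratedDeriv n G p‖ ≤ C / r ^ n := by
  have h1 : DiffContOnCl ℂ G (Metric.ball p r) := by
    refine DifferentiableOn.diffContOnCl ?_
    refine hG.mono ?_
    exact (Metric.closure_ball_subset_closedBall).trans (Metric.closedBall_subset_ball hrR)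
  have h2 := norm_iteratedDeriv_le_of_forall_mem_sphere_norm_le n hr h1 hC
  have hf : (0 : ℝ) < (n.factorial : ℝ) := by exact_mod_cast n.factorial_pos
  rw [norm_mul, norm_inv, Complex.norm_natCast]
  calc ((n.factorial : ℝ))⁻¹ * ‖iteratedDeriv n G p‖
      ≤ ((n.factorial : ℝ))⁻¹ * (n.factorial * C / r ^ n) := by gcongr
    _ = C / r ^ n := by field_simp

/-- The bound of one term of the Taylor series. -/
lemma term (p z : ℂ) (R K ε : ℝ) (G : ℂ → ℂ) (hR : 0 < R) (hK : 0 ≤ K) (hε : 0 ≤ ε)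
    (hG : DifferentiableOn ℂ G (Metric.ball p R)) (hGK : ∀ z ∈ Metric.ball p R, ‖G z‖ ≤ K)
    (hGε : ∀ z ∈ Metric.ball p (R / 6), ‖G z‖ ≤ ε) (hz : ‖z - p‖ ≤ R / 3) (n : ℕ) :
    ‖((n.factorial : ℂ))⁻¹ * iteratedDeriv n G p‖ * ‖z - p‖ ^ n ≤
      √(ε * K) * (5 / 6 : ℝ) ^ n := by
  set a : ℝ := ‖((n.factorial : ℂ))⁻¹ * iteratedDeriv n G p‖ with ha
  obtain ⟨r, hr⟩ : ∃ r : ℝ, r = 99 / 100 * R := ⟨_, rfl⟩
  have hr0 : 0 < r := by rw [hr]; positivity
  have h1 : a ≤ K / r ^ n := by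
    refine coeff p R r K G hr0 (by rw [hr]; linarith) hG ?_ n
    intro w hw
    refine hGK w ?_
    rw [Metric.mem_sphere] at hw
    rw [Metric.mem_ball, hw, hr]
    linarith
  have h2 : a ≤ ε / (r / 6) ^ n := by
    refine coeff p R (r / 6) ε G (by positivity) (by rw [hr]; linarith) hG ?_ n
    intro w hw
    refine hGε w ?_
    rw [Metric.mem_sphere] at hw
    rw [Metric.mem_ball, hw, hr]
    linarith
  have ha0 : 0 ≤ a := norm_nonneg _
  have h3 : a * a ≤ (K / r ^ n) * (ε / (r / 6) ^ n) :=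
    mul_le_mul h1 h2 ha0 (by positivity)
  have hz0 : 0 ≤ ‖z - p‖ := norm_nonneg _
  have hq : (R / 3) ^ 2 / (r * (r / 6)) ≤ 25 / 36 := by
    rw [div_le_iff₀ (by positivity), hr]
    nlinarith [mul_pos hR hR]
  have h4 : (a * ‖z - p‖ ^ n) ^ 2 ≤ (√(ε * K) * (5 / 6 : ℝ) ^ n) ^ 2 := by
    rw [mul_pow, mul_pow, Real.sq_sqrt (by positivity)]
    calc a ^ 2 * (‖z - p‖ ^ n) ^ 2
        ≤ ((K / r ^ n) * (ε / (r / 6) ^ n)) * ((R / 3) ^ n) ^ 2 := by
          rw [sq a]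
          gcongr
      _ = ε * K * (((R / 3) ^ 2 / (r * (r / 6))) ^ n) := by
          rw [div_pow ((R / 3) ^ 2), mul_pow r, ← pow_mul, ← pow_mul, mul_comm 2 n]
          field_simp
      _ ≤ ε * K * ((25 / 36 : ℝ) ^ n) :=
          mul_le_mul_of_nonneg_left (pow_le_pow_left₀ (by positivity) hq n) (by positivity)
      _ = ε * K * ((5 / 6 : ℝ) ^ n) ^ 2 := by
          rw [← pow_mul, mul_comm n 2, pow_mul]
          norm_num
  exact (abs_le_of_sq_le_sq' h4 (by positivity)).2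

end TCR_

open TCR_ in
theorem p_TCR : T_TCR := by
  intro p R K ε G hR hK hε hG hGK hGε z hz
  have hzb : z ∈ Metric.ball p R := by
    rw [Metric.mem_ball, dist_eq_norm]
    linarith
  have hs := Complex.hasSum_taylorSeries_on_ball hG hzb
  have hb : ∀ n : ℕ, ‖((n.factorial : ℂ))⁻¹ • (z - p) ^ n • iteratedDeriv n G p‖ ≤
      √(ε * K) * (5 / 6 : ℝ) ^ n := by
    intro n
    have h := term p z R K ε G hR hK hε hG hGK hGε hz n
    rw [smul_eq_mul, smul_eq_mul]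
    have e : ((n.factorial : ℂ))⁻¹ * ((z - p) ^ n * iteratedDeriv n G p) =
        (((n.factorial : ℂ))⁻¹ * iteratedDeriv n G p) * (z - p) ^ n := by ring
    rw [e, norm_mul, norm_pow]
    exact h
  have hg : HasSum (fun n : ℕ => √(ε * K) * (5 / 6 : ℝ) ^ n) (√(ε * K) * (1 - 5 / 6 : ℝ)⁻¹) :=
    (hasSum_geometric_of_lt_one (by norm_num) (by norm_num)).mul_left _
  have h := hs.norm_le_of_bounded hg hb
  calc ‖G z‖ ≤ √(ε * K) * (1 - 5 / 6 : ℝ)⁻¹ := h
    _ = 6 * √(ε * K) := by norm_num; ring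

end Pool.Agent.AEN
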