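import Pool.Agent.AEN.Targets3

/-!
# AEN, target UNI: the limit at infinity in the coordinate `m` (helper53)
-/

set_option autoImplicit false

open Complex Filter Topology Set MeasureTheory
open Pool.Agent.Multibrot (MM)
open Pool.Agent.Limb (F)
open Pool.Agent.PLim (Rho LocFix OMXn)
open Pool.Agent.MEX (Exa)
open Pool.Agent.MEY (Pt)
open Pool.Agent.PSat (Comp Sat Lmb)
open Pool.Agent.MEZ (T_AEL T_NCZ T_SECZ NCZk SECZk Fz)

namespace Pool.Agent.AEN

namespace UNI_

theorem vm_sub (m : ℂ) (h : 2 * m + 1 ≠ 0) : vm m - 1 = -2 / (2 * m + 1) := by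
  unfold vm
  field_simp
  ring

theorem vm_near (m : ℂ) (h : 2 * m + 1 ≠ 0) (Y : ℝ) (hY : 0 < Y) (hm : Y ≤ |m.im|) :
    ‖vm m - 1‖ ≤ 1 / Y := by
  rw [vm_sub m h, norm_div, norm_neg]
  have h1 : 2 * Y ≤ ‖2 * m + 1‖ := by
    have h2 := Complex.abs_im_le_norm (2 * m + 1)
    have h3 : (2 * m + 1).im = 2 * m.im := by simp
    rw [h3, abs_mul, abs_two] at h2
    linarith
  have h4 : ‖(2 : ℂ)‖ = 2 := by simp
  rw [h4, div_le_div_iff₀ (by linarith) hY]
  linarith

end UNI_

open UNI_ in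
theorem p_UNI (h₁ : T_MOB) (h₂ : T_TCR) (h₃ : T_LM1) : T_UNI := by
  intro κ K P Q hκ hκ1 hC hE
  obtain ⟨r0, hr0⟩ := h₃ K P hC
  refine ⟨r0, ?_⟩
  obtain ⟨hM1, -, hM3, -⟩ := h₁
  have hP16 : ∀ v ∈ Metric.ball (0 : ℂ) 1, ‖P v‖ ≤ 16 := by
    intro v hv
    obtain ⟨m, hm, hmv, -⟩ := hM3 v (by simpa using hv)
    rw [← hmv, ← hE.eq m hm]
    apply hE.bd
    change -κ < m.re
    linarith
  have hne : (𝓝[Metric.ball (0 : ℂ) 1] 1).NeBot := by
    apply mem_closure_iff_nhdsWithin_neBot.1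
    rw [closure_ball (0 : ℂ) one_ne_zero]
    simp
  have hr16 : ‖r0‖ ≤ 16 := by
    refine le_of_tendsto hr0.norm ?_
    filter_upwards [self_mem_nhdsWithin] with v hv
    exact hP16 v hv
  intro ε hε
  have he1 : 0 < min ε (ε ^ 2 / 1152) := lt_min hε (by positivity)
  obtain ⟨δ, hδ, hPδ⟩ := Metric.tendsto_nhdsWithin_nhds.1 hr0 _ he1
  have hY0 : 0 < 2 / δ := by positivity
  have hR : ∀ m : ℂ, 0 < m.re → 2 / δ ≤ |m.im| → ‖Q m - r0‖ ≤ min ε (ε ^ 2 / 1152) := by
    intro m hm hmi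
    obtain ⟨h1, -, -, h4, -⟩ := hM1 m (by linarith)
    have h2 := vm_near m h1 (2 / δ) hY0 hmi
    have h3 : 1 / (2 / δ) = δ / 2 := by field_simp
    rw [h3] at h2
    have h5 := hPδ (x := vm m) (by simpa using h4.2 hm) (by
      rw [dist_eq_norm]
      linarith)
    rw [dist_eq_norm, ← hE.eq m hm] at h5
    exact h5.le
  refine ⟨2 / δ + 1, ?_⟩
  intro m hmr hmi
  rcases lt_or_ge 0 m.re with hm | hm
  · exact (hR m hm (by linarith)).trans (min_le_left _ _)
  · obtain ⟨p, hp⟩ : ∃ p : ℂ, p = ⟨κ / 6, m.im⟩ := ⟨_, rfl⟩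
    have hpr : p.re = κ / 6 := by rw [hp]
    have hpi : p.im = m.im := by rw [hp]
    have hsub : ∀ z ∈ Metric.ball p κ, z ∈ Hk κ := by
      intro z hz
      rw [Metric.mem_ball, dist_eq_norm] at hz
      have h1 := (Complex.abs_re_le_norm (z - p)).trans_lt hz
      rw [Complex.sub_re, hpr, abs_lt] at h1
      change -κ < z.re
      linarith [h1.1]
    have h1 := h₂ p κ 32 (min ε (ε ^ 2 / 1152)) (fun z => Q z - r0) hκ (by norm_num) he1.le
      ((hE.dQ.mono hsub).sub_const r0) (by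
        intro z hz
        have h2 := hE.bd z (hsub z hz)
        calc ‖Q z - r0‖ ≤ ‖Q z‖ + ‖r0‖ := norm_sub_le _ _
          _ ≤ 32 := by linarith) (by
        intro z hz
        rw [Metric.mem_ball, dist_eq_norm] at hz
        have h2 := (Complex.abs_re_le_norm (z - p)).trans_lt hz
        have h3 := (Complex.abs_im_le_norm (z - p)).trans_lt hz
        rw [Complex.sub_re, hpr, abs_lt] at h2
        rw [Complex.sub_im, hpi, abs_lt] at h3
        apply hR z (by linarith [h2.1])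
        have h4 : |m.im| ≤ |z.im| + |m.im - z.im| := by
          have := abs_add_le z.im (m.im - z.im)
          simpa using this
        have h5 : |m.im - z.im| ≤ κ / 6 := by
          rw [abs_le]
          constructor <;> linarith [h3.1, h3.2]
        linarith) m (by
        have h2 : m - p = ((m.re - κ / 6 : ℝ) : ℂ) := by
          apply Complex.ext
          · simp [hpr]
          · simp [hpi]
        rw [h2, Complex.norm_real, Real.norm_eq_abs, abs_le]
        constructor <;> linarith)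
    have h2 : √(min ε (ε ^ 2 / 1152) * 32) ≤ ε / 6 := by
      rw [Real.sqrt_le_left (by positivity)]
      have := min_le_right ε (ε ^ 2 / 1152)
      nlinarith
    change ‖Q m - r0‖ ≤ _ at h1
    linarith

end Pool.Agent.AEN
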