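import Pool.Agent.AEN.All
import Pool.Agent.MEY.LIMBZ
import Pool.Agent.AEN.P_TCR
import Pool.Agent.AEN.P_EXZ
import Pool.Agent.AEN.P_NBD3
import Pool.Agent.AEN.P_LMQ
import Pool.Agent.AEN.P_LM1
import Pool.Agent.AEN.P_UNI
import Pool.Agent.AEN.P_FLM
import Pool.Agent.AEN.P_FLF
import Pool.Agent.AEN.P_LGJ
import Pool.Agent.AEN.P_FIN3

/-!
# AEN: all targets of the third part
-/

set_option autoImplicit false

namespace Pool.Agent.AEN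

theorem a_TCR : T_TCR := p_TCR
theorem a_EXZ : T_EXZ := p_EXZ a_MOB a_RGS a_SCW a_SUW Pool.Agent.PSat.a_CST
  Pool.Agent.PSat.a_CMG Pool.Agent.PLim.a_BIG
theorem a_NBD3 : T_NBD3 := p_NBD3 a_MVA
theorem a_LMQ : T_LMQ := p_LMQ a_MOB Pool.Agent.MEY.p_LIMBZ Pool.Agent.PLim.a_LOCZ
theorem a_LM1 : T_LM1 := p_LM1 Pool.Agent.PLim.a_FINF Pool.Agent.PLim.a_BIG
theorem a_UNI : T_UNI := p_UNI a_MOB a_TCR a_LM1
theorem a_FLM : T_FLM := p_FLM a_EXZ a_UVP a_NBD3 a_LMQ Pool.Agent.PSat.a_CST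
theorem a_FLF : T_FLF := p_FLF a_EXZ a_UNI a_LMQ Pool.Agent.PSat.a_CST
theorem a_LGJ : T_LGJ := p_LGJ
theorem a_FIN3 : T_FIN3 := p_FIN3 a_FLM a_FLF a_LGJ a_CNT a_DSJ Pool.Agent.PLim.a_ATU

end Pool.Agent.AEN
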