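import Pool.Agent.PSat.Targets2
import Pool.Agent.MEZ.Targets5

/-!
# AEN: definitions

The satellite components of the Mandelbrot set form a null sequence (MP_fcb70f_an).
The multiplier `v` is written `v = vm m`, `m = (1 + v) / (2 (1 - v))`, so that the unit disc is the
half plane `{0 < Re m}`.
-/

set_option autoImplicit false

open Complex Filter Topology Set MeasureTheory
open Pool.Agent.Multibrot (MM)
open Pool.Agent.Limb (F)
open Pool.Agent.PLim (Rho LocFix)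
open Pool.Agent.MEY (Pt)
open Pool.Agent.PSat (Comp Sat)

namespace Pool.Agent.AEN

/-- The multiplier as a function of the coordinate `m`. -/
noncomputable def vm (m : ℂ) : ℂ := (2 * m - 1) / (2 * m + 1)

/-- The right half plane. -/
def Hp : Set ℂ := {m : ℂ | 0 < m.re}

/-- The half plane `{-κ < Re m}`. -/
def Hk (κ : ℝ) : Set ℂ := {m : ℂ | -κ < m.re}

/-- The strip `{-κ < Re m < 1 / 4}`. -/
def St (κ : ℝ) : Set ℂ := {m : ℂ | -κ < m.re ∧ m.re < 1 / 4}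

/-- The multiplier of the points of exact period `k` is a local coordinate over the values of `w`
on `W`. -/
structure Rg (k : ℕ) (W : Set ℂ) (w : ℂ → ℂ) : Prop where
  ne : ∀ m ∈ W, w m ≠ 1
  pt : ∀ c z m : ℂ, m ∈ W → Pt 2 k c z (w m) → ‖c‖ < 16 ∧
    ∃ (ε r : ℝ) (zf : ℂ → ℂ), LocFix 2 k c z ε r zf ∧ deriv (fun c => Rho 2 k c (zf c)) c ≠ 0

/-- A section over `W`: `Z m` is a point of exact period `k` with multiplier `w m` at the
parameter `Q m`. -/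
structure Sn (k : ℕ) (W : Set ℂ) (w Q Z : ℂ → ℂ) : Prop where
  dQ : DifferentiableOn ℂ Q W
  dZ : DifferentiableOn ℂ Z W
  pt : ∀ m ∈ W, Pt 2 k (Q m) (Z m) (w m)
  bd : ∀ m ∈ W, ‖Q m‖ ≤ 16

/-- `Q` extends the parametrization `P` of a component, in the coordinate `m`. -/
structure Exn (κ : ℝ) (P Q : ℂ → ℂ) : Prop where
  dQ : DifferentiableOn ℂ Q (Hk κ)
  bd : ∀ m ∈ Hk κ, ‖Q m‖ ≤ 16
  eq : ∀ m ∈ Hp, Q m = P (vm m)

/-- `Q` is holomorphic on `{-κ < Re m}`, bounded by `16`, injective on the right half plane with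
image of area at most `b ^ 4`. -/
structure Uv (κ b : ℝ) (Q : ℂ → ℂ) : Prop where
  hκ : 0 < κ
  hκ1 : κ ≤ 1
  hb : 0 < b
  dQ : DifferentiableOn ℂ Q (Hk κ)
  bd : ∀ m ∈ Hk κ, ‖Q m‖ ≤ 16
  inj : InjOn Q Hp
  ar : volume (Q '' Hp) ≤ ENNReal.ofReal (b ^ 4)

/-- The parent cycle over the right half plane: `Z m` is fixed by the iterate of order `k` with
multiplier `exp (2 π i p / q + x m)`, `Re x > 0`, `x m ~ 1 / (q ^ 2 m)` for `m → +∞`. -/
structure Par (k p q : ℕ) (r0 z0 : ℂ) (Q Z x : ℂ → ℂ) : Prop where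
  dx : DifferentiableOn ℂ x Hp
  cZ : ContinuousOn Z Hp
  fix : ∀ m ∈ Hp, (F 2 (Q m))^[k] (Z m) = Z m
  mul : ∀ m ∈ Hp, Rho 2 k (Q m) (Z m) = exp (2 * Real.pi * I * p / q + x m)
  re : ∀ m ∈ Hp, 0 < (x m).re
  lim : Tendsto (fun r : ℝ => (q : ℂ) ^ 2 * (r : ℂ) * x (r : ℂ)) atTop (𝓝 1)
  limQ : Tendsto (fun r : ℝ => Q (r : ℂ)) atTop (𝓝 r0)
  limZ : Tendsto (fun r : ℝ => Z (r : ℂ)) atTop (𝓝 z0)

/-- The hyperbolic locus: the parameters with an attracting cycle. -/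
def Hyp : Set ℂ := {c : ℂ | ∃ (k : ℕ) (z : ℂ), 1 ≤ k ∧ (F 2 c)^[k] z = z ∧ ‖Rho 2 k c z‖ < 1}

end Pool.Agent.AEN
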