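import Pool.Agent.AEN.Targets

/-!
# AEN: all components, away from the root (FNA)
-/

set_option autoImplicit false

open Complex Filter Topology Set MeasureTheory
open Pool.Agent.Multibrot (MM)
open Pool.Agent.Limb (F)
open Pool.Agent.PLim (Rho LocFix)
open Pool.Agent.MEX (Exa)
open Pool.Agent.MEY (Pt)
open Pool.Agent.PSat (Comp Sat)
open Pool.Agent.MEZ (T_AEL T_NCZ T_SECZ NCZk SECZk Fz)

namespace Pool.Agent.AEN

namespace FNA_

lemma ncz_mono {κ κ' : ℝ} (h : κ' ≤ κ) (hN : NCZk κ) : NCZk κ' := by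
  intro n k c0 z0 μ δ ε r zf hn hk hL hE hR hδ hF hμ
  have h1 : κ' * δ ^ 2 ≤ κ * δ ^ 2 := mul_le_mul_of_nonneg_right h (sq_nonneg δ)
  exact hN n k c0 z0 μ δ ε r zf hn hk hL hE hR hδ hF (lt_of_lt_of_le hμ h1)

lemma isOpen_Hk (κ : ℝ) : IsOpen (Hk κ) := isOpen_lt continuous_const Complex.continuous_re

/-- The coordinate of a point away from `1`. -/
lemma coord (h₁ : T_MOB) {v : ℂ} {d : ℝ} (hd : 0 < d) (hv : ‖v‖ < 1) (hvd : d ≤ ‖v - 1‖) :
    ∃ m : ℂ, 0 < m.re ∧ vm m = v ∧ m.re ≤ 1 / d ∧ |m.im| ≤ 1 / d := by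
  obtain ⟨m, hm, hvm, he⟩ := h₁.2.2.1 v hv
  refine ⟨m, hm, hvm, ?_, ?_⟩
  all_goals have hn : ‖2 * m + 1‖ ≤ 2 / d := by
              rw [he, norm_div, norm_sub_rev, Complex.norm_ofNat]
              exact div_le_div_of_nonneg_left (by norm_num) hd hvd
  all_goals have h2d : 2 / d = 2 * (1 / d) := by ring
  · have h1 : (2 * m + 1).re ≤ 2 / d := (Complex.re_le_norm _).trans hn
    have h2 : (2 * m + 1).re = 2 * m.re + 1 := by simp
    rw [h2, h2d] at h1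
    linarith
  · have h1 : |(2 * m + 1).im| ≤ 2 / d := (Complex.abs_im_le_norm _).trans hn
    have h2 : (2 * m + 1).im = 2 * m.im := by simp
    rw [h2, abs_mul, abs_two, h2d] at h1
    linarith

/-- The vertical segment. -/
lemma vert {κ b : ℝ} {Q : ℂ → ℂ} (hU : Uv κ b Q)
    (hD : ∀ m : ℂ, 0 < m.re → ‖deriv Q m‖ ≤ b ^ 2 / m.re) {M Y Y' : ℝ} (hM : 0 < M) :
    ‖Q (M + Y * I) - Q (M + Y' * I)‖ ≤ b ^ 2 / M * |Y - Y'| := by
  have hre : ∀ t : ℝ, ((M : ℂ) + t * I).re = M := by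
    intro t
    simp
  have hc : Convex ℝ {z : ℂ | z.re = M} := by
    intro x hx y hy a c _ _ hac
    have hx' : x.re = M := hx
    have hy' : y.re = M := hy
    change (a • x + c • y).re = M
    rw [Complex.add_re, Complex.real_smul, Complex.real_smul, Complex.re_ofReal_mul,
      Complex.re_ofReal_mul, hx', hy', ← add_mul, hac, one_mul]
  have h1 := Convex.norm_image_sub_le_of_norm_deriv_le (𝕜 := ℂ) (f := Q) (C := b ^ 2 / M)
    (s := {z : ℂ | z.re = M}) (x := (M : ℂ) + Y' * I) (y := (M : ℂ) + Y * I) ?_ ?_ hc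
    (hre Y') (hre Y)
  · have h2 : ‖((M : ℂ) + Y * I) - ((M : ℂ) + Y' * I)‖ = |Y - Y'| := by
      have h3 : ((M : ℂ) + Y * I) - ((M : ℂ) + Y' * I) = ((Y - Y' : ℝ) : ℂ) * I := by
        push_cast
        ring
      rw [h3, norm_mul, Complex.norm_I, mul_one, Complex.norm_real, Real.norm_eq_abs]
    rw [h2] at h1
    exact h1
  · intro x hx
    have hx' : x.re = M := hx
    have hxk : x ∈ Hk κ := by
      change -κ < x.re
      rw [hx']
      linarith [hU.hκ]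
    exact (hU.dQ x hxk).differentiableAt ((isOpen_Hk κ).mem_nhds hxk)
  · intro x hx
    have hx' : x.re = M := hx
    have h3 := hD x (by rw [hx']; exact hM)
    rwa [hx'] at h3

end FNA_

/-- All components, away from the root. -/
theorem p_FNA (h₁ : T_MOB) (h₂ : T_EXS) (h₃ : T_UVP) (h₄ : T_NBD) (h₅ : T_CHN) : T_FNA := by
  rintro ⟨κ0, hκ0, hN0⟩
  obtain ⟨κ, hκ, hκ1, hN⟩ : ∃ κ : ℝ, 0 < κ ∧ κ ≤ 1 ∧ NCZk κ :=
    ⟨min κ0 1, lt_min hκ0 one_pos, min_le_right _ _, FNA_.ncz_mono (min_le_left _ _) hN0⟩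
  obtain ⟨κ1, hκ1d⟩ : ∃ κ1 : ℝ, κ1 = κ / 5000 := ⟨_, rfl⟩
  have hκ1p : 0 < κ1 := by rw [hκ1d]; positivity
  have hκ1l : κ1 ≤ 1 := by rw [hκ1d]; linarith
  obtain ⟨L0, hL0⟩ : ∃ L0 : ℝ, L0 = Real.log (8 / κ1) := ⟨_, rfl⟩
  have hL0p : 0 ≤ L0 := by
    rw [hL0]
    refine Real.log_nonneg ?_
    rw [le_div_iff₀ hκ1p]
    linarith
  refine ⟨69 + 2 * L0, by linarith, ?_⟩
  intro K P b d hP hb hvol hd hd1 v v' hv hvd hv' hvd'
  obtain ⟨Q, hQ⟩ := h₂ κ hκ hκ1 hN K P hP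
  rw [← hκ1d] at hQ
  have hU : Uv κ1 b Q := h₃ κ1 b K P Q hκ1p hκ1l hb hP hQ hvol
  obtain ⟨m, hm, hmv, hmr, hmi⟩ := FNA_.coord h₁ hd hv hvd
  obtain ⟨m', hm', hmv', hmr', hmi'⟩ := FNA_.coord h₁ hd hv' hvd'
  have hPv : P v = Q m := by
    rw [← hmv]
    exact (hQ.eq m hm).symm
  have hPv' : P v' = Q m' := by
    rw [← hmv']
    exact (hQ.eq m' hm').symm
  rw [hPv, hPv']
  obtain ⟨ℓ, hℓ⟩ : ∃ ℓ : ℝ, ℓ = Real.log (1 / d) := ⟨_, rfl⟩
  have hℓp : 0 ≤ ℓ := by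
    rw [hℓ]
    refine Real.log_nonneg ?_
    rw [le_div_iff₀ hd]
    linarith
  rw [← hℓ]
  have hCl : 69 + 2 * L0 + 2 * ℓ ≤ (69 + 2 * L0) * (1 + ℓ) := by
    have h6 : 0 ≤ L0 * ℓ := mul_nonneg hL0p hℓp
    nlinarith
  by_cases hb1 : 1 ≤ b
  · have h6 : ‖Q m‖ ≤ 16 := hQ.bd m (by
      change -κ1 < m.re
      linarith)
    have h7 : ‖Q m'‖ ≤ 16 := hQ.bd m' (by
      change -κ1 < m'.re
      linarith)
    have h8 : ‖Q m - Q m'‖ ≤ 32 := (norm_sub_le _ _).trans (by linarith)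
    have h9 : (32 : ℝ) ≤ (69 + 2 * L0) * (1 + ℓ) := by linarith
    have h10 : (69 + 2 * L0) * (1 + ℓ) * 1 ≤ (69 + 2 * L0) * (1 + ℓ) * b :=
      mul_le_mul_of_nonneg_left hb1 (by linarith)
    linarith
  · have hb1' : b < 1 := lt_of_not_ge hb1
    have hbb : b ^ 2 ≤ b := by
      have h6 : b * b ≤ b * 1 := mul_le_mul_of_nonneg_left hb1'.le hb.le
      rw [sq]
      linarith
    obtain ⟨M, hM⟩ : ∃ M : ℝ, M = 2 / d := ⟨_, rfl⟩
    have hMp : 0 < M := by rw [hM]; positivity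
    have hM1 : 1 / d ≤ M := by
      rw [hM]
      exact div_le_div_of_nonneg_right (by norm_num) hd.le
    have hM2 : κ1 / 4 ≤ M := by
      have h6 : 1 ≤ 1 / d := by
        rw [le_div_iff₀ hd]
        linarith
      linarith
    have hlog : Real.log (4 * M / κ1) = L0 + ℓ := by
      rw [hL0, hℓ, ← Real.log_mul (by positivity) (by positivity), hM]
      congr 1
      field_simp
      ring
    have hA : ∀ x : ℂ, 0 < x.re → x.re ≤ 1 / d →
        ‖Q x - Q (M + x.im * I)‖ ≤ 34 * b + b * (L0 + ℓ) := by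
      intro x hx hxd
      have h6 := h₅ κ1 b Q hU x.im x.re M hx (hxd.trans hM1) hM2
      rw [Complex.re_add_im, hlog] at h6
      have h7 : b ^ 2 * (L0 + ℓ) ≤ b * (L0 + ℓ) :=
        mul_le_mul_of_nonneg_right hbb (by linarith)
      linarith
    have hB : ‖Q (M + m.im * I) - Q (M + m'.im * I)‖ ≤ b := by
      have h6 := FNA_.vert hU (h₄ κ1 b Q hU).1 (Y := m.im) (Y' := m'.im) hMp
      have h7 : |m.im - m'.im| ≤ M := by
        have h8 : |m.im - m'.im| ≤ |m.im| + |m'.im| := abs_sub _ _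
        have h9 : M = 1 / d + 1 / d := by
          rw [hM]
          ring
        linarith
      have h8 : b ^ 2 / M * |m.im - m'.im| ≤ b ^ 2 / M * M :=
        mul_le_mul_of_nonneg_left h7 (by positivity)
      rw [div_mul_cancel₀ _ hMp.ne'] at h8
      linarith
    have h6 := hA m hm hmr
    have h7 := hA m' hm' hmr'
    rw [norm_sub_rev] at h7
    have h8 : ‖Q m - Q m'‖ ≤ ‖Q m - Q (M + m.im * I)‖ +
        ‖Q (M + m.im * I) - Q (M + m'.im * I)‖ + ‖Q (M + m'.im * I) - Q m'‖ := by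
      have h9 : Q m - Q m' = (Q m - Q (M + m.im * I)) +
        (Q (M + m.im * I) - Q (M + m'.im * I)) + (Q (M + m'.im * I) - Q m') := by ring
      rw [h9]
      exact norm_add₃_le
    have h9 : ‖Q m - Q m'‖ ≤ (69 + 2 * L0 + 2 * ℓ) * b := by
      have h10 : (69 + 2 * L0 + 2 * ℓ) * b = 34 * b + b * (L0 + ℓ) + b +
        (34 * b + b * (L0 + ℓ)) := by ring
      linarith
    exact h9.trans (mul_le_mul_of_nonneg_right hCl hb.le)

end Pool.Agent.AEN
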