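import Pool.Agent.AEN.Targets

/-!
# AEN, job UVP: the parametrization of a component in the coordinate `m`
-/

set_option autoImplicit false

open Complex Filter Topology Set MeasureTheory
open Pool.Agent.Multibrot (MM)
open Pool.Agent.Limb (F)
open Pool.Agent.PLim (Rho LocFix)
open Pool.Agent.MEX (Exa)
open Pool.Agent.MEY (Pt)
open Pool.Agent.PSat (Comp Sat)
open Pool.Agent.MEZ (T_AEL T_NCZ T_SECZ NCZk SECZk Fz)

namespace Pool.Agent.AEN

theorem p_UVP (h₁ : T_MOB) (h₂ : T_INP) : T_UVP := by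
  intro κ b K P Q hκ hκ1 hb hP hQ hvol
  obtain ⟨h1, h2, h3, -⟩ := h₁
  have hre : ∀ m ∈ Hp, -(1 / 2) < m.re := by
    intro m hm
    have h0 : 0 < m.re := hm
    linarith
  have hball : ∀ m ∈ Hp, vm m ∈ Metric.ball (0 : ℂ) 1 := by
    intro m hm
    exact mem_ball_zero_iff.2 ((h1 m (hre m hm)).2.2.2.1.2 hm)
  refine ⟨hκ, hκ1, hb, hQ.dQ, hQ.bd, ?_, ?_⟩
  · intro m hm m' hm' e
    rw [hQ.eq m hm, hQ.eq m' hm'] at e
    exact h2 m m' (hre m hm) (hre m' hm') (h₂ K P hP (hball m hm) (hball m' hm') e)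
  · have hsub : Q '' Hp ⊆ P '' Metric.ball 0 1 := by
      rintro _ ⟨m, hm, rfl⟩
      exact ⟨vm m, hball m hm, (hQ.eq m hm).symm⟩
    exact (measure_mono hsub).trans hvol

end Pool.Agent.AEN
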