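import Pool.Agent.AEN.Defs

/-!
# AEN: targets (complete proofs in Blueprint.lean.txt)
-/

set_option autoImplicit false

open Complex Filter Topology Set MeasureTheory
open Pool.Agent.Multibrot (MM)
open Pool.Agent.Limb (F)
open Pool.Agent.PLim (Rho LocFix)
open Pool.Agent.MEX (Exa)
open Pool.Agent.MEY (Pt)
open Pool.Agent.PSat (Comp Sat)
open Pool.Agent.MEZ (T_AEL T_NCZ T_SECZ NCZk SECZk Fz)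

namespace Pool.Agent.AEN

/-! ### A. one complex variable -/

/-- MOB: the coordinate. -/
def T_MOB : Prop :=
  (∀ m : ℂ, -(1 / 2) < m.re → 2 * m + 1 ≠ 0 ∧ vm m ≠ 1 ∧ DifferentiableAt ℂ vm m ∧
    (‖vm m‖ < 1 ↔ 0 < m.re) ∧ (‖vm m‖ ≤ 1 ↔ 0 ≤ m.re) ∧ (vm m = 0 ↔ m = 1 / 2)) ∧
  (∀ m m' : ℂ, -(1 / 2) < m.re → -(1 / 2) < m'.re → vm m = vm m' → m = m') ∧
  (∀ v : ℂ, ‖v‖ < 1 → ∃ m : ℂ, 0 < m.re ∧ vm m = v ∧ 2 * m + 1 = 2 / (1 - v)) ∧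
  ∀ (κ : ℝ) (m : ℂ), 0 < κ → κ ≤ 1 → -(κ / 5000) < m.re → m.re < 0 →
    ∃ (μ : ℂ) (δ : ℝ), exp μ = vm m ∧ 0 < δ ∧ Fz δ μ.im ∧ μ.re < κ * δ ^ 2 ∧ μ.re ≤ 1

/-- TCR: interpolation between two bounds. -/
def T_TCR : Prop := ∀ (p : ℂ) (R K ε : ℝ) (G : ℂ → ℂ), 0 < R → 0 ≤ K → 0 ≤ ε →
  DifferentiableOn ℂ G (Metric.ball p R) → (∀ z ∈ Metric.ball p R, ‖G z‖ ≤ K) →
  (∀ z ∈ Metric.ball p (R / 6), ‖G z‖ ≤ ε) → ∀ z : ℂ, ‖z - p‖ ≤ R / 3 →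
  ‖G z‖ ≤ 6 * √(ε * K)

/-- MVA (from MVL of MEX): the derivative of an injective map in terms of the area. -/
def T_MVA : Prop := ∀ (p : ℂ) (s b : ℝ) (G : ℂ → ℂ), 0 < s → 0 ≤ b →
  DifferentiableOn ℂ G (Metric.ball p s) → InjOn G (Metric.ball p s) →
  volume (G '' Metric.ball p s) ≤ ENNReal.ofReal (b ^ 4) → ‖deriv G p‖ ≤ b ^ 2 / s

/-- NBD (from TCR, MVA): the derivative in the half plane and near its boundary. -/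
def T_NBD : Prop := ∀ (κ b : ℝ) (Q : ℂ → ℂ), Uv κ b Q →
  (∀ m : ℂ, 0 < m.re → ‖deriv Q m‖ ≤ b ^ 2 / m.re) ∧
  ∀ m : ℂ, 0 ≤ m.re → m.re ≤ κ / 4 → ‖deriv Q m‖ ≤ 136 * b / κ

/-- CHN (from NBD): integration along a horizontal line. -/
def T_CHN : Prop := ∀ (κ b : ℝ) (Q : ℂ → ℂ), Uv κ b Q → ∀ Y s M : ℝ, 0 < s → s ≤ M →
  κ / 4 ≤ M →
  ‖Q (s + Y * I) - Q (M + Y * I)‖ ≤ 34 * b + b ^ 2 * Real.log (4 * M / κ)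

/-- JUL: the Julia lemma for the right half plane. -/
def T_JUL : Prop := ∀ X : ℂ → ℂ, DifferentiableOn ℂ X Hp → (∀ m ∈ Hp, 0 < (X m).re) →
  Tendsto (fun r : ℝ => X (r : ℂ) / (r : ℂ)) atTop (𝓝 1) → ∀ m ∈ Hp, m.re ≤ (X m).re

/-- LGH: logarithms on the right half plane. -/
def T_LGH : Prop := ∀ (g : ℂ → ℂ) (m0 l0 : ℂ), DifferentiableOn ℂ g Hp → (∀ m ∈ Hp, g m ≠ 0) →
  m0 ∈ Hp → exp l0 = g m0 →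
  ∃ L : ℂ → ℂ, DifferentiableOn ℂ L Hp ∧ L m0 = l0 ∧ ∀ m ∈ Hp, exp (L m) = g m

/-! ### B. sections -/

/-- RGS (from MOB, and BIG, LOCZ, TRANS of PLIM): regularity over the strip. -/
def T_RGS : Prop := ∀ κ : ℝ, 0 < κ → κ ≤ 1 → NCZk κ → ∀ k : ℕ, 1 ≤ k →
  Rg k (St (κ / 5000)) vm

/-- SCW (adapt PSat/LFF.lean): sections over convex sets. -/
def T_SCW : Prop := ∀ (k : ℕ) (W : Set ℂ) (w : ℂ → ℂ), 1 ≤ k → IsOpen W → Convex ℝ W →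
  DifferentiableOn ℂ w W → Rg k W w → ∀ c z m0 : ℂ, m0 ∈ W → Pt 2 k c z (w m0) →
  ∃ Q Z : ℂ → ℂ, Sn k W w Q Z ∧ Q m0 = c ∧ Z m0 = z

/-- SUW (adapt PSat/LUF.lean): uniqueness of sections. -/
def T_SUW : Prop := ∀ (k : ℕ) (W : Set ℂ) (w Q Z Q' Z' : ℂ → ℂ) (m0 : ℂ), 1 ≤ k →
  IsPreconnected W → Rg k W w → ContinuousOn Q W → ContinuousOn Z W → ContinuousOn Q' W →
  ContinuousOn Z' W → (∀ m ∈ W, Pt 2 k (Q m) (Z m) (w m)) →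
  (∀ m ∈ W, Pt 2 k (Q' m) (Z' m) (w m)) → m0 ∈ W → Q m0 = Q' m0 → Z m0 = Z' m0 →
  EqOn Q Q' W ∧ EqOn Z Z' W

/-- EXS (from MOB, RGS, SCW, SUW, and CST, CMG of PSAT, BIG of PLIM): the extension of the
parametrization of a component. -/
def T_EXS : Prop := ∀ κ : ℝ, 0 < κ → κ ≤ 1 → NCZk κ → ∀ (K : ℕ) (P : ℂ → ℂ), Comp K P →
  ∃ Q : ℂ → ℂ, Exn (κ / 5000) P Q

/-- INP (from ATU of PLIM): the parametrization of a component is injective. -/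
def T_INP : Prop := ∀ (K : ℕ) (P : ℂ → ℂ), Comp K P → InjOn P (Metric.ball 0 1)

/-- UVP (from MOB, INP). -/
def T_UVP : Prop := ∀ (κ b : ℝ) (K : ℕ) (P Q : ℂ → ℂ), 0 < κ → κ ≤ 1 → 0 < b → Comp K P →
  Exn κ P Q → volume (P '' Metric.ball 0 1) ≤ ENNReal.ofReal (b ^ 4) → Uv κ b Q

/-- DSJ (from CST, CMG, GD1, SM2 of PSAT and ATU of PLIM): components are equal or disjoint. -/
def T_DSJ : Prop := ∀ (K K' : ℕ) (P P' : ℂ → ℂ), Comp K P → Comp K' P' →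
  EqOn P P' (Metric.ball 0 1) ∨ Disjoint (P '' Metric.ball 0 1) (P' '' Metric.ball 0 1)

/-- CCP (from INP, DSJ, and CST, GEX of PSAT): the connected components of the hyperbolic
locus. -/
def T_CCP : Prop :=
  (∀ (K : ℕ) (P : ℂ → ℂ), Comp K P → ∀ c ∈ P '' Metric.ball 0 1,
    connectedComponentIn Hyp c = P '' Metric.ball 0 1) ∧
  ∀ c ∈ Hyp, ∃ (K : ℕ) (P : ℂ → ℂ), Comp K P ∧ c ∈ P '' Metric.ball 0 1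

/-! ### C. the parent cycle -/

/-- MPG (adapt PSat/SUM.lean and PSat/MPL.lean to the parameter `c` itself): the minimum
principle. -/
def T_MPG : Prop := ∀ (k : ℕ) (c1 z1 : ℂ) (δ0 : ℝ), 1 ≤ k → (F 2 c1)^[k] z1 = z1 →
  Rho 2 k c1 z1 = 1 → 0 < δ0 → (∀ c z : ℂ, c ≠ c1 → ‖c - c1‖ < δ0 → ‖z - z1‖ < δ0 →
    (F 2 c)^[k] z = z → 1 < ‖Rho 2 k c z‖) → False

/-- NM1 (from MPG, and ATN, FINF, LOCZ of PLIM): an attracting cycle excludes multipliers one. -/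
def T_NM1 : Prop := ∀ (k K : ℕ) (c z z' : ℂ), 1 ≤ k → 1 ≤ K → (F 2 c)^[K] z = z →
  ‖Rho 2 K c z‖ < 1 → (F 2 c)^[k] z' = z' → Rho 2 k c z' ≠ 1

/-- RPK (from NM1, and ATN of PLIM): the points of smaller period are repelling. -/
def T_RPK : Prop := ∀ (k K : ℕ) (c z v z' : ℂ), 1 ≤ k → k < K → Pt 2 K c z v → ‖v‖ < 1 →
  (F 2 c)^[k] z' = z' → 1 < ‖Rho 2 k c z'‖

/-- KSC (from LIFC of PSAT and LOCZ of PLIM): continuation of fixed points of the iterate of order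
`k`. -/
def T_KSC : Prop := ∀ (k : ℕ) (W : Set ℂ) (Q : ℂ → ℂ), 1 ≤ k → IsOpen W → Convex ℝ W →
  DifferentiableOn ℂ Q W →
  (∀ m ∈ W, ∀ z : ℂ, (F 2 (Q m))^[k] z = z → Rho 2 k (Q m) z ≠ 1) →
  ∀ m0 ∈ W, ∀ z0 : ℂ, (F 2 (Q m0))^[k] z0 = z0 →
  ∃ Z : ℂ → ℂ, DifferentiableOn ℂ Z W ∧ Z m0 = z0 ∧ ∀ m ∈ W, (F 2 (Q m))^[k] (Z m) = Z m

/-- KUQ (from LOCZ of PLIM; adapt PSat/LUF.lean): uniqueness of the continuation. -/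
def T_KUQ : Prop := ∀ (k : ℕ) (S : Set ℂ) (Q Z Z' : ℂ → ℂ) (m0 : ℂ), 1 ≤ k →
  IsPreconnected S → ContinuousOn Q S → ContinuousOn Z S → ContinuousOn Z' S →
  (∀ m ∈ S, (F 2 (Q m))^[k] (Z m) = Z m ∧ (F 2 (Q m))^[k] (Z' m) = Z' m ∧
    Rho 2 k (Q m) (Z m) ≠ 1) → m0 ∈ S → Z m0 = Z' m0 → EqOn Z Z' S

/-- NRR (from CST, MKD, ROT, BCI, IDN of PSAT; see PSat/SER.lean): near the root. -/
def T_NRR : Prop := ∀ (K k p q : ℕ) (P : ℂ → ℂ) (r0 z0 : ℂ), Comp K P → K = k * q → 0 < p →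
  p < q → p.Coprime q → Tendsto P (𝓝[Metric.ball 0 1] 1) (𝓝 r0) →
  Pt 2 k r0 z0 (exp (2 * Real.pi * I * p / q)) →
  ∃ (R : ℝ) (y χ : ℂ → ℂ), 0 < R ∧ DifferentiableOn ℂ y (Metric.ball 0 R) ∧
    DifferentiableOn ℂ χ (Metric.ball 0 R) ∧ y 0 = 0 ∧ χ 0 = z0 ∧
    deriv y 0 = -1 / (q : ℂ) ^ 2 ∧
    ∀ ν ∈ Metric.ball (0 : ℂ) R, ν.re < 0 →
      Pt 2 k (P (exp ν)) (χ ν) (exp (2 * Real.pi * I * p / q + y ν))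

/-- KCA (from MOB, RPK, KSC, LGH): the parent cycle and its multiplier over the half plane. -/
def T_KCA : Prop := ∀ (κ : ℝ) (K k q : ℕ) (P Q : ℂ → ℂ) (m1 z1 l1 : ℂ), Comp K P → 0 < κ →
  Exn κ P Q → K = k * q → 2 ≤ q → m1 ∈ Hp → (F 2 (Q m1))^[k] z1 = z1 →
  Rho 2 k (Q m1) z1 = exp l1 →
  ∃ Z L : ℂ → ℂ, DifferentiableOn ℂ Z Hp ∧ DifferentiableOn ℂ L Hp ∧ Z m1 = z1 ∧ L m1 = l1 ∧
    ∀ m ∈ Hp, (F 2 (Q m))^[k] (Z m) = Z m ∧ Rho 2 k (Q m) (Z m) = exp (L m) ∧ 0 < (L m).re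

/-- KCB (from MOB, NRR, KCA, KUQ): the parent cycle over the half plane. -/
def T_KCB : Prop := ∀ (κ : ℝ) (K k p q : ℕ) (P Q : ℂ → ℂ) (r0 z0 : ℂ), Comp K P → 0 < κ →
  Exn κ P Q → K = k * q → 0 < p → p < q → p.Coprime q →
  Tendsto P (𝓝[Metric.ball 0 1] 1) (𝓝 r0) → Pt 2 k r0 z0 (exp (2 * Real.pi * I * p / q)) →
  ∃ Z x : ℂ → ℂ, Par k p q r0 z0 Q Z x

/-- TAL (from JUL, and LOCZ, TRANS of PLIM, LUQ of MEY): the tail. -/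
def T_TAL : Prop := ∀ C2 : ℝ, 1 ≤ C2 → SECZk C2 → ∀ (k p q : ℕ) (r0 z0 : ℂ) (Q Z x : ℂ → ℂ),
  0 < p → p < q → p.Coprime q → Pt 2 k r0 z0 (exp (2 * Real.pi * I * p / q)) → 1 ≤ k →
  DifferentiableOn ℂ Q Hp → Par k p q r0 z0 Q Z x →
  ∀ m : ℂ, C2 < m.re → ‖Q m - r0‖ ≤ 33 * C2 / m.re

/-! ### D. the final theorem -/

/-- FNS (from MOB, EXS, UVP, CHN, KCB, TAL): satellite components. -/
def T_FNS : Prop := T_NCZ → T_SECZ → ∃ C : ℝ, 0 < C ∧ ∀ (K : ℕ) (P : ℂ → ℂ) (b : ℝ),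
  Comp K P → Sat K P → 0 < b → volume (P '' Metric.ball 0 1) ≤ ENNReal.ofReal (b ^ 4) →
  ∀ v ∈ Metric.ball (0 : ℂ) 1, ∀ v' ∈ Metric.ball (0 : ℂ) 1, ‖P v - P v'‖ ≤ C * b

/-- FNA (from MOB, EXS, UVP, NBD, CHN): all components, away from the root. -/
def T_FNA : Prop := T_NCZ → ∃ C : ℝ, 0 < C ∧ ∀ (K : ℕ) (P : ℂ → ℂ) (b d : ℝ), Comp K P →
  0 < b → volume (P '' Metric.ball 0 1) ≤ ENNReal.ofReal (b ^ 4) → 0 < d → d ≤ 1 →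
  ∀ v v' : ℂ, ‖v‖ < 1 → d ≤ ‖v - 1‖ → ‖v'‖ < 1 → d ≤ ‖v' - 1‖ →
  ‖P v - P v'‖ ≤ C * (1 + Real.log (1 / d)) * b

/-- CNT (from INP, DSJ, and BIG of PLIM): the total area of the components. -/
def T_CNT : Prop := ∀ s : Finset (Set ℂ), (∀ U ∈ s, ∃ (K : ℕ) (P : ℂ → ℂ), Comp K P ∧
  U = P '' Metric.ball 0 1) → ∑ U ∈ s, (volume U).toReal ≤ 1000

/-- The final statement. -/
def T_FIN : Prop := T_NCZ → T_SECZ → ∃ C : ℝ, 0 < C ∧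
  (∀ (K : ℕ) (P : ℂ → ℂ), Comp K P → Sat K P →
    Metric.diam (P '' Metric.ball 0 1) ≤
      C * (volume (P '' Metric.ball 0 1)).toReal ^ (1 / 4 : ℝ)) ∧
  (∀ s : Finset (Set ℂ), (∀ U ∈ s, ∃ (K : ℕ) (P : ℂ → ℂ), Comp K P ∧ Sat K P ∧
    U = P '' Metric.ball 0 1) → ∑ U ∈ s, Metric.diam U ^ 4 ≤ C) ∧
  (∀ ε : ℝ, 0 < ε → {U : Set ℂ | ε ≤ Metric.diam U ∧ ∃ (K : ℕ) (P : ℂ → ℂ), Comp K P ∧
    Sat K P ∧ U = P '' Metric.ball 0 1}.Finite ∧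
    ({U : Set ℂ | ε ≤ Metric.diam U ∧ ∃ (K : ℕ) (P : ℂ → ℂ), Comp K P ∧
      Sat K P ∧ U = P '' Metric.ball 0 1}.ncard : ℝ) ≤ C / ε ^ 4) ∧
  (∀ (K : ℕ) (P : ℂ → ℂ) (d : ℝ), Comp K P → 0 < d → d ≤ 1 →
    Metric.diam (P '' {v : ℂ | ‖v‖ < 1 ∧ d ≤ ‖v - 1‖}) ≤
      C * (1 + Real.log (1 / d)) * (volume (P '' Metric.ball 0 1)).toReal ^ (1 / 4 : ℝ)) ∧
  ∀ d ε : ℝ, 0 < d → d ≤ 1 → 0 < ε → {U : Set ℂ | ∃ (K : ℕ) (P : ℂ → ℂ), Comp K P ∧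
    U = P '' Metric.ball 0 1 ∧ ε ≤ Metric.diam (P '' {v : ℂ | ‖v‖ < 1 ∧ d ≤ ‖v - 1‖})}.Finite ∧
    ({U : Set ℂ | ∃ (K : ℕ) (P : ℂ → ℂ), Comp K P ∧ U = P '' Metric.ball 0 1 ∧
      ε ≤ Metric.diam (P '' {v : ℂ | ‖v‖ < 1 ∧ d ≤ ‖v - 1‖})}.ncard : ℝ) ≤
      C * (1 + Real.log (1 / d)) ^ 4 / ε ^ 4

end Pool.Agent.AEN
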