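import Pool.Agent.AEN.Targets

/-!
# AEN: targets, second part: the bound `diam ≤ C √area (1 + |log area|)`

These replace TCR, NBD, CHN, FNS, FNA, FIN of Targets.lean (proofs in Blueprint2.lean.txt).
-/

set_option autoImplicit false

open Complex Filter Topology Set MeasureTheory
open Pool.Agent.Multibrot (MM)
open Pool.Agent.Limb (F)
open Pool.Agent.PLim (Rho LocFix)
open Pool.Agent.MEX (Exa)
open Pool.Agent.MEY (Pt)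
open Pool.Agent.PSat (Comp Sat)
open Pool.Agent.MEZ (T_AEL T_NCZ T_SECZ NCZk SECZk Fz)

namespace Pool.Agent.AEN

/-- NBD2 (from MVA and the three lines theorem): the derivative on the closed half plane. -/
def T_NBD2 : Prop := ∀ (κ b : ℝ) (Q : ℂ → ℂ), Uv κ b Q →
  (∀ m : ℂ, 0 < m.re → ‖deriv Q m‖ ≤ b ^ 2 / m.re) ∧
  (b ≤ 1 → ∀ m : ℂ, 0 ≤ m.re → ‖deriv Q m‖ ≤ 11 * b ^ 2 * (1 + Real.log (1 / b)) / κ)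

/-- CHN2 (from NBD2): integration along a horizontal line. -/
def T_CHN2 : Prop := ∀ (κ b : ℝ) (Q : ℂ → ℂ), Uv κ b Q → b ≤ 1 → ∀ Y s M : ℝ, 0 < s →
  s ≤ M → 1 ≤ M → ‖Q (s + Y * I) - Q (M + Y * I)‖ ≤
    11 * b ^ 2 * (1 + Real.log (1 / b)) / κ + b ^ 2 * Real.log M

/-- FNS2 (from MOB, EXS, UVP, CHN2, KCB, TAL): satellite components. -/
def T_FNS2 : Prop := T_NCZ → T_SECZ → ∃ C : ℝ, 0 < C ∧ ∀ (K : ℕ) (P : ℂ → ℂ) (b : ℝ),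
  Comp K P → Sat K P → 0 < b → volume (P '' Metric.ball 0 1) ≤ ENNReal.ofReal (b ^ 4) →
  ∀ v ∈ Metric.ball (0 : ℂ) 1, ∀ v' ∈ Metric.ball (0 : ℂ) 1,
    ‖P v - P v'‖ ≤ C * b ^ 2 * (1 + |Real.log b|)

/-- FNA2 (from MOB, EXS, UVP, NBD2, CHN2): all components, away from the root. -/
def T_FNA2 : Prop := T_NCZ → ∃ C : ℝ, 0 < C ∧ ∀ (K : ℕ) (P : ℂ → ℂ) (b d : ℝ), Comp K P →
  0 < b → volume (P '' Metric.ball 0 1) ≤ ENNReal.ofReal (b ^ 4) → 0 < d → d ≤ 1 →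
  ∀ v v' : ℂ, ‖v‖ < 1 → d ≤ ‖v - 1‖ → ‖v'‖ < 1 → d ≤ ‖v' - 1‖ →
  ‖P v - P v'‖ ≤ C * b ^ 2 * (1 + |Real.log b| + Real.log (1 / d))

/-- LGI: inversion of the inequality. -/
def T_LGI : Prop := ∀ C : ℝ, 1 ≤ C → ∃ C' : ℝ, 1 ≤ C' ∧ ∀ ε a : ℝ, 0 < ε → 0 < a → a ≤ 1000 →
  ε ≤ C * √a * (1 + |Real.log a|) → ε ^ 2 ≤ C' * a * (1 + |Real.log ε|) ^ 2

/-- `U` is a satellite component, parametrized by `P`. -/
def IsSat (U : Set ℂ) : Prop :=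
  ∃ (K : ℕ) (P : ℂ → ℂ), Comp K P ∧ Sat K P ∧ U = P '' Metric.ball 0 1

/-- The final statement (from FNS2, FNA2, CNT, LGI, INP). -/
def T_FIN2 : Prop := T_NCZ → T_SECZ → ∃ C : ℝ, 0 < C ∧
  (∀ U : Set ℂ, IsSat U → Metric.diam U ≤
    C * √(volume U).toReal * (1 + |Real.log (volume U).toReal|)) ∧
  (∀ s : Finset (Set ℂ), (∀ U ∈ s, IsSat U) →
    ∑ U ∈ s, (Metric.diam U / (1 + |Real.log (Metric.diam U)|)) ^ 2 ≤ C) ∧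
  (∀ ε : ℝ, 0 < ε → {U : Set ℂ | IsSat U ∧ ε ≤ Metric.diam U}.Finite ∧
    ({U : Set ℂ | IsSat U ∧ ε ≤ Metric.diam U}.ncard : ℝ) ≤
      C * (1 + |Real.log ε|) ^ 2 / ε ^ 2) ∧
  (∀ (K : ℕ) (P : ℂ → ℂ) (d : ℝ), Comp K P → 0 < d → d ≤ 1 →
    Metric.diam (P '' {v : ℂ | ‖v‖ < 1 ∧ d ≤ ‖v - 1‖}) ≤
      C * √(volume (P '' Metric.ball 0 1)).toReal *
        (1 + |Real.log (volume (P '' Metric.ball 0 1)).toReal| + Real.log (1 / d))) ∧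
  ∀ d ε : ℝ, 0 < d → d ≤ 1 → 0 < ε → {U : Set ℂ | ∃ (K : ℕ) (P : ℂ → ℂ), Comp K P ∧
    U = P '' Metric.ball 0 1 ∧ ε ≤ Metric.diam (P '' {v : ℂ | ‖v‖ < 1 ∧ d ≤ ‖v - 1‖})}.Finite ∧
    ({U : Set ℂ | ∃ (K : ℕ) (P : ℂ → ℂ), Comp K P ∧ U = P '' Metric.ball 0 1 ∧
      ε ≤ Metric.diam (P '' {v : ℂ | ‖v‖ < 1 ∧ d ≤ ‖v - 1‖})}.ncard : ℝ) ≤
      C * (1 + Real.log (1 / d)) ^ 2 * (1 + |Real.log ε| + Real.log (1 / d)) ^ 2 / ε ^ 2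

end Pool.Agent.AEN
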