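import Pool.Agent.AEN.Targets2

/-!
# AEN: targets, third part: the limbs of all components

Complete proofs in Blueprint3.lean.txt.
-/

set_option autoImplicit false

open Complex Filter Topology Set MeasureTheory
open Pool.Agent.Multibrot (MM)
open Pool.Agent.Limb (F)
open Pool.Agent.PLim (Rho LocFix OMXn)
open Pool.Agent.MEX (Exa)
open Pool.Agent.MEY (Pt)
open Pool.Agent.PSat (Comp Sat Lmb)
open Pool.Agent.MEZ (T_AEL T_NCZ T_SECZ NCZk SECZk Fz)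

namespace Pool.Agent.AEN

/-- The number `C K q / min (p, q - p) ^ 2`. -/
noncomputable def sg (C : ℝ) (K p q : ℕ) : ℝ := C * K * q / ((min p (q - p) : ℕ) : ℝ) ^ 2

/-- EXZ (from MOB, RGS, SCW, SUW, and CST, CMG of PSAT, BIG of PLIM; as P_EXS.lean): the extension
of the parametrization of a component, with the section over the strip. -/
def T_EXZ : Prop := ∀ κ : ℝ, 0 < κ → κ ≤ 1 → NCZk κ → ∀ (K : ℕ) (P : ℂ → ℂ), Comp K P →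
  ∃ Q Z : ℂ → ℂ, Exn (κ / 5000) P Q ∧ Sn K (St (κ / 5000)) vm Q Z

/-- NBD3 (from MVA and the three lines theorem; adapt P_NBD2.lean): the derivative to the left of
the half plane. -/
def T_NBD3 : Prop := ∀ (κ b s : ℝ) (Q : ℂ → ℂ), Uv κ b Q → b ≤ 1 → 0 ≤ s → s ≤ κ / 8 →
  ∀ m : ℂ, -s ≤ m.re →
  ‖deriv Q m‖ ≤ 60 * b ^ (2 - 4 * s / κ) * (1 + Real.log (1 / b)) / κ

/-- LMQ (from MOB, LIMBZ of MEY, LOCZ of PLIM): the limb in the coordinate `m`. -/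
def T_LMQ : Prop := ∀ (C1 κ : ℝ) (K p q : ℕ) (P Q Z : ℂ → ℂ) (r : ℂ) (A : Set ℂ), 0 < C1 →
  OMXn 2 C1 → 0 < κ → κ ≤ 1 / 5000 → Comp K P → Exn κ P Q → Sn K (St κ) vm Q Z →
  Lmb P p q r A → C1 * K * q < κ * ((min p (q - p) : ℕ) : ℝ) ^ 2 →
  ∃ mt : ℂ, mt.re = 0 ∧ (2 * mt + 1) * (1 - exp (2 * Real.pi * I * p / q)) = 2 ∧ Q mt = r ∧
    ∀ c ∈ A, ∃ m : ℂ, ‖m - mt‖ ≤ sg C1 K p q / 6 ∧ Q m = c

/-- LM1 (from FINF, BIG of PLIM): the limit at the root. -/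
def T_LM1 : Prop := ∀ (K : ℕ) (P : ℂ → ℂ), Comp K P →
  ∃ r0 : ℂ, Tendsto P (𝓝[Metric.ball 0 1] 1) (𝓝 r0)

/-- UNI (from MOB, TCR, LM1): the limit at infinity in the coordinate `m`. -/
def T_UNI : Prop := ∀ (κ : ℝ) (K : ℕ) (P Q : ℂ → ℂ), 0 < κ → κ ≤ 1 → Comp K P → Exn κ P Q →
  ∃ r0 : ℂ, ∀ ε : ℝ, 0 < ε → ∃ Y : ℝ, ∀ m : ℂ, -(κ / 8) ≤ m.re → Y ≤ |m.im| → ‖Q m - r0‖ ≤ ε

/-- FLM (from EXZ, UVP, NBD3, LMQ, and CST of PSAT): the size of the limbs. -/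
def T_FLM : Prop := T_NCZ → ∃ C0 : ℝ, 1 ≤ C0 ∧ ∀ C : ℝ, C0 ≤ C →
  ∀ (K p q : ℕ) (P : ℂ → ℂ) (b : ℝ) (r : ℂ) (A : Set ℂ), Comp K P → 0 < b →
  volume (P '' Metric.ball 0 1) ≤ ENNReal.ofReal (b ^ 4) → Lmb P p q r A → sg C K p q ≤ 1 →
  ∀ c ∈ A, ‖c - r‖ ≤ sg C K p q * b ^ (2 - sg C K p q) * (1 + |Real.log b|)

/-- FLF (from EXZ, UNI, LMQ, and CST of PSAT, see the proof of FLM): each component has only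
finitely many large limbs. -/
def T_FLF : Prop := T_NCZ → ∃ C0 : ℝ, 1 ≤ C0 ∧ ∀ C : ℝ, C0 ≤ C → ∀ (K : ℕ) (P : ℂ → ℂ) (ε : ℝ),
  Comp K P → 0 < ε → {x : ℕ × ℕ | sg C K x.1 x.2 ≤ 1 ∧ ∃ (r : ℂ) (A : Set ℂ),
    Lmb P x.1 x.2 r A ∧ ε ≤ Metric.diam A}.Finite

/-- LGJ: inversion of the inequality. -/
def T_LGJ : Prop := ∀ C : ℝ, 1 ≤ C → ∃ C' : ℝ, 1 ≤ C' ∧ ∀ ε a : ℝ, 0 < ε → 0 < a → a ≤ 1000 →
  ε ≤ C * a ^ (1 / 4 : ℝ) * (1 + |Real.log a|) → ε ^ 4 ≤ C' * a * (1 + |Real.log ε|) ^ 4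

/-- `x.1` is a component with a limb of rotation number `x.2.1 / x.2.2` and diameter at least
`ε`. -/
def BigL (C ε : ℝ) (x : Set ℂ × ℕ × ℕ) : Prop :=
  ∃ (K : ℕ) (P : ℂ → ℂ) (r : ℂ) (A : Set ℂ), Comp K P ∧ x.1 = P '' Metric.ball 0 1 ∧
    Lmb P x.2.1 x.2.2 r A ∧ sg C K x.2.1 x.2.2 ≤ 1 ∧ ε ≤ Metric.diam A

/-- The limbs (from FLM, FLF, LGJ, CNT, INP, DSJ). -/
def T_FIN3 : Prop := T_NCZ → ∃ C : ℝ, 1 ≤ C ∧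
  (∀ (K p q : ℕ) (P : ℂ → ℂ) (r : ℂ) (A : Set ℂ), Comp K P → Lmb P p q r A → sg C K p q ≤ 1 →
    Metric.diam A ≤ sg C K p q *
      (volume (P '' Metric.ball 0 1)).toReal ^ (1 / 2 - sg C K p q / 4) *
      (1 + |Real.log (volume (P '' Metric.ball 0 1)).toReal|)) ∧
  ∀ ε : ℝ, 0 < ε → {x : Set ℂ × ℕ × ℕ | BigL C ε x}.Finite ∧
    ({U : Set ℂ | ∃ y : ℕ × ℕ, BigL C ε (U, y)}.ncard : ℝ) ≤
      C * (1 + |Real.log ε|) ^ 4 / ε ^ 4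

end Pool.Agent.AEN
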